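import Mathlib

/-!
Real-time deterministic pushdown automata.
-/

set_option autoImplicit false

namespace Pool.CoCF

/-- a real-time deterministic pushdown automaton over the alphabet `X`: finitely many states and
stack symbols; in each step it reads one letter, and replaces the top symbol of the stack (`none` if
the stack is empty) by a word, depending on the state, the letter and the top symbol -/
structure Automaton (X : Type) where
  /-- states -/
  State : Type
  /-- stack symbols -/
  Symbol : Type
  finiteState : Finite State
  finiteSymbol : Finite Symbol
  /-- the start state -/
  start : State
  /-- the word on the stack at the start, its top first -/
  stack : List Symbol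
  /-- the new state and the word which replaces the top symbol -/
  step : State → X → Option Symbol → State × List Symbol
  /-- accepting states -/
  accept : Set State

/-- one step, on states together with the content of the stack -/
def Automaton.next {X : Type} (M : Automaton X) (c : M.State × List M.Symbol) (x : X) :
    M.State × List M.Symbol :=
  ((M.step c.1 x c.2.head?).1, (M.step c.1 x c.2.head?).2 ++ c.2.tail)

/-- the state and the stack after reading a word -/
def Automaton.run {X : Type} (M : Automaton X) (w : List X) : M.State × List M.Symbol :=
  w.foldl M.next (M.start, M.stack)

/-- the language accepted by the automaton -/
def Automaton.language {X : Type} (M : Automaton X) : Set (List X) :=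
  {w | (M.run w).1 ∈ M.accept}

/-- a word contains no factor `u u` with `u` not empty -/
def SquareFree {X : Type} (w : List X) : Prop :=
  ∀ u : List X, u ++ u <:+: w → u = []

end Pool.CoCF
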