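import Pool.Agent.CoCF.Inf
import Pool.Agent.CoCF.Auto

/-!
The two automata which push a block and compare the next block with the image of its reverse.
-/

set_option autoImplicit false

namespace Pool.CoCF

/-- states: pushing; inside or between the code words of Leech; dead -/
inductive St
  | push
  | ver (a : Fin 3) (j : Fin 14)
  | dead
  deriving DecidableEq, Fintype

/-- the step of both automata -/
def stp : St → Option (Fin 3) → Option (Fin 3) → St × List (Fin 3)
  | .push, some x, t => (.push, x :: t.toList)
  | .push, none, t => (.ver 0 13, t.toList)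
  | .ver a j, some x, t =>
    if h : j.1 < 13 then
      if x = (lee a).getD j.1 0 then (.ver a ⟨j.1 + 1, by omega⟩, t.toList) else (.dead, [])
    else
      match t with
      | some a' => if x = (lee a').getD 0 0 then (.ver a' 1, []) else (.dead, [])
      | none => (.dead, [])
  | .ver _ j, none, t =>
    if j.1 < 13 then (.dead, [])
    else
      match t with
      | some _ => (.dead, [])
      | none => (.push, [])
  | .dead, _, _ => (.dead, [])

/-- the step on configurations -/
def nx (c : St × List (Fin 3)) (g : Option (Fin 3)) : St × List (Fin 3) :=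
  ((stp c.1 g c.2.head?).1, (stp c.1 g c.2.head?).2 ++ c.2.tail)

/-- the run -/
def rn (c : St × List (Fin 3)) (b : List (Option (Fin 3))) : St × List (Fin 3) := b.foldl nx c

theorem rn_snoc (c : St × List (Fin 3)) (b : List (Option (Fin 3))) (g : Option (Fin 3)) :
    rn c (b ++ [g]) = nx (rn c b) g := by
  unfold rn
  rw [List.foldl_append]
  rfl

theorem nx_dead (c : St × List (Fin 3)) (g : Option (Fin 3)) (h : c.1 = .dead) :
    (nx c g).1 = .dead := by
  obtain ⟨q, st⟩ := c
  subst h
  rfl

/-- the automaton has the word `v` of the current block on its stack -/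
def Push (v : List (Fin 3)) (c : St × List (Fin 3)) : Prop := c = (.push, v.reverse)

/-- the automaton has compared the word `v` and expects the rest of the block `B k` -/
def Ver (k : ℕ) (v : List (Fin 3)) (c : St × List (Fin 3)) : Prop :=
  ∃ a j st, c = (.ver a j, st) ∧ v ++ ((lee a).drop j.1 ++ st.flatMap lee) = B k

/-- the first configurations of the two automata -/
def c1 : St × List (Fin 3) := (.push, [])

/-- the first configurations of the two automata -/
def c2 : St × List (Fin 3) := (.ver 0 13, [0, 1])

/-- both automata are as they should be after reading `b` -/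
def Inv (b : List (Option (Fin 3))) (d1 d2 : St × List (Fin 3)) : Prop :=
  ∃ k v, b = P k ++ v.map some ∧ ((Push v d1 ∧ Ver k v d2) ∨ (Push v d2 ∧ Ver k v d1))

theorem lee_drop13 (a : Fin 3) : (lee a).drop 13 = [] := by
  apply List.drop_of_length_le
  rw [lee_len]

theorem lee_drop (a : Fin 3) (j : ℕ) (hj : j < 13) :
    (lee a).drop j = (lee a).getD j 0 :: (lee a).drop (j + 1) := by
  rw [List.drop_eq_getElem_cons (by rw [lee_len]; exact hj),
    List.getD_eq_getElem _ _ (by rw [lee_len]; exact hj)]

theorem ver_letter {k : ℕ} {v : List (Fin 3)} {c : St × List (Fin 3)} (h : Ver k v c)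
    (x : Fin 3) (hal : (nx c (some x)).1 ≠ .dead) : Ver k (v ++ [x]) (nx c (some x)) := by
  obtain ⟨a, j, st, rfl, hR⟩ := h
  by_cases hj : j.1 < 13
  · by_cases hx : x = (lee a).getD j.1 0
    · have e : nx (.ver a j, st) (some x) = (.ver a ⟨j.1 + 1, by omega⟩, st) := by
        simp only [nx, stp, dif_pos hj, if_pos hx]
        cases st <;> rfl
      rw [e]
      refine ⟨a, _, st, rfl, ?_⟩
      rw [← hR, lee_drop a j.1 hj, ← hx]
      simp
    · exfalso
      apply hal
      simp only [nx, stp, dif_pos hj, if_neg hx]
  · have hj13 : j.1 = 13 := by have := j.2; omega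
    cases st with
    | nil =>
      exfalso
      apply hal
      simp only [nx, stp, dif_neg hj, List.head?_nil]
    | cons a' st =>
      by_cases hx : x = (lee a').getD 0 0
      · have e : nx (.ver a j, a' :: st) (some x) = (.ver a' 1, st) := by
          simp only [nx, stp, dif_neg hj, List.head?_cons, if_pos hx, List.tail_cons,
            List.nil_append]
        rw [e]
        refine ⟨a', 1, st, rfl, ?_⟩
        have h1 : (1 : Fin 14).1 = 0 + 1 := rfl
        have h0 := lee_drop a' 0 (by norm_num)
        rw [List.drop_zero] at h0
        rw [← hR, hj13, lee_drop13, h1, List.flatMap_cons, List.nil_append, h0, ← hx]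
        simp
      · exfalso
        apply hal
        simp only [nx, stp, dif_neg hj, List.head?_cons, if_neg hx]

theorem ver_marker {k : ℕ} {v : List (Fin 3)} {c : St × List (Fin 3)} (h : Ver k v c)
    (hal : (nx c none).1 ≠ .dead) : v = B k ∧ nx c none = (.push, []) := by
  obtain ⟨a, j, st, rfl, hR⟩ := h
  by_cases hj : j.1 < 13
  · exfalso
    apply hal
    simp only [nx, stp, if_pos hj]
  · have hj13 : j.1 = 13 := by have := j.2; omega
    cases st with
    | nil =>
      refine ⟨?_, ?_⟩
      · rw [← hR, hj13, lee_drop13]
        simp
      · simp only [nx, stp, if_neg hj, List.head?_nil, List.tail_nil, List.append_nil]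
    | cons a' st =>
      exfalso
      apply hal
      simp only [nx, stp, if_neg hj, List.head?_cons]

theorem push_letter {v : List (Fin 3)} {c : St × List (Fin 3)} (h : Push v c) (x : Fin 3) :
    Push (v ++ [x]) (nx c (some x)) := by
  unfold Push at h ⊢
  subst h
  simp only [nx, stp]
  rw [List.reverse_append]
  cases v.reverse <;> rfl

theorem push_marker {k : ℕ} {c : St × List (Fin 3)} (h : Push (B k) c) :
    Ver (k + 1) [] (nx c none) := by
  unfold Push at h
  subst h
  refine ⟨0, 13, (B k).reverse, ?_, ?_⟩
  · simp only [nx, stp]
    cases (B k).reverse <;> rfl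
  · have h1 : (13 : Fin 14).1 = 13 := rfl
    rw [h1, lee_drop13, List.nil_append, List.nil_append, B]

theorem inv_start : Inv [] c1 c2 := by
  refine ⟨0, [], rfl, Or.inl ⟨rfl, 0, 13, [0, 1], rfl, ?_⟩⟩
  have h1 : (13 : Fin 14).1 = 13 := rfl
  rw [h1, lee_drop13, List.nil_append, List.nil_append, B]

theorem inv_step {b : List (Option (Fin 3))} {d1 d2 : St × List (Fin 3)} (h : Inv b d1 d2)
    (g : Option (Fin 3)) (h1 : (nx d1 g).1 ≠ .dead) (h2 : (nx d2 g).1 ≠ .dead) :
    Inv (b ++ [g]) (nx d1 g) (nx d2 g) := by
  obtain ⟨k, v, rfl, h⟩ := h
  cases g with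
  | some x =>
    refine ⟨k, v ++ [x], by simp, ?_⟩
    rcases h with ⟨hp, hv⟩ | ⟨hp, hv⟩
    · exact Or.inl ⟨push_letter hp x, ver_letter hv x h2⟩
    · exact Or.inr ⟨push_letter hp x, ver_letter hv x h1⟩
  | none =>
    rcases h with ⟨hp, hv⟩ | ⟨hp, hv⟩
    · obtain ⟨e1, e2⟩ := ver_marker hv h2
      subst e1
      exact ⟨k + 1, [], by simp [P], Or.inr ⟨e2, push_marker hp⟩⟩
    · obtain ⟨e1, e2⟩ := ver_marker hv h1
      subst e1
      exact ⟨k + 1, [], by simp [P], Or.inl ⟨e2, push_marker hp⟩⟩

theorem rn_inv (b : List (Option (Fin 3))) (h1 : (rn c1 b).1 ≠ .dead)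
    (h2 : (rn c2 b).1 ≠ .dead) : Inv b (rn c1 b) (rn c2 b) := by
  induction b using List.reverseRecOn with
  | nil => exact inv_start
  | append_singleton b g ih =>
    rw [rn_snoc] at h1 h2 ⊢
    rw [rn_snoc]
    exact inv_step (ih (fun h => h1 (nx_dead _ _ h)) (fun h => h2 (nx_dead _ _ h))) g h1 h2

/-- the letter which follows a word read by both automata -/
theorem next_letter {b : List (Option (Fin 3))} {d1 d2 : St × List (Fin 3)} (h : Inv b d1 d2)
    (g : Option (Fin 3)) :
    ((nx d1 g).1 ≠ .dead ∧ (nx d2 g).1 ≠ .dead) ↔ g = W b.length := by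
  obtain ⟨k, v, rfl, h⟩ := h
  have hlen : (P k ++ v.map some).length = EE k + v.length := by
    rw [List.length_append, List.length_map]
    rfl
  rw [hlen]
  have hpush : ∀ d, Push v d → ∀ g, (nx d g).1 ≠ .dead := by
    intro d hd g
    unfold Push at hd
    subst hd
    cases g with
    | some x => simp [nx, stp]
    | none => simp [nx, stp]
  have main : ∀ d, Ver k v d → ((nx d g).1 ≠ .dead ↔ g = W (EE k + v.length)) := by
    intro d hd
    obtain ⟨a, j, st, rfl, hR⟩ := hd
    -- the rest of the block
    by_cases hj : j.1 < 13
    · have hW : W (EE k + v.length) = some ((lee a).getD j.1 0) := by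
        have hl : v.length < ll k := by
          rw [← B_len, ← hR, lee_drop a j.1 hj]
          simp
        rw [W_some k _ hl, ← hR, List.getD_append_right _ _ _ _ (le_refl _), Nat.sub_self,
          lee_drop a j.1 hj]
        rfl
      rw [hW]
      cases g with
      | none =>
        constructor
        · intro h
          exfalso
          apply h
          simp only [nx, stp, if_pos hj]
        · intro h
          cases h
      | some x =>
        constructor
        · intro h
          by_contra hc
          apply h
          have hx : x ≠ (lee a).getD j.1 0 := fun e => hc (by rw [e])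
          simp only [nx, stp, dif_pos hj, if_neg hx]
        · intro h
          have hx : x = (lee a).getD j.1 0 := Option.some.inj h
          simp only [nx, stp, dif_pos hj, if_pos hx]
          simp
    · have hj13 : j.1 = 13 := by have := j.2; omega
      rw [hj13, lee_drop13, List.nil_append] at hR
      cases st with
      | nil =>
        have hv : v = B k := by simpa using hR
        have hW : W (EE k + v.length) = none := by rw [hv, B_len]; exact W_none k
        rw [hW]
        cases g with
        | none =>
          simp only [nx, stp, if_neg hj, List.head?_nil]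
          simp
        | some x =>
          simp only [nx, stp, dif_neg hj, List.head?_nil]
          simp
      | cons a' st =>
        have h0 := lee_drop a' 0 (by norm_num)
        rw [List.drop_zero] at h0
        have hW : W (EE k + v.length) = some ((lee a').getD 0 0) := by
          have hl : v.length < ll k := by
            rw [← B_len, ← hR, List.flatMap_cons, h0]
            simp
          rw [W_some k _ hl, ← hR, List.getD_append_right _ _ _ _ (le_refl _), Nat.sub_self,
            List.flatMap_cons, h0]
          rfl
        rw [hW]
        cases g with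
        | none =>
          simp only [nx, stp, if_neg hj, List.head?_cons]
          simp
        | some x =>
          constructor
          · intro h
            by_contra hc
            apply h
            have hx : x ≠ (lee a').getD 0 0 := fun e => hc (by rw [e])
            simp only [nx, stp, dif_neg hj, List.head?_cons, if_neg hx]
          · intro h
            have hx : x = (lee a').getD 0 0 := Option.some.inj h
            simp only [nx, stp, dif_neg hj, List.head?_cons, if_pos hx]
            simp
  rcases h with ⟨hp, hv⟩ | ⟨hp, hv⟩
  · exact ⟨fun h => (main _ hv).1 h.2, fun h => ⟨hpush _ hp g, (main _ hv).2 h⟩⟩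
  · exact ⟨fun h => (main _ hv).1 h.1, fun h => ⟨(main _ hv).2 h, hpush _ hp g⟩⟩

/-- the words read by both automata are the prefixes of `W` -/
theorem both_iff (b : List (Option (Fin 3))) :
    ((rn c1 b).1 ≠ .dead ∧ (rn c2 b).1 ≠ .dead) ↔ b = (List.range b.length).map W := by
  induction b using List.reverseRecOn with
  | nil =>
    constructor
    · intro _; rfl
    · intro _; exact ⟨by decide, by decide⟩
  | append_singleton b g ih =>
    rw [rn_snoc, rn_snoc]
    constructor
    · rintro ⟨h1, h2⟩
      have h3 : (rn c1 b).1 ≠ .dead := fun h => h1 (nx_dead _ _ h)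
      have h4 : (rn c2 b).1 ≠ .dead := fun h => h2 (nx_dead _ _ h)
      have h5 := (next_letter (rn_inv b h3 h4) g).1 ⟨h1, h2⟩
      rw [List.length_append, List.length_singleton, List.range_succ, List.map_append,
        ← ih.1 ⟨h3, h4⟩, h5]
      rfl
    · intro h
      rw [List.length_append, List.length_singleton, List.range_succ, List.map_append] at h
      obtain ⟨h6, h7⟩ := List.append_inj h (by simp)
      obtain ⟨h3, h4⟩ := ih.2 h6
      have h8 : g = W b.length := by simpa using h7
      exact (next_letter (rn_inv b h3 h4) g).2 h8

end Pool.CoCF
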