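import Mathlib

/-!
Real-time automata with counters.
-/

set_option autoImplicit false

namespace Pool.CoCF

/-- what one step can do to a counter -/
inductive Act
  | reset
  | down
  | keep
  | up

/-- the value of a counter after an action; `down` leaves the value `0` as it is -/
def Act.apply : Act → ℕ → ℕ
  | .reset, _ => 0
  | .down, n => n - 1
  | .keep, n => n
  | .up, n => n + 1

/-- a nondeterministic real-time automaton with `k` counters over the alphabet `X` -/
structure Counters (k : ℕ) (X : Type) where
  /-- states -/
  State : Type
  finiteState : Finite State
  /-- the start state; all counters start with the value `0` -/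
  start : State
  /-- the possible new states together with the actions on the counters, depending on the state,
  the letter and the set of the counters with the value `0` -/
  step : State → X → Set (Fin k) → Set (State × (Fin k → Act))
  /-- accepting states -/
  accept : Set State

variable {k : ℕ} {X : Type}

/-- reading the letter `x` in the state `c.1` with the counters `c.2`, the automaton can go to the
state `d.1` with the counters `d.2` -/
def Counters.Move (M : Counters k X) (c : M.State × (Fin k → ℕ)) (x : X)
    (d : M.State × (Fin k → ℕ)) : Prop :=
  ∃ a : Fin k → Act, (d.1, a) ∈ M.step c.1 x {i | c.2 i = 0} ∧ ∀ i, d.2 i = (a i).apply (c.2 i)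

/-- reading the word, the automaton can go from `c` to `d` -/
def Counters.Reaches (M : Counters k X) :
    List X → M.State × (Fin k → ℕ) → M.State × (Fin k → ℕ) → Prop
  | [], c, d => c = d
  | x :: w, c, d => ∃ e, M.Move c x e ∧ M.Reaches w e d

/-- the accepted words -/
def Counters.language (M : Counters k X) : Set (List X) :=
  {w | ∃ d, M.Reaches w (M.start, fun _ => 0) d ∧ d.1 ∈ M.accept}

end Pool.CoCF
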