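import Pool.Agent.CoCF.CDef

/-!
Automata with counters and several one-way heads.
-/

set_option autoImplicit false

namespace Pool.CoCF

/-- a nondeterministic automaton with `k` counters and `m` heads over the alphabet `X`; the heads
read disjoint parts of the input -/
structure HeadAutomaton (k m : ℕ) (X : Type) where
  /-- states -/
  State : Type
  finiteState : Finite State
  /-- the possible new states together with the actions on the counters, depending on the state,
  on `(x, i)`, where `x` is a letter read by the head `i`, and on the set of the counters with the
  value `0` -/
  step : State → X × Fin m → Set (Fin k) → Set (State × (Fin k → Act))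
  /-- the heads that read their part of the input from right to left -/
  backward : Fin m → Bool
  /-- the accepted pairs of a first and a last configuration -/
  accept : Set ((State × (Fin k → ℕ)) × (State × (Fin k → ℕ)))

variable {k m : ℕ} {X : Type}

/-- one move, in which the letter `a.1` is read by the head `a.2` -/
def HeadAutomaton.Move (M : HeadAutomaton k m X) (c : M.State × (Fin k → ℕ)) (a : X × Fin m)
    (d : M.State × (Fin k → ℕ)) : Prop :=
  ∃ b : Fin k → Act, (d.1, b) ∈ M.step c.1 a {i | c.2 i = 0} ∧ ∀ i, d.2 i = (b i).apply (c.2 i)

/-- a sequence of moves -/
def HeadAutomaton.Reaches (M : HeadAutomaton k m X) :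
    List (X × Fin m) → M.State × (Fin k → ℕ) → M.State × (Fin k → ℕ) → Prop
  | [], c, d => c = d
  | a :: v, c, d => ∃ e, M.Move c a e ∧ M.Reaches v e d

/-- the letters read by the head `i`, in the order in which they are read -/
def part (v : List (X × Fin m)) (i : Fin m) : List X :=
  v.filterMap (fun a => if a.2 = i then some a.1 else none)

/-- the input read by the moves `v`: the concatenation of the parts read by the heads -/
def input (f : Fin m → Bool) (v : List (X × Fin m)) : List X :=
  (List.finRange m).flatMap (fun i => if f i then (part v i).reverse else part v i)

/-- the accepted words -/
def HeadAutomaton.language (M : HeadAutomaton k m X) : Set (List X) :=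
  {w | ∃ v c d, M.Reaches v c d ∧ (c, d) ∈ M.accept ∧ w = input M.backward v}

end Pool.CoCF
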