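import Pool.Agent.CoCF.CMain
import Pool.Agent.CoCF.CHDef

/-!
The result on real-time automata with counters for automata with several heads.
-/

set_option autoImplicit false

namespace Pool.CoCF

variable {k m : ℕ} {X : Type}

/-- the automaton with one head which reads the moves -/
def HeadAutomaton.toCounters (M : HeadAutomaton k m X) (q : M.State) :
    Counters k (X × Fin m) where
  State := M.State
  finiteState := M.finiteState
  start := q
  step := M.step
  accept := ∅

theorem reaches_iff (M : HeadAutomaton k m X) (q : M.State) (v : List (X × Fin m))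
    (c d : M.State × (Fin k → ℕ)) : M.Reaches v c d ↔ (M.toCounters q).Reaches v c d := by
  induction v generalizing c with
  | nil => exact Iff.rfl
  | cons a v ih =>
    constructor
    · rintro ⟨e, h1, h2⟩
      exact ⟨e, h1, (ih e).1 h2⟩
    · rintro ⟨e, h1, h2⟩
      exact ⟨e, h1, (ih e).2 h2⟩

theorem part_append (u v : List (X × Fin m)) (i : Fin m) :
    part (u ++ v) i = part u i ++ part v i := by
  unfold part
  rw [List.filterMap_append]

theorem part_power (u : List (X × Fin m)) (i : Fin m) (n : ℕ) :
    part (List.replicate n u).flatten i = (List.replicate n (part u i)).flatten := by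
  induction n with
  | zero => rfl
  | succ n ih =>
    rw [List.replicate_succ, List.flatten_cons, part_append, ih, List.replicate_succ,
      List.flatten_cons]

theorem part_infix {u v : List (X × Fin m)} (h : u <:+: v) (i : Fin m) :
    part u i <:+: part v i := by
  obtain ⟨s, t, rfl⟩ := h
  exact ⟨part s i, part t i, by rw [part_append, part_append]⟩

theorem reverse_power (u : List X) (n : ℕ) :
    (List.replicate n u).flatten.reverse = (List.replicate n u.reverse).flatten := by
  rw [List.reverse_flatten, List.map_replicate, List.reverse_replicate]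

theorem input_length (f : Fin m → Bool) (v : List (X × Fin m)) :
    (input f v).length = v.length := by
  have h : (input f v).length = ∑ i : Fin m, (part v i).length := by
    unfold input
    rw [List.length_flatMap, ← List.sum_ofFn, List.ofFn_eq_map]
    congr 1
    apply List.map_congr_left
    intro i _
    split_ifs <;> simp
  rw [h]
  clear h
  induction v with
  | nil => simp [part]
  | cons a v ih =>
    have e : ∀ i, (part (a :: v) i).length = (if a.2 = i then 1 else 0) + (part v i).length := by
      intro i
      unfold part
      by_cases h : a.2 = i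
      · rw [List.filterMap_cons_some (b := a.1) (by rw [if_pos h]), if_pos h, List.length_cons]
        omega
      · rw [List.filterMap_cons_none (by rw [if_neg h]), if_neg h]
        omega
    rw [Finset.sum_congr rfl (fun i _ => e i), Finset.sum_add_distrib, ih, List.length_cons,
      Finset.sum_ite_eq Finset.univ a.2 (fun _ => 1)]
    simp
    omega

theorem input_power (f : Fin m → Bool) (v u : List (X × Fin m)) (hu : u ≠ []) (n : ℕ)
    (h : (List.replicate n u).flatten <:+: v) :
    ∃ u' : List X, u' ≠ [] ∧ (List.replicate n u').flatten <:+: input f v := by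
  obtain ⟨a, l, rfl⟩ := List.exists_cons_of_ne_nil hu
  have hne : part (a :: l) a.2 ≠ [] := by
    unfold part
    rw [List.filterMap_cons_some (b := a.1) (by rw [if_pos rfl])]
    simp
  have h1 : (List.replicate n (part (a :: l) a.2)).flatten <:+: part v a.2 := by
    rw [← part_power]
    exact part_infix h a.2
  have h2 : (if f a.2 then (part v a.2).reverse else part v a.2) <:+: input f v := by
    unfold input
    rw [List.flatMap_def]
    apply List.infix_of_mem_flatten
    exact List.mem_map.2 ⟨a.2, List.mem_finRange _, rfl⟩
  by_cases hf : f a.2 = true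
  · refine ⟨(part (a :: l) a.2).reverse, by simpa using hne, ?_⟩
    rw [← reverse_power]
    rw [if_pos hf] at h2
    exact List.IsInfix.trans (List.reverse_infix.2 h1) h2
  · refine ⟨part (a :: l) a.2, hne, ?_⟩
    rw [if_neg hf] at h2
    exact List.IsInfix.trans h1 h2

theorem power_heads (M : HeadAutomaton k m X) (r : ℕ) :
    ∃ N : ℕ, ∀ w ∈ M.language, N ≤ w.length → ∃ w' ∈ M.language, w'.length = w.length ∧
      ∃ u : List X, u ≠ [] ∧ (List.replicate r u).flatten <:+: w' := by
  by_cases hne : Nonempty M.State
  · obtain ⟨q⟩ := hne
    obtain ⟨N, h⟩ := power_path (M.toCounters q) r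
    refine ⟨N, ?_⟩
    rintro w ⟨v, c, d, hv, hR, rfl⟩ hlen
    rw [input_length] at hlen
    obtain ⟨v', h1, h2, u, h3, h4⟩ := h v c d ((reaches_iff M q v c d).1 hv) hlen
    obtain ⟨u', h5, h6⟩ := input_power M.backward v' u h3 (r + 1) h4
    refine ⟨input M.backward v', ⟨v', c, d, (reaches_iff M q v' c d).2 h1, hR, rfl⟩, ?_, u', h5,
      List.IsInfix.trans ?_ h6⟩
    · rw [input_length, input_length, h2]
    · rw [List.replicate_succ, List.flatten_cons]
      exact (List.suffix_append _ _).isInfix
  · refine ⟨0, ?_⟩
    rintro w ⟨v, c, d, _, _, _⟩ _
    exact absurd ⟨c.1⟩ hne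

end Pool.CoCF
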