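import Pool.Agent.CoCF.CDef

/-!
Equal loops in a stretch in which every counter is either large or bounded.
-/

set_option autoImplicit false

namespace Pool.CoCF

theorem lip (c : ℕ → ℕ) (a b : ℕ)
    (h : ∀ t, a ≤ t → t < b → c (t + 1) ≤ c t + 1 ∧ c t ≤ c (t + 1) + 1) (s n : ℕ) (hs : a ≤ s)
    (hn : s + n ≤ b) : c (s + n) ≤ c s + n ∧ c s ≤ c (s + n) + n := by
  induction n with
  | zero => simp
  | succ n ih =>
    have h1 := h (s + n) (by omega) (by omega)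
    have h2 := ih (by omega)
    have e : s + (n + 1) = s + n + 1 := by omega
    rw [e]
    omega

open Classical in
theorem loops (S X : Type) [Finite S] [Finite X] (k b r : ℕ) :
    ∃ P R : ℕ, ∀ (q : ℕ → S) (x : ℕ → X) (c : ℕ → Fin k → ℕ) (H : Set (Fin k)) (t0 : ℕ),
      (∀ t, t0 ≤ t → t < t0 + R → ∀ i ∈ H, c (t + 1) i ≤ c t i + 1 ∧ c t i ≤ c (t + 1) i + 1) →
      (∀ t, t0 ≤ t → t ≤ t0 + R → ∀ i, i ∉ H → c t i ≤ b) →
      ∃ L, 0 < L ∧ L ≤ P ∧ ∃ s : ℕ → ℕ, (∀ j ≤ r, t0 ≤ s j ∧ s j + L ≤ t0 + R) ∧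
        (∀ j < r, s j + L ≤ s (j + 1)) ∧ (∀ j ≤ r, ∀ o < L, x (s j + o) = x (s 0 + o)) ∧
        ∀ j ≤ r, q (s j) = q (s 0) ∧ q (s j + L) = q (s 0) ∧
          (∀ i, i ∉ H → c (s j) i = c (s 0) i ∧ c (s j + L) i = c (s 0) i) ∧
          (∀ i ∈ H, c (s j + L) i + c (s 0) i = c (s 0 + L) i + c (s j) i) := by
  haveI := Fintype.ofFinite S
  haveI := Fintype.ofFinite X
  obtain ⟨P, hP⟩ : ∃ P, P = Fintype.card (S × (Fin k → Fin (b + 1))) := ⟨_, rfl⟩
  obtain ⟨N, hN⟩ : ∃ N, N = Fintype.card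
    (Fin (P + 1) → S × X × (Fin k → Fin (b + 1)) × (Fin k → Fin (2 * P + 1))) := ⟨_, rfl⟩
  refine ⟨P, (N * r + 1) * (P + 1), ?_⟩
  intro q x c H t0 hl hlow
  have hlip : ∀ i ∈ H, ∀ s n, t0 ≤ s → s + n ≤ t0 + (N * r + 1) * (P + 1) →
      c (s + n) i ≤ c s i + n ∧ c s i ≤ c (s + n) i + n := by
    intro i hi s n hs hn
    exact lip (fun t => c t i) t0 (t0 + (N * r + 1) * (P + 1))
      (fun t h1 h2 => hl t h1 h2 i hi) s n hs hn
  let low : ℕ → Fin k → Fin (b + 1) := fun t i =>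
    if i ∈ H then 0 else ⟨min (c t i) b, by omega⟩
  let rel : ℕ → ℕ → Fin k → Fin (2 * P + 1) := fun t o i =>
    if i ∈ H then ⟨min (c (t + o) i + P - c t i) (2 * P), by omega⟩ else 0
  let data : Fin (N * r + 1) →
      (Fin (P + 1) → S × X × (Fin k → Fin (b + 1)) × (Fin k → Fin (2 * P + 1))) :=
    fun y o => (q (t0 + y * (P + 1) + o), x (t0 + y * (P + 1) + o),
      low (t0 + y * (P + 1) + o), rel (t0 + y * (P + 1)) o)
  obtain ⟨v, hv⟩ := Fintype.exists_lt_card_fiber_of_mul_lt_card (n := r) data (by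
    rw [← hN, Fintype.card_fin]
    omega)
  set F := Finset.univ.filter (fun y => data y = v) with hF
  have hFm : ∀ y ∈ F, data y = v := fun y hy => (Finset.mem_filter.1 hy).2
  let e := F.orderEmbOfFin rfl
  obtain ⟨o1, o2, ho, he1, he2⟩ : ∃ o1 o2 : Fin (P + 1), o1 < o2 ∧ (v o1).1 = (v o2).1 ∧
      (v o1).2.2.1 = (v o2).2.2.1 := by
    obtain ⟨o1, o2, hne, heq⟩ := Fintype.exists_ne_map_eq_of_card_lt
      (fun o : Fin (P + 1) => ((v o).1, (v o).2.2.1)) (by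
        rw [← hP, Fintype.card_fin]
        omega)
    simp only [Prod.mk.injEq] at heq
    rcases lt_or_gt_of_ne hne with h | h
    · exact ⟨o1, o2, h, heq.1, heq.2⟩
    · exact ⟨o2, o1, h, heq.1.symm, heq.2.symm⟩
  have ho' : o1.1 < o2.1 := ho
  have ho2 := o2.2
  -- block starts
  let y : ℕ → Fin (N * r + 1) := fun j => e ⟨min j r, by omega⟩
  have hy : ∀ j, data (y j) = v := fun j => hFm _ (Finset.orderEmbOfFin_mem _ _ _)
  have hylt : ∀ j < r, (y j).1 < (y (j + 1)).1 := by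
    intro j hj
    have : y j < y (j + 1) := by
      apply e.strictMono
      rw [Fin.lt_def]
      show min j r < min (j + 1) r
      omega
    exact this
  have hbl : ∀ j, t0 + (y j).1 * (P + 1) + (P + 1) ≤ t0 + (N * r + 1) * (P + 1) := by
    intro j
    have := (y j).2
    have h3 : ((y j).1 + 1) * (P + 1) ≤ (N * r + 1) * (P + 1) :=
      Nat.mul_le_mul_right _ this
    have h4 : ((y j).1 + 1) * (P + 1) = (y j).1 * (P + 1) + (P + 1) := by ring
    omega
  have hd : ∀ j, ∀ o : Fin (P + 1), (q (t0 + (y j).1 * (P + 1) + o), x (t0 + (y j).1 * (P + 1) + o),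
      low (t0 + (y j).1 * (P + 1) + o), rel (t0 + (y j).1 * (P + 1)) o) = v o := by
    intro j o
    exact congrFun (hy j) o
  have hq : ∀ j, ∀ o : Fin (P + 1), q (t0 + (y j).1 * (P + 1) + o) = (v o).1 := by
    intro j o
    rw [← hd j o]
  have hx : ∀ j, ∀ o : Fin (P + 1), x (t0 + (y j).1 * (P + 1) + o) = (v o).2.1 := by
    intro j o
    rw [← hd j o]
  have hlo : ∀ j, ∀ o : Fin (P + 1), ∀ i, i ∉ H →
      c (t0 + (y j).1 * (P + 1) + o) i = ((v o).2.2.1 i).1 := by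
    intro j o i hi
    have h1 : low (t0 + (y j).1 * (P + 1) + o) = (v o).2.2.1 := by rw [← hd j o]
    rw [← h1]
    simp only [low, if_neg hi]
    have h2 := hbl j
    have h3 := o.2
    have := hlow (t0 + (y j).1 * (P + 1) + o) (by omega) (by omega) i hi
    omega
  have hre : ∀ j, ∀ o : Fin (P + 1), ∀ i ∈ H,
      c (t0 + (y j).1 * (P + 1) + o) i + P =
        c (t0 + (y j).1 * (P + 1)) i + ((v o).2.2.2 i).1 := by
    intro j o i hi
    have h1 : rel (t0 + (y j).1 * (P + 1)) o = (v o).2.2.2 := by rw [← hd j o]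
    rw [← h1]
    simp only [rel, if_pos hi]
    have h2 := hbl j
    have h3 := o.2
    have h4 := hlip i hi (t0 + (y j).1 * (P + 1)) o (by omega) (by omega)
    omega
  refine ⟨o2.1 - o1.1, by omega, by omega, fun j => t0 + (y j).1 * (P + 1) + o1.1, ?_, ?_, ?_, ?_⟩
  · intro j _
    have := hbl j
    show t0 ≤ t0 + (y j).1 * (P + 1) + o1.1 ∧
      t0 + (y j).1 * (P + 1) + o1.1 + (o2.1 - o1.1) ≤ t0 + (N * r + 1) * (P + 1)
    constructor <;> omega
  · intro j hj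
    have h1 := hylt j hj
    have h3 : ((y j).1 + 1) * (P + 1) ≤ (y (j + 1)).1 * (P + 1) :=
      Nat.mul_le_mul_right _ h1
    have h4 : ((y j).1 + 1) * (P + 1) = (y j).1 * (P + 1) + (P + 1) := by ring
    show t0 + (y j).1 * (P + 1) + o1.1 + (o2.1 - o1.1) ≤
      t0 + (y (j + 1)).1 * (P + 1) + o1.1
    omega
  · intro j _ o hoo
    have e1 := hx j ⟨o1.1 + o, by omega⟩
    have e2 := hx 0 ⟨o1.1 + o, by omega⟩
    simp only [← Nat.add_assoc] at e1 e2
    show x (t0 + (y j).1 * (P + 1) + o1.1 + o) = x (t0 + (y 0).1 * (P + 1) + o1.1 + o)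
    rw [e1, e2]
  · intro j _
    have ee : ∀ j, t0 + (y j).1 * (P + 1) + o1.1 + (o2.1 - o1.1) =
        t0 + (y j).1 * (P + 1) + o2.1 := by
      intro j
      omega
    simp only [ee]
    refine ⟨by rw [hq j o1, hq 0 o1], by rw [hq j o2, hq 0 o1, he1], ?_, ?_⟩
    · intro i hi
      rw [hlo j o1 i hi, hlo j o2 i hi, hlo 0 o1 i hi, he2]
      exact ⟨rfl, rfl⟩
    · intro i hi
      have a1 := hre j o1 i hi
      have a2 := hre j o2 i hi
      have a3 := hre 0 o1 i hi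
      have a4 := hre 0 o2 i hi
      omega

end Pool.CoCF
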