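import Pool.Agent.CoCF.CDef

/-!
Runs on which some counters stay large can be shifted.
-/

set_option autoImplicit false

namespace Pool.CoCF

variable {k : ℕ} {X : Type}

/-- a run on which all counters in `H` are at least `m` all the time -/
def Counters.Path (M : Counters k X) (H : Set (Fin k)) (m : ℕ) :
    List X → M.State × (Fin k → ℕ) → M.State × (Fin k → ℕ) → Prop
  | [], c, d => c = d ∧ ∀ i ∈ H, m ≤ c.2 i
  | x :: w, c, d => (∀ i ∈ H, m ≤ c.2 i) ∧ ∃ e, M.Move c x e ∧ M.Path H m w e d

theorem Path.reaches {M : Counters k X} {H : Set (Fin k)} {m : ℕ} {w : List X}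
    {c d : M.State × (Fin k → ℕ)} (h : M.Path H m w c d) : M.Reaches w c d := by
  induction w generalizing c with
  | nil => exact h.1
  | cons x w ih =>
    obtain ⟨_, e, h1, h2⟩ := h
    exact ⟨e, h1, ih h2⟩

theorem Path.high {M : Counters k X} {H : Set (Fin k)} {m : ℕ} {w : List X}
    {c d : M.State × (Fin k → ℕ)} (h : M.Path H m w c d) : ∀ i ∈ H, m ≤ c.2 i := by
  cases w with
  | nil => exact h.2
  | cons x w => exact h.1

theorem Path.mono {M : Counters k X} {H : Set (Fin k)} {m m' : ℕ} (hm : m' ≤ m) {w : List X}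
    {c d : M.State × (Fin k → ℕ)} (h : M.Path H m w c d) : M.Path H m' w c d := by
  induction w generalizing c with
  | nil => exact ⟨h.1, fun i hi => hm.trans (h.2 i hi)⟩
  | cons x w ih =>
    obtain ⟨h0, e, h1, h2⟩ := h
    exact ⟨fun i hi => hm.trans (h0 i hi), e, h1, ih h2⟩

theorem Path.append {M : Counters k X} {H : Set (Fin k)} {m : ℕ} {v w : List X}
    {c d e : M.State × (Fin k → ℕ)} (h : M.Path H m v c d) (h' : M.Path H m w d e) :
    M.Path H m (v ++ w) c e := by
  induction v generalizing c with
  | nil =>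
    obtain ⟨rfl, _⟩ := h
    exact h'
  | cons x v ih =>
    obtain ⟨h0, g, h1, h2⟩ := h
    exact ⟨h0, g, h1, ih h2⟩

theorem Reaches.append {M : Counters k X} {v w : List X}
    {c d e : M.State × (Fin k → ℕ)} (h : M.Reaches v c d) (h' : M.Reaches w d e) :
    M.Reaches (v ++ w) c e := by
  induction v generalizing c with
  | nil =>
    have h0 : c = d := h
    subst h0
    exact h'
  | cons x v ih =>
    obtain ⟨g, h1, h2⟩ := h
    exact ⟨g, h1, ih h2⟩

/-- the configurations `c`, `c'` have the same state and the counters of `c'` are shifted by `δ` -/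
def Rel {S : Type} (δ : Fin k → ℤ) (c c' : S × (Fin k → ℕ)) : Prop :=
  c'.1 = c.1 ∧ ∀ i, (c'.2 i : ℤ) = c.2 i + δ i

theorem Rel.unique {S : Type} {δ : Fin k → ℤ} {c c' c'' : S × (Fin k → ℕ)} (h : Rel δ c c')
    (h' : Rel δ c c'') : c' = c'' := by
  refine Prod.ext (h.1.trans h'.1.symm) (funext fun i => ?_)
  have h1 := h.2 i
  have h2 := h'.2 i
  omega

theorem Path.shift {M : Counters k X} {H : Set (Fin k)} {m D : ℕ} (hD : D < m) {w : List X}
    {c d : M.State × (Fin k → ℕ)} (h : M.Path H m w c d) (δ : Fin k → ℤ)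
    (h0 : ∀ i, i ∉ H → δ i = 0) (h1 : ∀ i, -(D : ℤ) ≤ δ i ∧ δ i ≤ D)
    {c' : M.State × (Fin k → ℕ)} (hc : Rel δ c c') :
    ∃ d', Rel δ d d' ∧ M.Path H (m - D) w c' d' := by
  induction w generalizing c c' with
  | nil =>
    obtain ⟨rfl, h2⟩ := h
    refine ⟨c', hc, rfl, ?_⟩
    intro i hi
    have h3 := h2 i hi
    have h4 := hc.2 i
    have h5 := h1 i
    omega
  | cons x w ih =>
    obtain ⟨h2, e, ⟨a, ha, hb⟩, hp⟩ := h
    have h6 := Path.high hp
    -- the shifted configuration after the step
    have hz : {i | c'.2 i = 0} = {i | c.2 i = 0} := by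
      ext i
      have h4 := hc.2 i
      simp only [Set.mem_ofPred_eq]
      by_cases hi : i ∈ H
      · have h3 := h2 i hi
        have h5 := h1 i
        omega
      · have := h0 i hi
        omega
    have hr : Rel δ e (e.1, fun i => (a i).apply (c'.2 i)) := by
      refine ⟨rfl, fun i => ?_⟩
      have h4 := hc.2 i
      have h7 := hb i
      show (((a i).apply (c'.2 i) : ℕ) : ℤ) = e.2 i + δ i
      by_cases hi : i ∈ H
      · have h3 := h2 i hi
        have h5 := h1 i
        have h8 := h6 i hi
        cases hai : a i with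
        | reset =>
          rw [hai] at h7
          simp only [Act.apply] at h7
          omega
        | down =>
          rw [hai] at h7
          simp only [Act.apply] at h7 ⊢
          omega
        | keep =>
          rw [hai] at h7
          simp only [Act.apply] at h7 ⊢
          omega
        | up =>
          rw [hai] at h7
          simp only [Act.apply] at h7 ⊢
          omega
      · have h9 := h0 i hi
        have h10 : c'.2 i = c.2 i := by omega
        rw [h10, h9, h7]
        simp
    obtain ⟨d', hd, hp'⟩ := ih hp hr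
    refine ⟨d', hd, ?_, (e.1, fun i => (a i).apply (c'.2 i)), ⟨a, ?_, fun i => rfl⟩, hp'⟩
    · intro i hi
      have h3 := h2 i hi
      have h4 := hc.2 i
      have h5 := h1 i
      omega
    · rw [hz, hc.1]
      exact ha

/-- a run as a sequence of configurations -/
theorem Reaches.seq {M : Counters k X} {w : List X} {c d : M.State × (Fin k → ℕ)}
    (h : M.Reaches w c d) : ∃ f : ℕ → M.State × (Fin k → ℕ), f 0 = c ∧ f w.length = d ∧
      (∀ t (ht : t < w.length), M.Move (f t) w[t] (f (t + 1))) ∧
      ∀ t, w.length ≤ t → f t = d := by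
  induction w generalizing c with
  | nil =>
    have h0 : c = d := h
    subst h0
    exact ⟨fun _ => c, rfl, rfl, fun t ht => absurd ht (Nat.not_lt_zero t), fun _ _ => rfl⟩
  | cons x w ih =>
    obtain ⟨e, h1, h2⟩ := h
    obtain ⟨f, f0, f1, f2, f3⟩ := ih h2
    refine ⟨fun t => Nat.casesOn t c f, rfl, f1, ?_, ?_⟩
    · intro t ht
      cases t with
      | zero =>
        show M.Move c x (f 0)
        rw [f0]
        exact h1
      | succ t =>
        exact f2 t (by simpa using ht)
    · intro t ht
      cases t with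
      | zero => simp at ht
      | succ t => exact f3 t (by simpa using ht)

theorem Path.seg {M : Counters k X} {H : Set (Fin k)} {m : ℕ} {w : List X}
    {f : ℕ → M.State × (Fin k → ℕ)} (hf : ∀ t (ht : t < w.length), M.Move (f t) w[t] (f (t + 1)))
    (L s : ℕ) (hs : s + L ≤ w.length)
    (hh : ∀ t, s ≤ t → t ≤ s + L → ∀ i ∈ H, m ≤ (f t).2 i) :
    M.Path H m ((w.drop s).take L) (f s) (f (s + L)) := by
  induction L generalizing s with
  | zero =>
    rw [List.take_zero]
    exact ⟨rfl, hh s (le_refl _) (by omega)⟩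
  | succ L ih =>
    have hs' : s < w.length := by omega
    rw [List.drop_eq_getElem_cons hs', List.take_succ_cons]
    refine ⟨hh s (le_refl _) (by omega), f (s + 1), hf s hs', ?_⟩
    have := ih (s + 1) (by omega) (fun t h1 h2 => hh t (by omega) (by omega))
    have e : s + (L + 1) = s + 1 + L := by omega
    rw [e]
    exact this

end Pool.CoCF
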