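import Pool.Agent.CoCF.CStretch
import Pool.Agent.CoCF.CPath
import Pool.Agent.CoCF.CLoops

/-!
Long words accepted by a real-time automaton with counters can be rearranged to contain powers.
-/

set_option autoImplicit false

namespace Pool.CoCF

variable {k : ℕ} {X : Type}

theorem Move.le {M : Counters k X} {c d : M.State × (Fin k → ℕ)} {x : X} (h : M.Move c x d)
    (i : Fin k) : d.2 i ≤ c.2 i + 1 := by
  obtain ⟨a, _, h2⟩ := h
  rw [h2 i]
  cases a i <;> simp only [Act.apply] <;> omega

theorem Move.ge {M : Counters k X} {c d : M.State × (Fin k → ℕ)} {x : X} (h : M.Move c x d)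
    (i : Fin k) (hi : 0 < d.2 i) : c.2 i ≤ d.2 i + 1 := by
  obtain ⟨a, _, h2⟩ := h
  rw [h2 i] at hi ⊢
  cases ha : a i <;> rw [ha] at hi <;> simp only [Act.apply] at hi ⊢ <;> omega

theorem power_path (M : Counters k X) (r : ℕ) :
    ∃ N : ℕ, ∀ (w : List X) (c₀ d : M.State × (Fin k → ℕ)), M.Reaches w c₀ d → N ≤ w.length →
      ∃ w', M.Reaches w' c₀ d ∧ w'.length = w.length ∧
        ∃ u : List X, u ≠ [] ∧ (List.replicate (r + 1) u).flatten <:+: w' := by
  have := M.finiteState
  choose P R hloops using fun b => loops M.State Unit k b r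
  obtain ⟨l, β, hst⟩ := stretch k k (fun b => R b + (r + 2) * P b + 1)
  refine ⟨l, ?_⟩
  intro w c₀ d hw hlen
  obtain ⟨f, f0, f1, f2, f3⟩ := Reaches.seq hw
  have hgr : ∀ t i, (f (t + 1)).2 i ≤ (f t).2 i + 1 := by
    intro t i
    rcases Nat.lt_or_ge t w.length with h | h
    · exact Move.le (f2 t h) i
    · rw [f3 t h, f3 (t + 1) (by omega)]
      omega
  obtain ⟨b, _, t0, H, _, ht0, hH⟩ := hst Finset.univ (by simp) (fun t => (f t).2)
    (fun t i _ => hgr t i)
  have hhigh : ∀ t, t0 ≤ t → t ≤ t0 + (R b + (r + 2) * P b + 1) → ∀ i ∈ (H : Set (Fin k)),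
      R b + (r + 2) * P b + 1 ≤ (f t).2 i := fun t h1 h2 i hi => (hH t h1 h2).1 i hi
  have hlip : ∀ t, t0 ≤ t → t < t0 + R b → ∀ i ∈ (H : Set (Fin k)),
      (f (t + 1)).2 i ≤ (f t).2 i + 1 ∧ (f t).2 i ≤ (f (t + 1)).2 i + 1 := by
    intro t h1 h2 i hi
    have h3 := hhigh (t + 1) (by omega) (by omega) i hi
    exact ⟨hgr t i, Move.ge (f2 t (by omega)) i (by omega)⟩
  obtain ⟨L, hL, hLP, s, hs1, hs2, _, hs4⟩ := hloops b (fun t => (f t).1) (fun _ => ())
    (fun t => (f t).2) (H : Set (Fin k)) t0 hlip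
    (fun t h1 h2 i hi => (hH t h1 (by omega)).2 i (Finset.mem_univ i) hi)
  obtain ⟨δ, hδ⟩ : ∃ δ : Fin k → ℤ, ∀ i, δ i = ((f (s 0 + L)).2 i : ℤ) - (f (s 0)).2 i :=
    ⟨fun i => ((f (s 0 + L)).2 i : ℤ) - (f (s 0)).2 i, fun i => rfl⟩
  have hδ0 : ∀ i, i ∉ (H : Set (Fin k)) → δ i = 0 := by
    intro i hi
    have h1 := ((hs4 0 (Nat.zero_le r)).2.2.1 i hi).2
    rw [hδ, h1]
    simp
  have hδ1 : ∀ i, -(P b : ℤ) ≤ δ i ∧ δ i ≤ P b := by
    intro i
    by_cases hi : i ∈ (H : Set (Fin k))
    · have h1 := hs1 0 (Nat.zero_le r)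
      have h2 := lip (fun t => (f t).2 i) t0 (t0 + R b) (fun t a1 a2 => hlip t a1 a2 i hi) (s 0) L
        h1.1 h1.2
      rw [hδ]
      omega
    · rw [hδ0 i hi]
      omega
  have hrel : ∀ j ≤ r, Rel δ (f (s j)) (f (s j + L)) := by
    intro j hj
    obtain ⟨h1, h2, h3, h4⟩ := hs4 j hj
    refine ⟨h2.trans h1.symm, fun i => ?_⟩
    by_cases hi : i ∈ (H : Set (Fin k))
    · have h5 := h4 i hi
      have h6 := hδ i
      omega
    · have h5 := h3 i hi
      have h6 := hδ0 i hi
      omega
  obtain ⟨m, hm⟩ : ∃ m, m = R b + (r + 2) * P b + 1 := ⟨_, rfl⟩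
  rw [← hm] at hhigh ht0
  obtain ⟨u, hu⟩ : ∃ u, u = (w.drop (s 0)).take L := ⟨_, rfl⟩
  have hsin : ∀ j ≤ r, t0 ≤ s j ∧ s j + L ≤ t0 + m := by
    intro j hj
    have := hs1 j hj
    omega
  have hulen : u.length = L := by
    have := hsin 0 (Nat.zero_le r)
    rw [hu, List.length_take, List.length_drop]
    omega
  have hmj : ∀ j ≤ r, P b < m - j * P b ∧ (j + 1) * P b < m := by
    intro j hj
    have h1 : (j + 1) * P b ≤ (r + 1) * P b := Nat.mul_le_mul_right _ (by omega)
    have h2 : (r + 2) * P b = (r + 1) * P b + P b := by ring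
    have h3 : (j + 1) * P b = j * P b + P b := by ring
    omega
  have hp0 : M.Path H m u (f (s 0)) (f (s 0 + L)) := by
    rw [hu]
    have := hsin 0 (Nat.zero_le r)
    exact Path.seg f2 L (s 0) (by omega) (fun t h1 h2 => hhigh t (by omega) (by omega))
  have key : ∀ j ≤ r, ∃ (δj : Fin k → ℤ) (c : M.State × (Fin k → ℕ)) (v : List X),
      (∀ i, i ∉ (H : Set (Fin k)) → δj i = 0) ∧
      (∀ i, -((j * P b : ℕ) : ℤ) ≤ δj i ∧ δj i ≤ ((j * P b : ℕ) : ℤ)) ∧
      Rel δj (f (s 0 + L)) c ∧
      M.Path H (m - j * P b) (List.replicate (j + 1) u).flatten (f (s 0)) c ∧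
      M.Path H (m - j * P b) v c (f (s j + L)) ∧ v.length + j * L + s 0 = s j := by
    intro j
    induction j with
    | zero =>
      intro _
      have h1 := hsin 0 (Nat.zero_le r)
      refine ⟨fun _ => 0, f (s 0 + L), [], fun _ _ => rfl, by simp, ⟨rfl, by simp⟩, ?_, ?_, by simp⟩
      · simpa using hp0
      · refine ⟨rfl, ?_⟩
        intro i hi
        have := hhigh (s 0 + L) (by omega) (by omega) i hi
        omega
    | succ j ih =>
      intro hj
      obtain ⟨δj, c, v, g1, g2, g3, g4, g5, g6⟩ := ih (by omega)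
      have hmj0 := hmj j (by omega)
      have hmj1 := hmj (j + 1) hj
      have e1 : (j + 1) * P b = j * P b + P b := by ring
      have hsj := hsin j (by omega)
      have hsj1 := hsin (j + 1) hj
      have hgap := hs2 j (by omega)
      -- one more loop at the front
      have hrc : Rel (fun i => δj i + δ i) (f (s 0)) c := by
        refine ⟨g3.1.trans (hrel 0 (Nat.zero_le r)).1, fun i => ?_⟩
        have a1 := g3.2 i
        have a2 := (hrel 0 (Nat.zero_le r)).2 i
        show (c.2 i : ℤ) = (f (s 0)).2 i + (δj i + δ i)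
        omega
      obtain ⟨c', hc', hpc⟩ := Path.shift (D := (j + 1) * P b) (by omega) hp0
        (fun i => δj i + δ i) (fun i hi => by
          show δj i + δ i = 0
          rw [g1 i hi, hδ0 i hi]; rfl) (fun i => by
          have a1 := g2 i
          have a2 := hδ1 i
          show -(((j + 1) * P b : ℕ) : ℤ) ≤ δj i + δ i ∧ δj i + δ i ≤ (((j + 1) * P b : ℕ) : ℤ)
          rw [e1]
          push_cast at a1 ⊢
          omega) hrc
      have hcc' : Rel δ c c' := by
        refine ⟨?_, fun i => ?_⟩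
        · rw [hc'.1, g3.1]
        · have a1 := hc'.2 i
          have a2 := g3.2 i
          simp only at a1
          omega
      -- the word between two loops
      have hβ : M.Path H (m - j * P b) ((w.drop (s j + L)).take (s (j + 1) - (s j + L)))
          (f (s j + L)) (f (s (j + 1))) := by
        have a1 : M.Path H m ((w.drop (s j + L)).take (s (j + 1) - (s j + L)))
          (f (s j + L)) (f (s j + L + (s (j + 1) - (s j + L)))) :=
          Path.seg f2 _ _ (by omega) (fun t h1 h2 => hhigh t (by omega) (by omega))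
        have a2 : s j + L + (s (j + 1) - (s j + L)) = s (j + 1) := by omega
        rw [a2] at a1
        exact Path.mono (by omega) a1
      obtain ⟨e', he', hpe⟩ := Path.shift (D := P b) (by omega) (Path.append g5 hβ) δ hδ0 hδ1 hcc'
      have hee : e' = f (s (j + 1) + L) := Rel.unique he' (hrel (j + 1) hj)
      subst hee
      refine ⟨fun i => δj i + δ i, c', v ++ (w.drop (s j + L)).take (s (j + 1) - (s j + L)),
        ?_, ?_, ?_, ?_, ?_, ?_⟩
      · intro i hi
        show δj i + δ i = 0
        rw [g1 i hi, hδ0 i hi]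
        rfl
      · intro i
        have a1 := g2 i
        have a2 := hδ1 i
        show -(((j + 1) * P b : ℕ) : ℤ) ≤ δj i + δ i ∧ δj i + δ i ≤ (((j + 1) * P b : ℕ) : ℤ)
        rw [e1]
        push_cast at a1 ⊢
        omega
      · exact hc'
      · have e2 : (List.replicate (j + 1 + 1) u).flatten =
            (List.replicate (j + 1) u).flatten ++ u := by
          rw [List.replicate_succ']
          simp
        rw [e2]
        exact Path.append (Path.mono (by omega) g4) (Path.mono (by omega) hpc)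
      · exact Path.mono (by omega) hpe
      · rw [List.length_append, List.length_take, List.length_drop]
        have e3 : (j + 1) * L = j * L + L := by ring
        omega
  obtain ⟨δr, c, v, _, _, _, g4, g5, g6⟩ := key r (le_refl r)
  have hsr := hsin r (le_refl r)
  have hs0 := hsin 0 (Nat.zero_le r)
  refine ⟨w.take (s 0) ++ ((List.replicate (r + 1) u).flatten ++
    (v ++ w.drop (s r + L))), ?_, ?_, u, ?_, ?_⟩
  · have p1 : M.Path ∅ 0 ((w.drop 0).take (s 0)) (f 0) (f (0 + s 0)) :=
      Path.seg f2 _ _ (by omega) (by simp)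
    rw [List.drop_zero, Nat.zero_add, f0] at p1
    have p2 : M.Path ∅ 0 ((w.drop (s r + L)).take (w.length - (s r + L)))
      (f (s r + L)) (f (s r + L + (w.length - (s r + L)))) := Path.seg f2 _ _ (by omega) (by simp)
    have e4 : s r + L + (w.length - (s r + L)) = w.length := by omega
    rw [e4, f1, List.take_of_length_le (by rw [List.length_drop])] at p2
    exact Reaches.append (Path.reaches p1) (Reaches.append (Path.reaches g4)
      (Reaches.append (Path.reaches g5) (Path.reaches p2)))
  · have e5 : (List.replicate (r + 1) u).flatten.length = (r + 1) * L := by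
      simp [hulen]
    have e6 : (r + 1) * L = r * L + L := by ring
    rw [List.length_append, List.length_append, List.length_append, e5, List.length_take,
      List.length_drop]
    omega
  · intro h
    rw [h] at hulen
    simp at hulen
    omega
  · exact ⟨w.take (s 0), v ++ w.drop (s r + L), by simp⟩

theorem power_word (M : Counters k X) (r : ℕ) :
    ∃ N : ℕ, ∀ w ∈ M.language, N ≤ w.length → ∃ w' ∈ M.language, w'.length = w.length ∧
      ∃ u : List X, u ≠ [] ∧ (List.replicate (r + 1) u).flatten <:+: w' := by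
  obtain ⟨N, h⟩ := power_path M r
  refine ⟨N, ?_⟩
  rintro w ⟨d, hw, hacc⟩ hlen
  obtain ⟨w', h1, h2, h3⟩ := h w _ d hw hlen
  exact ⟨w', ⟨d, h1, hacc⟩, h2, h3⟩

end Pool.CoCF
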