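import Pool.Agent.CoCF.CDef

/-!
In a long sequence of counter values there is a long stretch in which every counter is either large
or bounded.
-/

set_option autoImplicit false

namespace Pool.CoCF

theorem growth (c : ℕ → ℕ) (h : ∀ t, c (t + 1) ≤ c t + 1) (s n : ℕ) : c (s + n) ≤ c s + n := by
  induction n with
  | zero => simp
  | succ n ih =>
    have := h (s + n)
    have e : s + (n + 1) = s + n + 1 := by omega
    rw [e]
    omega

theorem stretch (k m : ℕ) : ∀ C : ℕ → ℕ, ∃ l β : ℕ, ∀ J : Finset (Fin k), J.card = m →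
    ∀ c : ℕ → Fin k → ℕ, (∀ t, ∀ i ∈ J, c (t + 1) i ≤ c t i + 1) →
    ∃ b ≤ β, ∃ t0 : ℕ, ∃ H ⊆ J, t0 + C b ≤ l ∧ ∀ t, t0 ≤ t → t ≤ t0 + C b →
      (∀ i ∈ H, C b ≤ c t i) ∧ ∀ i ∈ J, i ∉ H → c t i ≤ b := by
  induction m with
  | zero =>
    intro C
    refine ⟨C 0, 0, ?_⟩
    intro J hJ c _
    rw [Finset.card_eq_zero] at hJ
    subst hJ
    exact ⟨0, le_refl _, 0, ∅, Finset.empty_subset _, by omega, by simp⟩
  | succ m ih =>
    intro C
    obtain ⟨l, β, h⟩ := ih C
    set Cs := (Finset.range (β + 1)).sup C with hCs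
    have hC : ∀ b ≤ β, C b ≤ Cs := by
      intro b hb
      exact Finset.le_sup (f := C) (Finset.mem_range.2 (by omega))
    refine ⟨l + C (Cs + l), max β (Cs + l), ?_⟩
    intro J hJ c hc
    by_cases hh : ∃ i ∈ J, ∃ t ≤ C (Cs + l), ∀ s, t ≤ s → s ≤ t + l → Cs ≤ c s i
    · obtain ⟨i, hi, t, ht, hs⟩ := hh
      obtain ⟨b, hb, t0, H, hH, h1, h2⟩ := h (J.erase i) (by
        rw [Finset.card_erase_of_mem hi, hJ]; omega) (fun s => c (t + s)) (by
        intro s j hj
        exact hc (t + s) j (Finset.mem_of_mem_erase hj))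
      refine ⟨b, by omega, t + t0, insert i H, ?_, by omega, ?_⟩
      · intro j hj
        rcases Finset.mem_insert.1 hj with rfl | hj
        · exact hi
        · exact Finset.mem_of_mem_erase (hH hj)
      · intro s hs1 hs2
        obtain ⟨h3, h4⟩ := h2 (s - t) (by omega) (by omega)
        have e : t + (s - t) = s := by omega
        simp only [e] at h3 h4
        constructor
        · intro j hj
          rcases Finset.mem_insert.1 hj with rfl | hj
          · exact (hC b hb).trans (hs s (by omega) (by omega))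
          · exact h3 j hj
        · intro j hj hj2
          rw [Finset.mem_insert, not_or] at hj2
          exact h4 j (Finset.mem_erase.2 ⟨hj2.1, hj⟩) hj2.2
    · push Not at hh
      refine ⟨Cs + l, by omega, l, ∅, Finset.empty_subset _, le_refl _, ?_⟩
      intro t ht1 ht2
      constructor
      · intro i hi
        simp at hi
      · intro i hi _
        obtain ⟨s, hs1, hs2, hs3⟩ := hh i hi (t - l) (by omega)
        have h5 := growth (fun t => c t i) (fun t => hc t i hi) s (t - s)
        have e : s + (t - s) = t := by omega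
        simp only [e] at h5
        omega

end Pool.CoCF
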