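import Pool.Agent.CoCF.Code

/-!
Codes given by numbers in base four, and the finite check for short squares.
-/

set_option autoImplicit false

namespace Pool.CoCF

/-- digit `y` of `N` in base four -/
def dg (N y : ℕ) : ℕ := N / 4 ^ y % 4

theorem dg_lo (a R r y : ℕ) (hy : y < r) : dg (a + 4 ^ r * R) y = dg a y := by
  unfold dg
  obtain ⟨k, rfl⟩ : ∃ k, r = y + (k + 1) := ⟨r - y - 1, by omega⟩
  have e : a + 4 ^ (y + (k + 1)) * R = a + 4 ^ y * (4 * (4 ^ k * R)) := by ring
  rw [e, Nat.add_mul_div_left _ _ (by positivity), Nat.add_mul_mod_self_left]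

theorem dg_hi (a R r y : ℕ) (ha : a < 4 ^ r) (hy : r ≤ y) : dg (a + 4 ^ r * R) y = dg R (y - r) := by
  unfold dg
  obtain ⟨k, rfl⟩ : ∃ k, y = r + k := ⟨y - r, by omega⟩
  rw [pow_add, ← Nat.div_div_eq_div_mul, Nat.add_mul_div_left _ _ (by positivity),
    Nat.div_eq_of_lt ha, zero_add, Nat.add_sub_cancel_left]

/-- no square of half length `m` starts at a position below `k` -/
def chkP (N m : ℕ) : ℕ → Bool
  | 0 => true
  | k + 1 => !(Nat.beq (N / 4 ^ k % 4 ^ m) (N / 4 ^ (k + m) % 4 ^ m)) && chkP N m k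

/-- no square of half length between `1` and `M` in the first `len` digits -/
def chkM (N len : ℕ) : ℕ → Bool
  | 0 => true
  | M + 1 => chkP N (M + 1) (len + 1 - 2 * (M + 1)) && chkM N len M

theorem eq_of_digits (K K' m : ℕ) (h : ∀ x, x < m → K / 4 ^ x % 4 = K' / 4 ^ x % 4) :
    K % 4 ^ m = K' % 4 ^ m := by
  induction m with
  | zero => simp [Nat.mod_one]
  | succ m ih =>
    rw [Nat.mod_pow_succ, Nat.mod_pow_succ, ih (fun x hx => h x (by omega)), h m (by omega)]

theorem chkP_sound (N m k : ℕ) (h : chkP N m k = true) (p : ℕ) (hp : p < k) :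
    ∃ x, x < m ∧ dg N (p + x) ≠ dg N (p + m + x) := by
  induction k with
  | zero => omega
  | succ k ih =>
    rw [chkP, Bool.and_eq_true] at h
    rcases Nat.lt_or_ge p k with h1 | h1
    · exact ih h.2 h1
    · have hpk : p = k := by omega
      subst hpk
      by_contra hcon
      push Not at hcon
      have h2 : N / 4 ^ p % 4 ^ m = N / 4 ^ (p + m) % 4 ^ m := by
        apply eq_of_digits
        intro x hx
        have h3 := hcon x hx
        unfold dg at h3
        rw [Nat.div_div_eq_div_mul, Nat.div_div_eq_div_mul, ← pow_add, ← pow_add]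
        exact h3
      have h4 := h.1
      rw [h2] at h4
      simp at h4

theorem chkM_sound (N len M : ℕ) (h : chkM N len M = true) (p m : ℕ) (hm : 0 < m) (hM : m ≤ M)
    (hp : p + 2 * m ≤ len) : ∃ x, x < m ∧ dg N (p + x) ≠ dg N (p + m + x) := by
  induction M with
  | zero => omega
  | succ M ih =>
    rw [chkM, Bool.and_eq_true] at h
    rcases Nat.lt_or_ge m (M + 1) with h1 | h1
    · exact ih h.2 (by omega)
    · have hmM : m = M + 1 := by omega
      subst hmM
      exact chkP_sound N (M + 1) _ h.1 p (by omega)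

/-- the number coding the concatenation of blocks of length `r` -/
def num {A : Type} (cN : A → ℕ) (r : ℕ) : List A → ℕ
  | [] => 0
  | a :: l => cN a + 4 ^ r * num cN r l

theorem dg_num {A : Type} (cN : A → ℕ) (r : ℕ) (hr : 0 < r) (hc : ∀ a, cN a < 4 ^ r) (a0 : A)
    (l : List A) (y : ℕ) (hy : y < r * l.length) :
    dg (num cN r l) y = dg (cN (l.getD (y / r) a0)) (y % r) := by
  induction l generalizing y with
  | nil => simp at hy
  | cons a l ih =>
    rw [num]
    rcases Nat.lt_or_ge y r with h | h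
    · rw [dg_lo _ _ _ _ h, Nat.div_eq_of_lt h, Nat.mod_eq_of_lt h, List.getD_cons_zero]
    · obtain ⟨z, rfl⟩ : ∃ z, y = r + z := ⟨y - r, by omega⟩
      rw [dg_hi _ _ _ _ (hc a) h, Nat.add_sub_cancel_left, ih z, Nat.add_mod_left]
      · have e : (r + z) / r = z / r + 1 := by
          rw [Nat.add_comm, Nat.add_div_right _ hr]
        rw [e, List.getD_cons_succ]
      · rw [List.length_cons, Nat.mul_add, Nat.mul_one] at hy
        omega

theorem small_of {A B : Type} (cN : A → ℕ) (π : A → B) (a0 : A) (r T L : ℕ) (hr : 0 < r)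
    (hc : ∀ a, cN a < 4 ^ r) (hL : r - 1 + 2 * (T - 1) ≤ r * L)
    (hchk : ∀ l : List A, l.length = L → SF (fun i => π (l.getD i a0)) L →
      chkM (num cN r l) (r * L) (T - 1) = true)
    (b : ℕ → A) (n : ℕ) (hn : L ≤ n) (hb : SF (fun i => π (b i)) n) (p m : ℕ) (hm : 0 < m)
    (hmT : m < T) (hp : p + 2 * m ≤ r * n)
    (he : ∀ x, x < m → Ph r (fun a x => dg (cN a) x) b (p + x) =
      Ph r (fun a x => dg (cN a) x) b (p + m + x)) : False := by
  obtain ⟨q, hq1, hq2, hq3⟩ : ∃ q, q + L ≤ n ∧ r * q ≤ p ∧ p - r * q + 2 * m ≤ r * L := by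
    rcases Nat.lt_or_ge (n - L) (p / r) with h | h
    · have h1 : r * (n - L) ≤ r * (p / r) := Nat.mul_le_mul_left r (by omega)
      have h2 : r * (p / r) ≤ p := Nat.mul_div_le p r
      have h3 : r * (n - L) + r * L = r * n := by
        rw [← Nat.mul_add]; congr 1; omega
      exact ⟨n - L, by omega, by omega, by omega⟩
    · have h2 : r * (p / r) + p % r = p := Nat.div_add_mod p r
      have h4 : p % r < r := Nat.mod_lt _ hr
      exact ⟨p / r, by omega, by omega, by omega⟩
  have hlen : ((List.range L).map (fun i => b (q + i))).length = L := by simp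
  have hget : ∀ i, i < L → ((List.range L).map (fun i => b (q + i))).getD i a0 = b (q + i) := by
    intro i hi
    rw [List.getD_eq_getElem _ _ (by simpa using hi)]
    simp
  have h5 : SF (fun i => π (((List.range L).map (fun i => b (q + i))).getD i a0)) L := by
    refine (hb.sub hq1).congr ?_
    intro i hi
    simp only [hget i hi]
  have h6 := hchk _ hlen h5
  obtain ⟨x, hx, hne⟩ := chkM_sound _ _ _ h6 (p - r * q) m hm (by omega) hq3
  apply hne
  have h7 := he x hx
  have cv : ∀ z, z < r * L → dg (num cN r ((List.range L).map (fun i => b (q + i)))) z =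
      Ph r (fun a x => dg (cN a) x) b (r * q + z) := by
    intro z hz
    have h8 : z / r < L := Nat.div_lt_of_lt_mul hz
    rw [dg_num cN r hr hc a0 _ z (by rw [hlen]; exact hz), hget _ h8]
    have h9 : r * q + z = r * (q + z / r) + z % r := by
      rw [Nat.mul_add]
      have := Nat.div_add_mod z r
      omega
    rw [h9, Ph_eval hr _ _ _ _ (Nat.mod_lt _ hr)]
  rw [cv _ (by omega), cv _ (by omega)]
  have e1 : r * q + (p - r * q + x) = p + x := by omega
  have e2 : r * q + (p - r * q + m + x) = p + m + x := by omega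
  rw [e1, e2]
  exact h7

theorem sync_of {A C : Type} (code : A → ℕ → C) (r T K : ℕ) (hr : 0 < r) (hK : K ≤ r)
    (hT : r - 1 + K ≤ T)
    (hs : ∀ a c d : A, ∀ o, 0 < o → o < r →
      (∀ x, x < K → code a x = if o + x < r then code c (o + x) else code d (o + x - r)) → False)
    (b : ℕ → A) (N : ℕ) (p m : ℕ) (hm : T ≤ m) (hp : p + 2 * m ≤ N)
    (he : ∀ x, x < m → Ph r code b (p + x) = Ph r code b (p + m + x)) : r ∣ m := by
  obtain ⟨i, hi1, hi2⟩ : ∃ i, p ≤ r * i ∧ r * i ≤ p + (r - 1) := by
    refine ⟨(p + (r - 1)) / r, ?_, Nat.mul_div_le _ _⟩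
    have h1 := Nat.div_add_mod (p + (r - 1)) r
    have h2 := Nat.mod_lt (p + (r - 1)) hr
    omega
  have hbl : ∀ x, x < K → code (b i) x = Ph r code b (r * i + m + x) := by
    intro x hx
    have h3 := he (r * i - p + x) (by omega)
    have e1 : p + (r * i - p + x) = r * i + x := by omega
    have e2 : p + m + (r * i - p + x) = r * i + m + x := by omega
    rw [e1, e2, Ph_eval hr _ _ _ _ (by omega)] at h3
    exact h3
  obtain ⟨j, o, ho, hj⟩ : ∃ j o, o < r ∧ r * i + m = r * j + o :=
    ⟨(r * i + m) / r, (r * i + m) % r, Nat.mod_lt _ hr, (Nat.div_add_mod _ r).symm⟩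
  rcases Nat.eq_zero_or_pos o with h0 | h0
  · subst h0
    have h4 : r ∣ r * i + m := ⟨j, by omega⟩
    exact (Nat.dvd_add_right (Dvd.intro i rfl)).1 h4
  · exfalso
    apply hs (b i) (b j) (b (j + 1)) o h0 ho
    intro x hx
    rw [hbl x hx, hj]
    split_ifs with h5
    · rw [Nat.add_assoc, Ph_eval hr _ _ _ _ h5]
    · have e : r * j + o + x = r * (j + 1) + (o + x - r) := by
        rw [Nat.mul_add, Nat.mul_one]; omega
      rw [e, Ph_eval hr _ _ _ _ (by omega)]

end Pool.CoCF
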