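import Mathlib

/-!
Uniform codes and square-free words: a general criterion.
-/

set_option autoImplicit false

namespace Pool.CoCF

/-- the word `w 0, ..., w (n - 1)` has no square -/
def SF {α : Type} (w : ℕ → α) (n : ℕ) : Prop :=
  ∀ p m, 0 < m → p + 2 * m ≤ n → ∃ x, x < m ∧ w (p + x) ≠ w (p + m + x)

theorem SF.congr {α : Type} {w w' : ℕ → α} {n : ℕ} (h : SF w n) (e : ∀ i, i < n → w i = w' i) :
    SF w' n := by
  intro p m hm hp
  obtain ⟨x, hx, hne⟩ := h p m hm hp
  refine ⟨x, hx, ?_⟩
  rw [← e _ (by omega), ← e _ (by omega)]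
  exact hne

theorem SF.reverse {α : Type} {w : ℕ → α} {n : ℕ} (h : SF w n) :
    SF (fun i => w (n - 1 - i)) n := by
  intro p m hm hp
  obtain ⟨x, hx, hne⟩ := h (n - p - 2 * m) m hm (by omega)
  refine ⟨m - 1 - x, by omega, ?_⟩
  have e1 : n - 1 - (p + (m - 1 - x)) = n - p - 2 * m + m + x := by omega
  have e2 : n - 1 - (p + m + (m - 1 - x)) = n - p - 2 * m + x := by omega
  simp only [e1, e2]
  exact fun h => hne h.symm

theorem SF.map {α β : Type} {w : ℕ → α} {n : ℕ} (f : α → β) (h : SF (fun i => f (w i)) n) :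
    SF w n := by
  intro p m hm hp
  obtain ⟨x, hx, hne⟩ := h p m hm hp
  exact ⟨x, hx, fun e => hne (by simp only [e])⟩

theorem SF.map_inj {α β : Type} {w : ℕ → α} {n : ℕ} {f : α → β} (hf : Function.Injective f)
    (h : SF w n) : SF (fun i => f (w i)) n := by
  intro p m hm hp
  obtain ⟨x, hx, hne⟩ := h p m hm hp
  exact ⟨x, hx, fun e => hne (hf e)⟩

theorem SF.sub {α : Type} {w : ℕ → α} {n : ℕ} (h : SF w n) {q k : ℕ} (hq : q + k ≤ n) :
    SF (fun i => w (q + i)) k := by
  intro p m hm hp
  obtain ⟨x, hx, hne⟩ := h (q + p) m hm (by omega)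
  refine ⟨x, hx, ?_⟩
  have e1 : q + (p + x) = q + p + x := by ring
  have e2 : q + (p + m + x) = q + p + m + x := by ring
  simp only [e1, e2]
  exact hne

/-- the word coded by an `r`-uniform code -/
def Ph {A C : Type} (r : ℕ) (code : A → ℕ → C) (b : ℕ → A) (y : ℕ) : C :=
  code (b (y / r)) (y % r)

theorem Ph_eval {A C : Type} {r : ℕ} (hr : 0 < r) (code : A → ℕ → C) (b : ℕ → A) (i x : ℕ)
    (hx : x < r) : Ph r code b (r * i + x) = code (b i) x := by
  unfold Ph
  rw [Nat.mul_add_div hr, Nat.div_eq_of_lt hx, Nat.mul_add_mod, Nat.mod_eq_of_lt hx, add_zero]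

theorem code_sf {A B C : Type} (r T : ℕ) (hr : 0 < r) (code : A → ℕ → C) (π : A → B)
    (b : ℕ → A) (n : ℕ) (hb : SF (fun i => π (b i)) n)
    (inj : ∀ a a', (∀ x, x < r → code a x = code a' x) → π a = π a')
    (pair : ∀ a a' a'', π a ≠ π a' → π a' ≠ π a'' → ∀ o, 0 < o → o < r →
      (∀ x, o ≤ x → x < r → code a x = code a' x) → (∀ x, x < o → code a' x = code a'' x) → False)
    (sync : ∀ p m, T ≤ m → p + 2 * m ≤ r * n →
      (∀ x, x < m → Ph r code b (p + x) = Ph r code b (p + m + x)) → r ∣ m)
    (small : ∀ p m, 0 < m → m < T → p + 2 * m ≤ r * n →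
      (∀ x, x < m → Ph r code b (p + x) = Ph r code b (p + m + x)) → False) :
    SF (Ph r code b) (r * n) := by
  intro p m hm hp
  by_contra hcon
  push Not at hcon
  rcases lt_or_ge m T with h | h
  · exact small p m hm h hp hcon
  obtain ⟨t, rfl⟩ := sync p m h hp hcon
  have ht : 0 < t := by
    rcases Nat.eq_zero_or_pos t with h0 | h0
    · subst h0; simp at hm
    · exact h0
  obtain ⟨q, o, ho, rfl⟩ : ∃ q o, o < r ∧ p = r * q + o :=
    ⟨p / r, p % r, Nat.mod_lt _ hr, (Nat.div_add_mod p r).symm⟩
  have key : ∀ i x, x < r → r * q + o ≤ r * i + x → r * i + x < r * q + o + r * t →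
      code (b i) x = code (b (i + t)) x := by
    intro i x hx h1 h2
    have h3 := hcon (r * i + x - (r * q + o)) (by omega)
    have e1 : r * q + o + (r * i + x - (r * q + o)) = r * i + x := by omega
    have e2 : r * q + o + r * t + (r * i + x - (r * q + o)) = r * (i + t) + x := by
      rw [Nat.mul_add]; omega
    rw [e1, e2, Ph_eval hr _ _ _ _ hx, Ph_eval hr _ _ _ _ hx] at h3
    exact h3
  have hn1 : r * (q + 2 * t) ≤ r * n := by
    have : r * (q + 2 * t) = r * q + 2 * (r * t) := by ring
    omega
  have hn2 : q + 2 * t ≤ n := Nat.le_of_mul_le_mul_left hn1 hr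
  have full : ∀ i, (q < i ∨ (o = 0 ∧ q ≤ i)) → i < q + t → π (b i) = π (b (i + t)) := by
    intro i h1 h2
    apply inj
    intro x hx
    have h4 : r * (i + 1) ≤ r * (q + t) := Nat.mul_le_mul_left r (by omega)
    rw [Nat.mul_add, Nat.mul_add, Nat.mul_one] at h4
    apply key i x hx
    · rcases h1 with h1 | ⟨h1, h3⟩
      · have h5 : r * (q + 1) ≤ r * i := Nat.mul_le_mul_left r (by omega)
        rw [Nat.mul_add, Nat.mul_one] at h5
        omega
      · have h5 : r * q ≤ r * i := Nat.mul_le_mul_left r h3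
        omega
    · omega
  rcases Nat.eq_zero_or_pos o with h0 | h0
  · obtain ⟨x, hx, hne⟩ := hb q t ht hn2
    apply hne
    have h5 := full (q + x) (Or.inr ⟨h0, by omega⟩) (by omega)
    have e : q + x + t = q + t + x := by ring
    rw [e] at h5
    exact h5
  · have hn3 : q + 1 + 2 * t ≤ n := by
      have h6 : r * (q + 2 * t) < r * n := by
        have : r * (q + 2 * t) = r * q + 2 * (r * t) := by ring
        omega
      have h7 := Nat.lt_of_mul_lt_mul_left h6
      omega
    have d1 : π (b q) ≠ π (b (q + t)) := by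
      obtain ⟨x, hx, hne⟩ := hb q t ht hn2
      rcases Nat.eq_zero_or_pos x with h8 | h8
      · subst h8; simpa using hne
      · exfalso
        apply hne
        have h5 := full (q + x) (Or.inl (by omega)) (by omega)
        have e : q + x + t = q + t + x := by ring
        rw [e] at h5
        exact h5
    have d2 : π (b (q + t)) ≠ π (b (q + t + t)) := by
      obtain ⟨x, hx, hne⟩ := hb (q + 1) t ht hn3
      rcases Nat.lt_or_ge x (t - 1) with h8 | h8
      · exfalso
        apply hne
        have h5 := full (q + 1 + x) (Or.inl (by omega)) (by omega)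
        have e : q + 1 + x + t = q + 1 + t + x := by ring
        rw [e] at h5
        exact h5
      · have hx' : x = t - 1 := by omega
        subst hx'
        have e1 : q + 1 + (t - 1) = q + t := by omega
        have e2 : q + 1 + t + (t - 1) = q + t + t := by omega
        simp only [e1, e2] at hne
        exact hne
    apply pair (b q) (b (q + t)) (b (q + t + t)) d1 d2 o h0 ho
    · intro x hx1 hx2
      exact key q x hx2 (by omega) (by
        have : r * 1 ≤ r * t := Nat.mul_le_mul_left r ht
        rw [Nat.mul_one] at this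
        omega)
    · intro x hx
      have h9 : r * (q + t) = r * q + r * t := by ring
      have h10 : r * 1 ≤ r * t := Nat.mul_le_mul_left r ht
      rw [Nat.mul_one] at h10
      refine key (q + t) x (by omega) (by omega) ?_
      rw [h9]
      omega

end Pool.CoCF
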