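import Pool.Agent.CoCF.Base

/-!
The automata over three letters, which read the code words letter by letter.
-/

set_option autoImplicit false

namespace Pool.CoCF

open Classical in
/-- the step: the state is `none` (dead) or has the state of the automaton of `Base`, and the
letters `(gcode a).take i` read since the last complete code word; a letter is read only if what has
been read since then is the beginning of a code word for a letter at which the automaton of `Base`
does not die -/
noncomputable def cstep : Option (St × Fin 5 × Fin 18) → Fin 3 → Option (Fin 3) →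
    Option (St × Fin 5 × Fin 18) × List (Fin 3)
  | none, _, _ => (none, [])
  | some (q, a, i), x, t =>
    if h : ∃ a' : Fin 5, (gcode a).take i.1 ++ [x] = (gcode a').take (i.1 + 1) ∧
        (stp q (pr a') t).1 ≠ .dead then
      if h2 : i.1 + 1 < 18 then (some (q, h.choose, ⟨i.1 + 1, h2⟩), t.toList)
      else (some ((stp q (pr h.choose) t).1, 0, 0), (stp q (pr h.choose) t).2)
    else (none, [])

/-- the automaton over three letters; it accepts when it is dead -/
noncomputable def cod (s : St) (stk : List (Fin 3)) : Automaton (Fin 3) where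
  State := Option (St × Fin 5 × Fin 18)
  Symbol := Fin 3
  finiteState := inferInstance
  finiteSymbol := inferInstance
  start := some (s, 0, 0)
  stack := stk
  step := cstep
  accept := {none}

/-- the step on configurations -/
noncomputable def cnx (c : Option (St × Fin 5 × Fin 18) × List (Fin 3)) (x : Fin 3) :
    Option (St × Fin 5 × Fin 18) × List (Fin 3) :=
  ((cstep c.1 x c.2.head?).1, (cstep c.1 x c.2.head?).2 ++ c.2.tail)

/-- the run -/
noncomputable def crn (s : St) (stk : List (Fin 3)) (w : List (Fin 3)) :
    Option (St × Fin 5 × Fin 18) × List (Fin 3) := w.foldl cnx (some (s, 0, 0), stk)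

theorem mem_language (s : St) (stk : List (Fin 3)) (w : List (Fin 3)) :
    w ∈ (cod s stk).language ↔ (crn s stk w).1 = none := Iff.rfl

theorem crn_snoc (s : St) (stk : List (Fin 3)) (w : List (Fin 3)) (x : Fin 3) :
    crn s stk (w ++ [x]) = cnx (crn s stk w) x := by
  unfold crn
  rw [List.foldl_append]
  rfl

theorem gcode_inj {a a' : Fin 5} (h : (gcode a).take 18 = (gcode a').take 18) : a = a' := by
  rw [List.take_of_length_le (by rw [gcode_len]), List.take_of_length_le (by rw [gcode_len])] at h
  apply gN_inj'
  intro x
  rw [← gcode_dg' a x, ← gcode_dg' a' x, h]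

theorem head_tail {α : Type} (st : List α) : st.head?.toList ++ st.tail = st := by
  cases st <;> rfl

theorem crn_some (s : St) (hs : s ≠ .dead) (stk : List (Fin 3)) (w : List (Fin 3)) :
    ∀ q a i st, crn s stk w = (some (q, a, i), st) →
      ∃ bs : List (Fin 5), w = bs.flatMap gcode ++ (gcode a).take i.1 ∧
        rn (s, stk) (bs.map pr) = (q, st) ∧ q ≠ .dead ∧
        (i.1 = 0 ∨ (nx (q, st) (pr a)).1 ≠ .dead) := by
  induction w using List.reverseRecOn with
  | nil =>
    intro q a i st h
    have h' : ((some (s, 0, 0), stk) : Option (St × Fin 5 × Fin 18) × List (Fin 3)) =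
      (some (q, a, i), st) := h
    simp only [Prod.mk.injEq, Option.some.injEq] at h'
    obtain ⟨⟨rfl, rfl, rfl⟩, rfl⟩ := h'
    exact ⟨[], by simp, rfl, hs, Or.inl rfl⟩
  | append_singleton w x ih =>
    intro q' a' i' st' h
    rw [crn_snoc] at h
    rcases hr : crn s stk w with ⟨c, st⟩
    rw [hr] at h
    cases c with
    | none => simp [cnx, cstep] at h
    | some c =>
      obtain ⟨q, a, i⟩ := c
      obtain ⟨bs, e1, e2, e3, e4⟩ := ih q a i st hr
      by_cases hh : ∃ a' : Fin 5, (gcode a).take i.1 ++ [x] = (gcode a').take (i.1 + 1) ∧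
        (stp q (pr a') st.head?).1 ≠ .dead
      · have hsp := hh.choose_spec
        by_cases h2 : i.1 + 1 < 18
        · have hc : cnx (some (q, a, i), st) x = (some (q, hh.choose, ⟨i.1 + 1, h2⟩), st) := by
            simp only [cnx, cstep, dif_pos hh, dif_pos h2, head_tail]
          rw [hc] at h
          simp only [Prod.mk.injEq, Option.some.injEq] at h
          obtain ⟨⟨rfl, rfl, rfl⟩, rfl⟩ := h
          refine ⟨bs, ?_, e2, e3, Or.inr hsp.2⟩
          rw [e1, List.append_assoc]
          exact congrArg (fun z => bs.flatMap gcode ++ z) hsp.1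
        · have hc : cnx (some (q, a, i), st) x =
              (some ((nx (q, st) (pr hh.choose)).1, 0, 0), (nx (q, st) (pr hh.choose)).2) := by
            simp only [cnx, cstep, dif_pos hh, dif_neg h2, nx]
          rw [hc] at h
          simp only [Prod.mk.injEq, Option.some.injEq] at h
          obtain ⟨⟨rfl, rfl, rfl⟩, rfl⟩ := h
          have hi : i.1 + 1 = 18 := by have := i.2; omega
          refine ⟨bs ++ [hh.choose], ?_, ?_, hsp.2, Or.inl rfl⟩
          · have h3 : (gcode a).take i.1 ++ [x] = gcode hh.choose := by
              refine hsp.1.trans ?_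
              apply List.take_of_length_le
              rw [gcode_len]
              omega
            rw [e1, List.append_assoc, List.flatMap_append]
            refine (congrArg (fun z => bs.flatMap gcode ++ z) h3).trans ?_
            simp
          · rw [List.map_append, List.map_singleton, rn_snoc, e2]
      · exfalso
        have hc : (cnx (some (q, a, i), st) x).1 = none := by
          simp only [cnx, cstep, dif_neg hh]
        rw [h] at hc
        cases hc

theorem take_getD {α : Type} (l : List α) (d : α) (i : ℕ) (hi : i < l.length) :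
    l.take i ++ [l.getD i d] = l.take (i + 1) := by
  rw [List.getD_eq_getElem _ _ hi, List.take_succ_eq_append_getElem hi]

/-- the coded word -/
def cw (b : ℕ → Fin 5) (n : ℕ) : List (Fin 3) :=
  (List.range n).map (fun y => (gcode (b (y / 18))).getD (y % 18) 0)

theorem crn_cw (s : St) (stk : List (Fin 3)) (b : ℕ → Fin 5)
    (hb : ∀ j, (rn (s, stk) ((List.range j).map (fun i => pr (b i)))).1 ≠ .dead) (n : ℕ) :
    ∃ q a i st, crn s stk (cw b n) = (some (q, a, i), st) ∧ i.1 = n % 18 ∧
      (gcode a).take i.1 = (gcode (b (n / 18))).take i.1 ∧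
      rn (s, stk) ((List.range (n / 18)).map (fun i => pr (b i))) = (q, st) := by
  induction n with
  | zero => exact ⟨s, 0, 0, stk, rfl, rfl, rfl, rfl⟩
  | succ n ih =>
    obtain ⟨q, a, i, st, e1, e2, e3, e4⟩ := ih
    have hcw : cw b (n + 1) = cw b n ++ [(gcode (b (n / 18))).getD (n % 18) 0] := by
      unfold cw
      rw [List.range_succ, List.map_append]
      rfl
    have hi18 : i.1 < 18 := i.2
    have hx : (gcode a).take i.1 ++ [(gcode (b (n / 18))).getD (n % 18) 0] =
        (gcode (b (n / 18))).take (i.1 + 1) := by
      rw [e3, ← e2]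
      exact take_getD _ _ _ (by rw [gcode_len]; exact hi18)
    have hal : (nx (q, st) (pr (b (n / 18)))).1 ≠ .dead := by
      have h := hb (n / 18 + 1)
      rw [List.range_succ, List.map_append, List.map_singleton, rn_snoc, e4] at h
      exact h
    have hh : ∃ a' : Fin 5, (gcode a).take i.1 ++ [(gcode (b (n / 18))).getD (n % 18) 0] =
        (gcode a').take (i.1 + 1) ∧ (stp q (pr a') st.head?).1 ≠ .dead :=
      ⟨b (n / 18), hx, hal⟩
    have hsp := hh.choose_spec
    rw [hcw, crn_snoc, e1]
    by_cases h2 : i.1 + 1 < 18
    · have hc : cnx (some (q, a, i), st) ((gcode (b (n / 18))).getD (n % 18) 0) =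
          (some (q, hh.choose, ⟨i.1 + 1, h2⟩), st) := by
        simp only [cnx, cstep, dif_pos hh, dif_pos h2, head_tail]
      have d1 : (n + 1) / 18 = n / 18 := by omega
      refine ⟨q, hh.choose, ⟨i.1 + 1, h2⟩, st, hc, by simp only; omega, ?_, ?_⟩
      · rw [d1]
        exact hsp.1.symm.trans hx
      · rw [d1]
        exact e4
    · have hi : i.1 + 1 = 18 := by omega
      have hch : hh.choose = b (n / 18) := by
        apply gcode_inj
        have h5 : (gcode hh.choose).take (i.1 + 1) = (gcode (b (n / 18))).take (i.1 + 1) :=
          hsp.1.symm.trans hx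
        have h6 : ∀ l l' : List (Fin 3), l.take (i.1 + 1) = l'.take (i.1 + 1) →
            l.take 18 = l'.take 18 := by
          rw [hi]
          exact fun _ _ h => h
        exact h6 _ _ h5
      have hc : cnx (some (q, a, i), st) ((gcode (b (n / 18))).getD (n % 18) 0) =
          (some ((nx (q, st) (pr (b (n / 18)))).1, 0, 0), (nx (q, st) (pr (b (n / 18)))).2) := by
        simp only [cnx, cstep, dif_pos hh, dif_neg h2, nx, hch]
      have d1 : (n + 1) / 18 = n / 18 + 1 := by omega
      have d2 : (n + 1) % 18 = 0 := by omega
      refine ⟨_, 0, 0, _, hc, by rw [d2]; rfl, by simp, ?_⟩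
      rw [d1, List.range_succ, List.map_append, List.map_singleton, rn_snoc, e4]

end Pool.CoCF
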