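import Pool.Agent.CoCF.Words

/-!
The infinite word `W = B 0 # B 1 # B 2 # ...`.
-/

set_option autoImplicit false

namespace Pool.CoCF

theorem EE_ge (k : ℕ) : k ≤ EE k := by
  induction k with
  | zero => omega
  | succ k ih => rw [EE_succ]; omega

/-- the infinite word -/
def W (i : ℕ) : Option (Fin 3) := (P (i + 1)).getD i none

theorem W_pos (i : ℕ) : ∃ j y, y ≤ ll j ∧ i = EE j + y := by
  obtain ⟨j, y, _, h2, h3⟩ := P_pos (i + 1) i (by have := EE_ge (i + 1); omega)
  exact ⟨j, y, h2, h3⟩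

theorem W_eq (k i : ℕ) (hi : i < EE k) : (P k).getD i none = W i := by
  obtain ⟨j, y, h1, h2, h3⟩ := P_pos k i hi
  have h4 : j < i + 1 := by have := EE_ge j; omega
  unfold W
  rcases Nat.lt_or_ge y (ll j) with h | h
  · rw [h3, P_some k j y h1 h, P_some _ j y (by omega) h]
  · have h5 : y = ll j := by omega
    rw [h3, h5, P_none k j h1, P_none _ j (by omega)]

theorem W_some (j y : ℕ) (hy : y < ll j) : W (EE j + y) = some ((B j).getD y 0) := by
  rw [← W_eq (j + 1) _ (by rw [EE_succ]; omega)]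
  exact P_some _ _ _ (by omega) hy

theorem W_none (j : ℕ) : W (EE j + ll j) = none := by
  rw [← W_eq (j + 1) _ (by rw [EE_succ]; omega)]
  exact P_none _ _ (by omega)

theorem W_sf (n : ℕ) : SF W n := by
  have h := P_sf n
  have h2 : SF W (EE n) := h.congr (fun i hi => W_eq n i hi)
  intro p m hm hp
  exact h2 p m hm (by have := EE_ge n; omega)

/-- every window of sixteen letters contains the letter `0` -/
theorem W_zero (i : ℕ) : ∃ z, i ≤ z ∧ z < i + 16 ∧ W z = some 0 := by
  have hl : ∀ a : Fin 3, ∃ x : Fin 3, (lee a).getD x.1 0 = 0 := by decide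
  have start : ∀ j s, 13 * s < ll j → ∃ x, x < 3 ∧ W (EE j + (13 * s + x)) = some 0 := by
    intro j s hs
    cases j with
    | zero =>
      have h1 : ∀ s : Fin 2, ∃ x : Fin 3, (B 0).getD (13 * s.1 + x.1) 0 = 0 := by decide +kernel
      have h2 : s < 2 := by
        rw [ll, pow_zero] at hs
        omega
      obtain ⟨x, hx⟩ := h1 ⟨s, h2⟩
      refine ⟨x.1, x.2, ?_⟩
      rw [W_some 0 _ (by have := x.2; rw [ll, pow_zero]; omega)]
      exact congrArg some hx
    | succ j =>
      have h3 : ll (j + 1) = 13 * ll j := by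
        unfold ll
        rw [pow_succ]
        ring
      obtain ⟨x, hx⟩ := hl ((B j).reverse.getD s 0)
      refine ⟨x.1, x.2, ?_⟩
      have hx3 := x.2
      rw [W_some (j + 1) _ (by omega), B_succ_getD j _ (by omega)]
      have e1 : (13 * s + x.1) / 13 = s := by omega
      have e2 : (13 * s + x.1) % 13 = x.1 := by omega
      rw [e1, e2, hx]
  obtain ⟨j, y, h1, h2⟩ := W_pos i
  have h13 : ∃ c, ll j = 13 * c := ⟨2 * 13 ^ j, by unfold ll; ring⟩
  obtain ⟨c, hc⟩ := h13
  rcases Nat.lt_or_ge (13 * ((y + 12) / 13)) (ll j) with h | h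
  · obtain ⟨x, hx, hx2⟩ := start j _ h
    exact ⟨_, by omega, by omega, hx2⟩
  · obtain ⟨x, hx, hx2⟩ := start (j + 1) 0 (by have := ll_pos (j + 1); omega)
    refine ⟨_, ?_, ?_, hx2⟩
    · rw [EE_succ]; omega
    · rw [EE_succ]; omega

end Pool.CoCF
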