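import Pool.Agent.CoCF.Check

/-!
Leech's square-free code on three letters and a code of five letters by words over three letters.
-/

set_option autoImplicit false
set_option maxRecDepth 100000

namespace Pool.CoCF

/-- Leech's code words, of length 13 -/
def lee : Fin 3 → List (Fin 3) :=
  ![[0, 1, 2, 1, 0, 2, 1, 2, 0, 1, 2, 1, 0],
    [1, 2, 0, 2, 1, 0, 2, 0, 1, 2, 0, 2, 1],
    [2, 0, 1, 0, 2, 1, 0, 1, 2, 0, 1, 0, 2]]

/-- Leech's code words as numbers -/
def lN : Fin 3 → ℕ := ![6592612, 25764233, 34752018]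

/-- the code words of the five letters, of length 18 -/
def gcode : Fin 5 → List (Fin 3) :=
  ![[0, 1, 0, 2, 0, 1, 2, 0, 2, 1, 0, 1, 2, 1, 0, 2, 1, 2],
    [0, 1, 0, 2, 0, 1, 2, 0, 2, 1, 0, 2, 0, 1, 0, 2, 1, 2],
    [0, 1, 0, 2, 0, 1, 2, 0, 2, 1, 2, 0, 1, 2, 1, 0, 1, 2],
    [0, 1, 0, 2, 0, 1, 2, 1, 0, 2, 0, 1, 0, 2, 1, 0, 1, 2],
    [0, 1, 0, 2, 0, 1, 2, 1, 0, 2, 1, 2, 0, 2, 1, 0, 1, 2]]

/-- these code words as numbers -/
def gN : Fin 5 → ℕ := ![40907449476, 40878089348, 39076635780, 39062103172, 39067346052]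

/-- the letter `0`, `0`, `1`, `2` or the marker for which a code word stands -/
def pr : Fin 5 → Option (Fin 3) := ![some 0, some 0, some 1, some 2, none]

theorem lee_len (a : Fin 3) : (lee a).length = 13 := by revert a; decide

theorem gcode_len (a : Fin 5) : (gcode a).length = 18 := by revert a; decide

theorem lN_lt (a : Fin 3) : lN a < 4 ^ 13 := by revert a; decide

theorem gN_lt (a : Fin 5) : gN a < 4 ^ 18 := by revert a; decide

theorem lee_dg' : ∀ a : Fin 3, ∀ x : Fin 13, ((lee a).getD x.1 0 : Fin 3).1 = dg (lN a) x.1 := by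
  decide +kernel

theorem gcode_dg' : ∀ a : Fin 5, ∀ x : Fin 18, ((gcode a).getD x.1 0 : Fin 3).1 = dg (gN a) x.1 := by
  decide +kernel

theorem lee_dg (a : Fin 3) (x : ℕ) (hx : x < 13) :
    ((lee a).getD x 0 : Fin 3).1 = dg (lN a) x := lee_dg' a ⟨x, hx⟩

theorem gcode_dg (a : Fin 5) (x : ℕ) (hx : x < 18) :
    ((gcode a).getD x 0 : Fin 3).1 = dg (gN a) x := gcode_dg' a ⟨x, hx⟩

theorem lee_chk : ∀ a b c d e : Fin 3, a ≠ b → b ≠ c → c ≠ d → d ≠ e → ¬ (a = c ∧ b = d) →
    ¬ (b = d ∧ c = e) → chkM (num lN 13 [a, b, c, d, e]) 65 24 = true := by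
  decide +kernel

/-- the word of the letters for `a, b, c, d` has a square -/
def sq4 (a b c d : Fin 5) : Bool :=
  decide (pr a = pr b) || decide (pr b = pr c) || decide (pr c = pr d) ||
    (decide (pr a = pr c) && decide (pr b = pr d))

theorem gN_chk' : ∀ a b c d : Fin 5,
    (sq4 a b c d || chkM (num gN 18 [a, b, c, d]) 72 21) = true := by
  decide +kernel

theorem gN_chk (a b c d : Fin 5) (h1 : pr a ≠ pr b) (h2 : pr b ≠ pr c) (h3 : pr c ≠ pr d)
    (h4 : ¬ (pr a = pr c ∧ pr b = pr d)) : chkM (num gN 18 [a, b, c, d]) 72 21 = true := by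
  have h := gN_chk' a b c d
  have h5 : sq4 a b c d = false := by
    unfold sq4
    rw [decide_eq_false h1, decide_eq_false h2, decide_eq_false h3]
    simpa using h4
  rw [h5, Bool.false_or] at h
  exact h

theorem lee_sync' : ∀ a c d : Fin 3, ∀ o : Fin 13, 0 < o.1 →
    ¬ (∀ x : Fin 13, dg (lN a) x.1 = if o.1 + x.1 < 13 then dg (lN c) (o.1 + x.1) else
      dg (lN d) (o.1 + x.1 - 13)) := by
  decide +kernel

theorem gN_sync' : ∀ a c d : Fin 5, ∀ o : Fin 18, 0 < o.1 →
    ¬ (∀ x : Fin 5, dg (gN a) x.1 = if o.1 + x.1 < 18 then dg (gN c) (o.1 + x.1) else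
      dg (gN d) (o.1 + x.1 - 18)) := by
  decide +kernel

theorem lee_pair' : ∀ a a' a'' : Fin 3, a ≠ a' → a' ≠ a'' → ∀ o : Fin 13, 0 < o.1 →
    ¬ ((∀ x : Fin 13, o.1 ≤ x.1 → dg (lN a) x.1 = dg (lN a') x.1) ∧
      (∀ x : Fin 13, x.1 < o.1 → dg (lN a') x.1 = dg (lN a'') x.1)) := by
  decide +kernel

theorem gN_pair' : ∀ a a' a'' : Fin 5, pr a ≠ pr a' → pr a' ≠ pr a'' → ∀ o : Fin 18, 0 < o.1 →
    ¬ ((∀ x : Fin 18, o.1 ≤ x.1 → dg (gN a) x.1 = dg (gN a') x.1) ∧
      (∀ x : Fin 18, x.1 < o.1 → dg (gN a') x.1 = dg (gN a'') x.1)) := by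
  decide +kernel

theorem lee_inj' : ∀ a a' : Fin 3, (∀ x : Fin 13, dg (lN a) x.1 = dg (lN a') x.1) → a = a' := by
  decide +kernel

theorem gN_inj' : ∀ a a' : Fin 5, (∀ x : Fin 18, dg (gN a) x.1 = dg (gN a') x.1) → a = a' := by
  decide +kernel

/-- Leech's code is square-free on square-free words of length at least five -/
theorem lee_sf (b : ℕ → Fin 3) (n : ℕ) (hn : 5 ≤ n) (hb : SF b n) :
    SF (Ph 13 (fun a x => dg (lN a) x) b) (13 * n) := by
  refine code_sf 13 25 (by norm_num) _ (id : Fin 3 → Fin 3) b n hb ?_ ?_ ?_ ?_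
  · intro a a' h
    exact lee_inj' a a' (fun x => h x.1 x.2)
  · intro a a' a'' h1 h2 o ho1 ho2 h3 h4
    exact lee_pair' a a' a'' h1 h2 ⟨o, ho2⟩ ho1
      ⟨fun x hx => h3 x.1 hx x.2, fun x hx => h4 x.1 hx⟩
  · intro p m hm hp he
    exact sync_of _ 13 25 13 (by norm_num) (by norm_num) (by norm_num)
      (fun a c d o ho1 ho2 h => lee_sync' a c d ⟨o, ho2⟩ ho1 (fun x => h x.1 x.2)) b (13 * n) p m
      hm hp he
  · intro p m hm hmT hp he
    refine small_of lN (id : Fin 3 → Fin 3) 0 13 25 5 (by norm_num) lN_lt (by norm_num) ?_ b n hn hb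
      p m hm hmT hp he
    intro l hl hsf
    match l, hl with
    | [a, b, c, d, e], _ =>
      apply lee_chk
      · intro h
        obtain ⟨x, hx, hne⟩ := hsf 0 1 (by norm_num) (by norm_num)
        obtain rfl : x = 0 := by omega
        exact hne (by simpa using h)
      · intro h
        obtain ⟨x, hx, hne⟩ := hsf 1 1 (by norm_num) (by norm_num)
        obtain rfl : x = 0 := by omega
        exact hne (by simpa using h)
      · intro h
        obtain ⟨x, hx, hne⟩ := hsf 2 1 (by norm_num) (by norm_num)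
        obtain rfl : x = 0 := by omega
        exact hne (by simpa using h)
      · intro h
        obtain ⟨x, hx, hne⟩ := hsf 3 1 (by norm_num) (by norm_num)
        obtain rfl : x = 0 := by omega
        exact hne (by simpa using h)
      · rintro ⟨h1, h2⟩
        obtain ⟨x, hx, hne⟩ := hsf 0 2 (by norm_num) (by norm_num)
        obtain rfl | rfl : x = 0 ∨ x = 1 := by omega
        · exact hne (by simpa using h1)
        · exact hne (by simpa using h2)
      · rintro ⟨h1, h2⟩
        obtain ⟨x, hx, hne⟩ := hsf 1 2 (by norm_num) (by norm_num)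
        obtain rfl | rfl : x = 0 ∨ x = 1 := by omega
        · exact hne (by simpa using h1)
        · exact hne (by simpa using h2)

/-- the code of the five letters gives square-free words if the word of the letters for which the
code words stand is square-free -/
theorem gN_sf (b : ℕ → Fin 5) (n : ℕ) (hn : 4 ≤ n) (hb : SF (fun i => pr (b i)) n) :
    SF (Ph 18 (fun a x => dg (gN a) x) b) (18 * n) := by
  refine code_sf 18 22 (by norm_num) _ pr b n hb ?_ ?_ ?_ ?_
  · intro a a' h
    rw [gN_inj' a a' (fun x => h x.1 x.2)]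
  · intro a a' a'' h1 h2 o ho1 ho2 h3 h4
    exact gN_pair' a a' a'' h1 h2 ⟨o, ho2⟩ ho1
      ⟨fun x hx => h3 x.1 hx x.2, fun x hx => h4 x.1 hx⟩
  · intro p m hm hp he
    exact sync_of _ 18 22 5 (by norm_num) (by norm_num) (by norm_num)
      (fun a c d o ho1 ho2 h => gN_sync' a c d ⟨o, ho2⟩ ho1 (fun x => h x.1 x.2)) b (18 * n) p m
      hm hp he
  · intro p m hm hmT hp he
    refine small_of gN pr 0 18 22 4 (by norm_num) gN_lt (by norm_num) ?_ b n hn hb
      p m hm hmT hp he
    intro l hl hsf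
    match l, hl with
    | [a, b, c, d], _ =>
      apply gN_chk
      · intro h
        obtain ⟨x, hx, hne⟩ := hsf 0 1 (by norm_num) (by norm_num)
        obtain rfl : x = 0 := by omega
        exact hne (by simpa using h)
      · intro h
        obtain ⟨x, hx, hne⟩ := hsf 1 1 (by norm_num) (by norm_num)
        obtain rfl : x = 0 := by omega
        exact hne (by simpa using h)
      · intro h
        obtain ⟨x, hx, hne⟩ := hsf 2 1 (by norm_num) (by norm_num)
        obtain rfl : x = 0 := by omega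
        exact hne (by simpa using h)
      · rintro ⟨h1, h2⟩
        obtain ⟨x, hx, hne⟩ := hsf 0 2 (by norm_num) (by norm_num)
        obtain rfl | rfl : x = 0 ∨ x = 1 := by omega
        · exact hne (by simpa using h1)
        · exact hne (by simpa using h2)

end Pool.CoCF
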