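import Pool.Agent.CoCF.Coded

/-!
The words outside both languages.
-/

set_option autoImplicit false

namespace Pool.CoCF

theorem push_alive {v : List (Fin 3)} {d : St × List (Fin 3)} (h : Push v d)
    (g : Option (Fin 3)) : (nx d g).1 ≠ .dead := by
  unfold Push at h
  subst h
  cases g with
  | some x => simp [nx, stp]
  | none => simp [nx, stp]

theorem ver_side {b : List (Option (Fin 3))} {d1 d2 : St × List (Fin 3)} (h : Inv b d1 d2) :
    (∀ g, (nx d2 g).1 ≠ .dead → g = W b.length) ∨
      (∀ g, (nx d1 g).1 ≠ .dead → g = W b.length) := by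
  have h0 := h
  obtain ⟨k, v, hb, h'⟩ := h
  rcases h' with ⟨hp, hv⟩ | ⟨hp, hv⟩
  · left
    intro g hg
    exact (next_letter h0 g).1 ⟨push_alive hp g, hg⟩
  · right
    intro g hg
    exact (next_letter h0 g).1 ⟨hg, push_alive hp g⟩

theorem flatMap_gcode_inj (l l' : List (Fin 5)) (hl : l.length = l'.length)
    (h : l.flatMap gcode = l'.flatMap gcode) : l = l' := by
  induction l generalizing l' with
  | nil =>
    cases l' with
    | nil => rfl
    | cons a l' => simp at hl
  | cons a l ih =>
    cases l' with
    | nil => simp at hl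
    | cons a' l' =>
      rw [List.flatMap_cons, List.flatMap_cons] at h
      obtain ⟨h1, h2⟩ := List.append_inj h (by rw [gcode_len, gcode_len])
      have h3 : a = a' := gcode_inj (by rw [h1])
      rw [h3, ih l' (by simpa using hl) h2]

/-- a letter for a letter or marker -/
def lft : Option (Fin 3) → Fin 5
  | some x => ![0, 2, 3] x
  | none => 4

theorem pr_lft : ∀ g : Option (Fin 3), pr (lft g) = g := by decide

theorem squareFree_of_sf (w : List (Fin 3)) (f : ℕ → ℕ) (N : ℕ) (hN : w.length ≤ N)
    (hf : ∀ y, y < w.length → (w.getD y 0).1 = f y) (h : SF f N) : SquareFree w := by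
  intro u hu
  obtain ⟨s, t, hst⟩ := hu
  by_contra hne
  have hm : 0 < u.length := List.length_pos_iff.2 hne
  have hlen : w.length = s.length + (u.length + u.length) + t.length := by
    rw [← hst]
    simp only [List.length_append]
  obtain ⟨x, hx, hd⟩ := h s.length u.length hm (by omega)
  apply hd
  have e0 : w = s ++ (u ++ (u ++ t)) := by
    rw [← hst]
    simp
  rw [← hf _ (by omega), ← hf _ (by omega)]
  have e1 : w.getD (s.length + x) 0 = u.getD x 0 := by
    rw [e0, List.getD_append_right _ _ _ _ (by omega), Nat.add_sub_cancel_left,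
      List.getD_append _ _ _ _ hx]
  have e2 : w.getD (s.length + u.length + x) 0 = u.getD x 0 := by
    rw [e0, List.getD_append_right _ _ _ _ (by omega)]
    have e3 : s.length + u.length + x - s.length = u.length + x := by omega
    rw [e3, List.getD_append_right _ _ _ _ (by omega), Nat.add_sub_cancel_left,
      List.getD_append _ _ _ _ hx]
  rw [e1, e2]

theorem some_of_ne {α : Type} {c : Option α} (h : c ≠ none) : ∃ a, c = some a :=
  Option.ne_none_iff_exists'.1 h

/-- a word outside both languages is a prefix of a coded word -/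
theorem outside (w : List (Fin 3)) (h1 : w ∉ (cod c1.1 c1.2).language)
    (h2 : w ∉ (cod c2.1 c2.2).language) :
    ∃ b : ℕ → Fin 5, (∀ i, pr (b i) = W i) ∧
      ∀ y, y < w.length → w.getD y 0 = (gcode (b (y / 18))).getD (y % 18) 0 := by
  rw [mem_language] at h1 h2
  obtain ⟨⟨q1, a1, i1⟩, hc1⟩ := some_of_ne h1
  obtain ⟨⟨q2, a2, i2⟩, hc2⟩ := some_of_ne h2
  obtain ⟨bs, e1, f1, g1, k1⟩ := crn_some c1.1 (by decide) c1.2 w q1 a1 i1
    (crn c1.1 c1.2 w).2 (Prod.ext hc1 rfl)
  obtain ⟨bs', e2, f2, g2, k2⟩ := crn_some c2.1 (by decide) c2.2 w q2 a2 i2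
    (crn c2.1 c2.2 w).2 (Prod.ext hc2 rfl)
  set s1 := (crn c1.1 c1.2 w).2
  set s2 := (crn c2.1 c2.2 w).2
  have l1 : w.length = 18 * bs.length + i1.1 := by
    rw [e1, List.length_append, flatMap_len _ 18 gcode_len, List.length_take, gcode_len]
    have := i1.2
    omega
  have l2 : w.length = 18 * bs'.length + i2.1 := by
    rw [e2, List.length_append, flatMap_len _ 18 gcode_len, List.length_take, gcode_len]
    have := i2.2
    omega
  have hl : bs.length = bs'.length := by
    have := i1.2
    have := i2.2
    omega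
  have hi : i1.1 = i2.1 := by omega
  obtain ⟨h3, h4⟩ := List.append_inj (e1.symm.trans e2) (by
    rw [flatMap_len _ 18 gcode_len, flatMap_len _ 18 gcode_len, hl])
  have h5 := flatMap_gcode_inj bs bs' hl h3
  subst h5
  have f1' : rn c1 (bs.map pr) = (q1, s1) := f1
  have f2' : rn c2 (bs.map pr) = (q2, s2) := f2
  have al1 : (rn c1 (bs.map pr)).1 ≠ .dead := by rw [f1']; exact g1
  have al2 : (rn c2 (bs.map pr)).1 ≠ .dead := by rw [f2']; exact g2
  have hW := (both_iff (bs.map pr)).1 ⟨al1, al2⟩
  have hinv := rn_inv (bs.map pr) al1 al2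
  rw [f1', f2'] at hinv
  rw [List.length_map] at hW
  -- the unfinished code word
  obtain ⟨a, ha1, ha2⟩ : ∃ a : Fin 5, w = bs.flatMap gcode ++ (gcode a).take i1.1 ∧
      (i1.1 = 0 ∨ pr a = W bs.length) := by
    rcases ver_side hinv with h | h
    · refine ⟨a2, by rw [hi]; exact e2, ?_⟩
      rcases k2 with k | k
      · left; omega
      · right
        have := h _ k
        rw [List.length_map] at this
        exact this
    · refine ⟨a1, e1, ?_⟩
      rcases k1 with k | k
      · left; exact k
      · right
        have := h _ k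
        rw [List.length_map] at this
        exact this
  have hi18 := i1.2
  refine ⟨fun j => if j < bs.length then bs.getD j 0 else
    if j = bs.length ∧ i1.1 ≠ 0 then a else lft (W j), ?_, ?_⟩
  · intro j
    by_cases hj : j < bs.length
    · simp only [if_pos hj]
      have h6 : (bs.map pr).getD j none = ((List.range bs.length).map W).getD j none := by
        rw [← hW]
      rw [List.getD_eq_getElem _ _ (by simpa using hj),
        List.getD_eq_getElem _ _ (by simpa using hj)] at h6
      rw [List.getD_eq_getElem _ _ hj]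
      simpa using h6
    · simp only [if_neg hj]
      by_cases hj2 : j = bs.length ∧ i1.1 ≠ 0
      · rw [if_pos hj2]
        rcases ha2 with h | h
        · exact absurd h hj2.2
        · rw [h, hj2.1]
      · rw [if_neg hj2]
        exact pr_lft _
  · intro y hy
    rcases Nat.lt_or_ge y (18 * bs.length) with h | h
    · have h7 : y / 18 < bs.length := Nat.div_lt_of_lt_mul h
      simp only [if_pos h7]
      rw [ha1, List.getD_append _ _ _ _ (by rw [flatMap_len _ 18 gcode_len]; exact h),
        flatMap_getD gcode 18 (by norm_num) gcode_len 0 0 bs y h]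
    · have h8 : y / 18 = bs.length := by omega
      have h9 : y % 18 = y - 18 * bs.length := by omega
      have h10 : ¬ (y / 18 < bs.length) := by omega
      have h11 : y / 18 = bs.length ∧ i1.1 ≠ 0 := ⟨h8, by omega⟩
      simp only [if_neg h10, if_pos h11]
      rw [ha1, List.getD_append_right _ _ _ _ (by rw [flatMap_len _ 18 gcode_len]; exact h),
        flatMap_len _ 18 gcode_len, h9, List.getD_eq_getElem _ _ (by
          rw [List.length_take, gcode_len]; omega), List.getElem_take,
        List.getD_eq_getElem _ _ (by rw [gcode_len]; omega)]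

theorem outside_squareFree (w : List (Fin 3)) (h1 : w ∉ (cod c1.1 c1.2).language)
    (h2 : w ∉ (cod c2.1 c2.2).language) : SquareFree w := by
  obtain ⟨b, hb, hw⟩ := outside w h1 h2
  refine squareFree_of_sf w (Ph 18 (fun a x => dg (gN a) x) b) (18 * (w.length + 4)) (by omega)
    ?_ (gN_sf b (w.length + 4) (by omega) ((W_sf _).congr (fun i _ => (hb i).symm)))
  intro y hy
  rw [hw y hy, gcode_dg _ _ (Nat.mod_lt _ (by norm_num))]
  rfl

theorem cw_outside (b : ℕ → Fin 5) (hb : ∀ i, pr (b i) = W i) (n : ℕ) :
    cw b n ∉ (cod c1.1 c1.2).language ∧ cw b n ∉ (cod c2.1 c2.2).language := by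
  have hW : ∀ j, (List.range j).map (fun i => pr (b i)) = (List.range j).map W := by
    intro j
    apply List.map_congr_left
    intro i _
    exact hb i
  have hal : ∀ j, (rn c1 ((List.range j).map (fun i => pr (b i)))).1 ≠ .dead ∧
      (rn c2 ((List.range j).map (fun i => pr (b i)))).1 ≠ .dead := by
    intro j
    rw [both_iff, hW]
    simp
  constructor
  · rw [mem_language]
    obtain ⟨q, a, i, st, e, _⟩ := crn_cw c1.1 c1.2 b (fun j => (hal j).1) n
    rw [e]
    simp
  · rw [mem_language]
    obtain ⟨q, a, i, st, e, _⟩ := crn_cw c2.1 c2.2 b (fun j => (hal j).2) n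
    rw [e]
    simp

/-- the places of the letter `0` -/
def zs (q : ℕ) : Finset ℕ := (Finset.range q).filter (fun i => W i = some 0)

theorem zs_card (q : ℕ) : q / 16 ≤ (zs q).card := by
  have h : ∀ t, ∃ z, 16 * t ≤ z ∧ z < 16 * t + 16 ∧ W z = some 0 := fun t => W_zero (16 * t)
  choose f h1 h2 h3 using h
  calc q / 16 = (Finset.range (q / 16)).card := (Finset.card_range _).symm
    _ ≤ (zs q).card := by
        apply Finset.card_le_card_of_injOn f
        · intro t ht
          have ht' : t < q / 16 := by simpa using ht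
          have := h2 t
          simp only [zs, Finset.coe_filter, Finset.mem_range, Set.mem_ofPred_eq]
          exact ⟨by omega, h3 t⟩
        · intro t _ t' _ he
          have a1 := h1 t
          have a2 := h2 t
          have a3 := h1 t'
          have a4 := h2 t'
          have he' : f t = f t' := he
          omega

/-- the choice of the second code word for the letter `0` at the places in `S` -/
def bS (S : Finset ℕ) (i : ℕ) : Fin 5 := if W i = some 0 ∧ i ∈ S then 1 else lft (W i)

theorem pr_bS (S : Finset ℕ) (i : ℕ) : pr (bS S i) = W i := by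
  unfold bS
  split_ifs with h
  · rw [h.1]
    rfl
  · exact pr_lft _

theorem cw_getD (b : ℕ → Fin 5) (n y : ℕ) (hy : y < n) :
    (cw b n).getD y 0 = (gcode (b (y / 18))).getD (y % 18) 0 := by
  unfold cw
  rw [List.getD_eq_getElem _ _ (by simpa using hy)]
  simp

theorem cw_bS_inj (n : ℕ) :
    Set.InjOn (fun S => cw (bS S) n) ((zs (n / 18)).powerset : Set (Finset ℕ)) := by
  intro S hS S' hS' he
  simp only [Finset.coe_powerset, Set.mem_preimage, Set.mem_powerset_iff,
    Finset.coe_subset] at hS hS'
  have key : ∀ i, i ∈ zs (n / 18) → (i ∈ S ↔ i ∈ S') := by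
    intro i hi
    have hi' := hi
    simp only [zs, Finset.mem_filter, Finset.mem_range] at hi'
    have hy : 18 * i + 11 < n := by omega
    have h1 : (cw (bS S) n).getD (18 * i + 11) 0 = (cw (bS S') n).getD (18 * i + 11) 0 :=
      congrArg (fun w => List.getD w (18 * i + 11) 0) he
    rw [cw_getD _ _ _ hy, cw_getD _ _ _ hy] at h1
    have e1 : (18 * i + 11) / 18 = i := by omega
    have e2 : (18 * i + 11) % 18 = 11 := by omega
    rw [e1, e2] at h1
    unfold bS at h1
    have h0 : lft (some 0) = 0 := rfl
    rw [hi'.2, h0] at h1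
    have hd : (gcode 1).getD 11 0 ≠ (gcode 0).getD 11 0 := by decide
    by_cases hs : i ∈ S <;> by_cases hs' : i ∈ S'
    · exact ⟨fun _ => hs', fun _ => hs⟩
    · exfalso
      rw [if_pos ⟨rfl, hs⟩, if_neg (fun h => hs' h.2)] at h1
      exact hd h1
    · exfalso
      rw [if_neg (fun h => hs h.2), if_pos ⟨rfl, hs'⟩] at h1
      exact hd h1.symm
    · exact ⟨fun h => absurd h hs, fun h => absurd h hs'⟩
  ext i
  constructor
  · intro h
    exact (key i (hS h)).1 h
  · intro h
    exact (key i (hS' h)).2 h

theorem many (n : ℕ) : 2 ^ (n / 288) ≤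
    {w : List (Fin 3) | w.length = n ∧ w ∉ (cod c1.1 c1.2).language ∧
      w ∉ (cod c2.1 c2.2).language}.ncard := by
  have hfin : {w : List (Fin 3) | w.length = n ∧ w ∉ (cod c1.1 c1.2).language ∧
      w ∉ (cod c2.1 c2.2).language}.Finite :=
    (List.finite_length_eq (Fin 3) n).subset (fun w h => h.1)
  have h1 : n / 288 ≤ (zs (n / 18)).card := by
    have h2 := zs_card (n / 18)
    rw [Nat.div_div_eq_div_mul] at h2
    exact h2
  calc 2 ^ (n / 288) ≤ 2 ^ (zs (n / 18)).card := Nat.pow_le_pow_right (by norm_num) h1
    _ = ((zs (n / 18)).powerset : Set (Finset ℕ)).ncard := by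
        rw [Set.ncard_coe_finset, Finset.card_powerset]
    _ = ((fun S => cw (bS S) n) '' ((zs (n / 18)).powerset : Set (Finset ℕ))).ncard :=
        (Set.InjOn.ncard_image (cw_bS_inj n)).symm
    _ ≤ _ := by
        apply Set.ncard_le_ncard _ hfin
        rintro w ⟨S, _, rfl⟩
        refine ⟨by simp [cw], ?_⟩
        exact cw_outside (bS S) (pr_bS S) n

end Pool.CoCF
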