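import Pool.Agent.CoCF.Leech

/-!
The fixed point of Leech's morphism and the words `x # y`.
-/

set_option autoImplicit false

namespace Pool.CoCF

/-- the fixed point of Leech's morphism with the first letter `0` -/
def lam (i : ℕ) : Fin 3 :=
  if h : i = 0 then 0 else (lee (lam (i / 13))).getD (i % 13) 0
termination_by i
decreasing_by exact Nat.div_lt_self (Nat.pos_of_ne_zero h) (by norm_num)

theorem lam_zero : lam 0 = 0 := by
  rw [lam]
  rfl

theorem lam_eq (i : ℕ) : lam i = (lee (lam (i / 13))).getD (i % 13) 0 := by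
  by_cases h : i = 0
  · subst h
    rw [Nat.zero_div, Nat.zero_mod, lam_zero]
    rfl
  · conv_lhs => rw [lam]
    rw [dif_neg h]

theorem lam_sf5 : SF lam 5 := by
  have h : ∀ p : Fin 6, ∀ m : Fin 3, 0 < m.1 → p.1 + 2 * m.1 ≤ 5 →
      ∃ x : Fin 3, x.1 < m.1 ∧ (lee 0).getD (p.1 + x.1) 0 ≠ (lee 0).getD (p.1 + m.1 + x.1) 0 := by
    decide
  have e : ∀ i, i < 5 → lam i = (lee 0).getD i 0 := by
    intro i hi
    rw [lam_eq, Nat.div_eq_of_lt (by omega), Nat.mod_eq_of_lt (by omega), lam_zero]
  intro p m hm hp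
  obtain ⟨x, hx, hne⟩ := h ⟨p, by omega⟩ ⟨m, by omega⟩ hm hp
  refine ⟨x.1, hx, ?_⟩
  rw [e _ (by simp only at hx; omega), e _ (by simp only at hx; omega)]
  exact hne

theorem lam_sf (n : ℕ) : SF lam n := by
  have h : ∀ k, SF lam (13 ^ k * 5) := by
    intro k
    induction k with
    | zero => simpa using lam_sf5
    | succ k ih =>
      have h1 := lee_sf lam (13 ^ k * 5) (by have := Nat.one_le_pow k 13 (by norm_num); omega) ih
      have e : 13 ^ (k + 1) * 5 = 13 * (13 ^ k * 5) := by rw [pow_succ]; ring
      rw [e]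
      apply SF.map (Fin.val)
      refine h1.congr ?_
      intro i _
      show dg (lN (lam (i / 13))) (i % 13) = (lam i).1
      rw [← lee_dg _ _ (Nat.mod_lt _ (by norm_num)), ← lam_eq]
  intro p m hm hp
  have h2 : n < 13 ^ n := Nat.lt_pow_self (by norm_num)
  exact h n p m hm (by omega)

/-- the letters of the word `x # y`, where `x` is the reverse of the first `n` letters of `lam` and
`y` is `lam` -/
def V (n i : ℕ) : Option (Fin 3) :=
  if i < n then some (lam (n - 1 - i)) else if i = n then none else some (lam (i - (n + 1)))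

theorem V_lt {n i : ℕ} (h : i < n) : V n i = some (lam (n - 1 - i)) := by
  unfold V
  rw [if_pos h]

theorem V_mid (n : ℕ) : V n n = none := by
  unfold V
  rw [if_neg (by omega), if_pos rfl]

theorem V_gt {n i : ℕ} (h : n < i) : V n i = some (lam (i - (n + 1))) := by
  unfold V
  rw [if_neg (by omega), if_neg (by omega)]

theorem V_sf (n N : ℕ) : SF (V n) N := by
  intro p m hm hp
  by_contra hcon
  push Not at hcon
  rcases Nat.lt_or_ge n p with h1 | h1
  · obtain ⟨x, hx, hne⟩ := lam_sf N (p - (n + 1)) m hm (by omega)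
    apply hne
    have := hcon x hx
    rw [V_gt (by omega), V_gt (by omega), Option.some.injEq] at this
    have e1 : p - (n + 1) + x = p + x - (n + 1) := by omega
    have e2 : p - (n + 1) + m + x = p + m + x - (n + 1) := by omega
    rw [e1, e2]
    exact this
  · rcases Nat.lt_or_ge n (p + 2 * m) with h2 | h2
    · rcases Nat.lt_or_ge (n - p) m with h3 | h3
      · have := hcon (n - p) h3
        have e1 : p + (n - p) = n := by omega
        rw [e1, V_mid, V_gt (by omega)] at this
        simp at this
      · have := hcon (n - p - m) (by omega)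
        have e1 : p + m + (n - p - m) = n := by omega
        rw [e1, V_mid, V_lt (by omega)] at this
        simp at this
    · obtain ⟨x, hx, hne⟩ := (lam_sf n).reverse p m hm h2
      apply hne
      have := hcon x hx
      rw [V_lt (by omega), V_lt (by omega), Option.some.injEq] at this
      exact this

/-- every window of sixteen letters contains the letter `0` -/
theorem V_zero (n i : ℕ) (hn : 0 < n) : ∃ z, i ≤ z ∧ z < i + 16 ∧ V n z = some 0 := by
  have hl : ∀ a : Fin 3, ∃ x : Fin 3, (lee a).getD x.1 0 = 0 := by decide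
  have hz : ∀ i, ∃ z, i ≤ z ∧ z < i + 16 ∧ lam z = 0 := by
    intro i
    obtain ⟨x, hx⟩ := hl (lam ((i + 12) / 13))
    refine ⟨13 * ((i + 12) / 13) + x.1, by omega, by omega, ?_⟩
    have := x.2
    rw [lam_eq]
    have e1 : (13 * ((i + 12) / 13) + x.1) / 13 = (i + 12) / 13 := by omega
    have e2 : (13 * ((i + 12) / 13) + x.1) % 13 = x.1 := by omega
    rw [e1, e2, hx]
  rcases lt_trichotomy i n with h | h | h
  · rcases Nat.lt_or_ge (i + 15) n with h2 | h2
    · obtain ⟨z, h3, h4, h5⟩ := hz (n - 1 - (i + 15))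
      refine ⟨n - 1 - z, by omega, by omega, ?_⟩
      rw [V_lt (by omega)]
      have e : n - 1 - (n - 1 - z) = z := by omega
      rw [e, h5]
    · refine ⟨n - 1, by omega, by omega, ?_⟩
      rw [V_lt (by omega), Nat.sub_self, lam_zero]
  · refine ⟨n + 1, by omega, by omega, ?_⟩
    rw [V_gt (by omega), Nat.sub_self, lam_zero]
  · obtain ⟨z, h3, h4, h5⟩ := hz (i - (n + 1))
    refine ⟨z + (n + 1), by omega, by omega, ?_⟩
    rw [V_gt (by omega), Nat.add_sub_cancel, h5]

end Pool.CoCF
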