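import Pool.Agent.CoCF.TGen
import Pool.Agent.CoCF.TWord

/-!
The two automata with one turn.
-/

set_option autoImplicit false

namespace Pool.CoCF

/-- states of the first automaton: nothing pushed; pushing; comparing; done -/
inductive QA
  | p0
  | p1
  | r
  | d
  deriving DecidableEq, Fintype

/-- the first automaton: a word `x # y` such that the reverse of `x` is a prefix of `y` and the
last letter of `x` is `0`; the first letter pushed is marked -/
def stpA : QA → Option (Fin 3) → Option (Fin 3 × Bool) → Option (QA × List (Fin 3 × Bool))
  | .p0, some x, none => some (.p1, [(x, true)])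
  | .p1, some x, t => some (.p1, (x, false) :: t.toList)
  | .p1, none, some (x, f) => if x = 0 then some (.r, [(x, f)]) else none
  | .r, some y, some (x, f) => if y = x then some (if f then .d else .r, []) else none
  | .d, some _, t => some (.d, t.toList)
  | _, _, _ => none

/-- states of the second automaton: pushing; comparing, the next letter is the letter `j` of the
code word of `a` (for `j = 0`, of the code word of the top symbol) -/
inductive QB
  | push
  | c (a : Fin 3) (j : Fin 13)
  deriving DecidableEq, Fintype

/-- the second automaton: a word `x # y` such that `y` is a prefix of the image of the reverse of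
`x` -/
def stpB : QB → Option (Fin 3) → Option (Fin 3) → Option (QB × List (Fin 3))
  | .push, some x, t => some (.push, x :: t.toList)
  | .push, none, t => some (.c 0 0, t.toList)
  | .c _ _, none, _ => none
  | .c a j, some y, t =>
    if j = 0 then
      match t with
      | some a' => if y = (lee a').getD 0 0 then some (.c a' 1, []) else none
      | none => none
    else if y = (lee a).getD j.1 0 then some (.c a (j + 1), t.toList) else none

theorem oneTurnA (F : Set QA) : (gcod stpA .p0 F).OneTurn := by
  refine gcod_oneTurn stpA .p0 F (fun q => q = .r ∨ q = .d) ?_ ?_
  · intro q g t p h hq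
    cases q with
    | p0 =>
      cases g with
      | none => simp [stpA] at h
      | some x =>
        cases t with
        | none => simp [stpA] at h; subst h; simp
        | some t => simp [stpA] at h
    | p1 =>
      cases g with
      | none =>
        cases t with
        | none => simp [stpA] at h
        | some t =>
          obtain ⟨x, f⟩ := t
          simp only [stpA] at h
          split_ifs at h
          simp only [Option.some.injEq] at h
          subst h
          simp
      | some x => simp [stpA] at h; subst h; simp
    | r => simp at hq
    | d => simp at hq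
  · intro q g t p h hq
    cases q with
    | p0 => simp at hq
    | p1 => simp at hq
    | r =>
      cases g with
      | none => simp [stpA] at h
      | some y =>
        cases t with
        | none => simp [stpA] at h
        | some t =>
          obtain ⟨x, f⟩ := t
          simp only [stpA] at h
          split_ifs at h <;> simp only [Option.some.injEq] at h <;> subst h <;> simp
    | d =>
      cases g with
      | none => simp [stpA] at h
      | some y => simp [stpA] at h; subst h; simp

theorem oneTurnB (F : Set QB) : (gcod stpB .push F).OneTurn := by
  refine gcod_oneTurn stpB .push F (fun q => q ≠ .push) ?_ ?_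
  · intro q g t p h hq
    have hq' : q = .push := by
      by_contra hne
      exact hq hne
    subst hq'
    cases g with
    | none => simp [stpB] at h; subst h; simp
    | some x => simp [stpB] at h; subst h; simp
  · intro q g t p h hq
    cases q with
    | push => simp at hq
    | c a j =>
      cases g with
      | none => simp [stpB] at h
      | some y =>
        cases t with
        | none =>
          simp only [stpB] at h
          split_ifs at h
          simp only [Option.some.injEq] at h
          subst h
          simp
        | some a' =>
          simp only [stpB] at h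
          split_ifs at h <;> simp only [Option.some.injEq] at h <;> subst h <;> simp

/-- the stack of the first automaton -/
def flg : List (Fin 3) → List (Fin 3 × Bool)
  | [] => []
  | [a] => [(a, true)]
  | a :: b :: l => (a, false) :: flg (b :: l)

theorem flg_push (a : Fin 3) (v : List (Fin 3)) (hv : v ≠ []) :
    flg (a :: v) = (a, false) :: flg v := by
  cases v with
  | nil => exact absurd rfl hv
  | cons b l => rfl

theorem A_push (x : List (Fin 3)) (hx : x ≠ []) :
    grn stpA (some (.p0, [])) (x.map some) = some (.p1, flg x.reverse) := by
  induction x using List.reverseRecOn with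
  | nil => exact absurd rfl hx
  | append_singleton x a ih =>
    rw [List.map_append, List.map_singleton, grn_snoc, List.reverse_append, List.reverse_singleton]
    by_cases h : x = []
    · subst h
      rfl
    · rw [ih h]
      have h2 : x.reverse ≠ [] := by simpa using h
      show _ = some (QA.p1, flg (a :: x.reverse))
      rw [flg_push a _ h2]
      simp only [gnx, Option.bind_some, stpA, Option.map_some, List.cons_append, head_tail']

theorem A_marker (v : List (Fin 3)) (hv : v ≠ []) :
    gnx stpA (some (.p1, flg v)) none = if v.getD 0 0 = 0 then some (.r, flg v) else none := by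
  match v, hv with
  | [a], _ =>
    simp only [flg, gnx, Option.bind_some, List.head?_cons, stpA, List.getD_cons_zero]
    split_ifs <;> rfl
  | a :: b :: l, _ =>
    simp only [flg, gnx, Option.bind_some, List.head?_cons, stpA, List.getD_cons_zero]
    split_ifs <;> rfl

theorem A_done (y : List (Fin 3)) : grn stpA (some (.d, [])) (y.map some) = some (.d, []) := by
  induction y with
  | nil => rfl
  | cons g y ih => exact ih

theorem A_pop (y : List (Fin 3)) : ∀ v : List (Fin 3), v ≠ [] →
    ((∀ st, grn stpA (some (.r, flg v)) (y.map some) = some (.d, st) → v <+: y) ∧
      (v <+: y → grn stpA (some (.r, flg v)) (y.map some) = some (.d, []))) := by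
  induction y with
  | nil =>
    intro v hv
    constructor
    · intro st h
      rw [List.map_nil, grn_nil] at h
      simp at h
    · intro h
      exact absurd (List.prefix_nil.1 h) hv
  | cons g y ih =>
    intro v hv
    rw [List.map_cons, grn_cons]
    match v, hv with
    | [a], _ =>
      by_cases hg : g = a
      · have e : gnx stpA (some (.r, flg [a])) (some g) = some (.d, []) := by
          simp [flg, gnx, stpA, hg]
        rw [e, A_done]
        refine ⟨fun _ _ => ?_, fun _ => rfl⟩
        rw [hg]
        exact ⟨y, rfl⟩
      · have e : gnx stpA (some (.r, flg [a])) (some g) = none := by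
          simp [flg, gnx, stpA, hg]
        rw [e, grn_none]
        refine ⟨fun st h => ?_, fun h => ?_⟩
        · simp at h
        · exact absurd (List.cons_prefix_cons.1 h).1.symm hg
    | a :: b :: l, _ =>
      by_cases hg : g = a
      · have e : gnx stpA (some (.r, flg (a :: b :: l))) (some g) = some (.r, flg (b :: l)) := by
          simp [flg, gnx, stpA, hg]
        rw [e]
        obtain ⟨h1, h2⟩ := ih (b :: l) (by simp)
        refine ⟨fun st h => ?_, fun h => ?_⟩
        · rw [hg]
          exact List.cons_prefix_cons.2 ⟨rfl, h1 st h⟩
        · exact h2 (List.cons_prefix_cons.1 h).2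
      · have e : gnx stpA (some (.r, flg (a :: b :: l))) (some g) = none := by
          simp [flg, gnx, stpA, hg]
        rw [e, grn_none]
        refine ⟨fun st h => ?_, fun h => ?_⟩
        · simp at h
        · exact absurd (List.cons_prefix_cons.1 h).1.symm hg

theorem A_some (l : List (Option (Fin 3))) : ∀ q st, (q = QA.r ∨ q = QA.d) →
    (grn stpA (some (q, st)) l).isSome → ∃ y : List (Fin 3), l = y.map some := by
  induction l with
  | nil =>
    intro q st _ _
    exact ⟨[], rfl⟩
  | cons g l ih =>
    intro q st hq h
    rw [grn_cons] at h
    cases g with
    | none =>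
      exfalso
      have e : gnx stpA (some (q, st)) none = none := by
        rcases hq with rfl | rfl <;> simp [gnx, stpA]
      rw [e, grn_none] at h
      simp at h
    | some x =>
      rcases hc : gnx stpA (some (q, st)) (some x) with _ | ⟨q', st'⟩
      · rw [hc, grn_none] at h
        simp at h
      · rw [hc] at h
        have hq' : q' = QA.r ∨ q' = QA.d := by
          simp only [gnx, Option.bind_some, Option.map_eq_some_iff] at hc
          obtain ⟨p, hp, he⟩ := hc
          rcases hq with rfl | rfl
          · cases hst : st.head? with
            | none => rw [hst] at hp; simp [stpA] at hp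
            | some t =>
              obtain ⟨x', f⟩ := t
              rw [hst] at hp
              simp only [stpA] at hp
              split_ifs at hp <;> simp only [Option.some.injEq] at hp <;> subst hp <;>
                simp only [Prod.mk.injEq] at he <;> simp [← he.1]
          · simp only [stpA, Option.some.injEq] at hp
            subst hp
            simp only [Prod.mk.injEq] at he
            right
            exact he.1.symm
        obtain ⟨y, hy⟩ := ih q' st' hq' h
        exact ⟨x :: y, by rw [hy]; rfl⟩

theorem split_none (l : List (Option (Fin 3))) : (∃ x : List (Fin 3), l = x.map some) ∨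
    ∃ (x : List (Fin 3)) (l' : List (Option (Fin 3))), l = x.map some ++ none :: l' := by
  induction l with
  | nil => exact Or.inl ⟨[], rfl⟩
  | cons g l ih =>
    cases g with
    | none => exact Or.inr ⟨[], l, rfl⟩
    | some a =>
      rcases ih with ⟨x, hx⟩ | ⟨x, l', hx⟩
      · exact Or.inl ⟨a :: x, by rw [hx]; rfl⟩
      · exact Or.inr ⟨a :: x, l', by rw [hx]; rfl⟩

theorem A_form (b : List (Option (Fin 3))) (st : List (Fin 3 × Bool))
    (h : grn stpA (some (.p0, [])) b = some (.d, st)) :
    ∃ v y : List (Fin 3), v ≠ [] ∧ v.getD 0 0 = 0 ∧ v <+: y ∧
      b = v.reverse.map some ++ none :: y.map some := by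
  rcases split_none b with ⟨x, rfl⟩ | ⟨x, l', rfl⟩
  · exfalso
    by_cases hx : x = []
    · subst hx
      rw [List.map_nil, grn_nil] at h
      simp at h
    · rw [A_push x hx] at h
      simp at h
  · rw [grn_append] at h
    by_cases hx : x = []
    · subst hx
      exfalso
      rw [List.map_nil, grn_nil, grn_cons] at h
      have e : gnx stpA (some (.p0, [])) none = none := rfl
      rw [e, grn_none] at h
      simp at h
    · have hx' : x.reverse ≠ [] := by simpa using hx
      rw [A_push x hx, grn_cons, A_marker _ hx'] at h
      split_ifs at h with h0
      · obtain ⟨y, rfl⟩ := A_some l' .r _ (Or.inl rfl) (by rw [h]; rfl)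
        refine ⟨x.reverse, y, hx', h0, (A_pop y _ hx').1 st h, by rw [List.reverse_reverse]⟩
      · rw [grn_none] at h
        simp at h

theorem A_acc (v y : List (Fin 3)) (hv : v ≠ []) (h0 : v.getD 0 0 = 0) (hp : v <+: y) :
    grn stpA (some (.p0, [])) (v.reverse.map some ++ none :: y.map some) = some (.d, []) := by
  rw [grn_append, A_push _ (by simpa using hv), grn_cons, List.reverse_reverse, A_marker _ hv,
    if_pos h0]
  exact (A_pop y v hv).2 hp

theorem B_push (x : List (Fin 3)) :
    grn stpB (some (.push, [])) (x.map some) = some (.push, x.reverse) := by
  induction x using List.reverseRecOn with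
  | nil => rfl
  | append_singleton x a ih =>
    rw [List.map_append, List.map_singleton, grn_snoc, List.reverse_append,
      List.reverse_singleton, ih]
    simp only [gnx, Option.bind_some, stpB, Option.map_some, List.cons_append, head_tail']
    rfl

theorem B_marker (v : List (Fin 3)) :
    gnx stpB (some (.push, v)) none = some (.c 0 0, v) := by
  simp only [gnx, Option.bind_some, stpB, Option.map_some, head_tail']

/-- the letter `j` of the image of `v` -/
def E (v : List (Fin 3)) (j : ℕ) : Fin 3 := (lee (v.getD (j / 13) 0)).getD (j % 13) 0

/-- the second automaton has compared `L` letters -/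
def InvB (v : List (Fin 3)) (L : ℕ) (c : Option (QB × List (Fin 3))) : Prop :=
  ∃ (a : Fin 3) (j : Fin 13), c = some (.c a j, v.drop ((L + 12) / 13)) ∧ j.1 = L % 13 ∧
    (L % 13 ≠ 0 → a = v.getD (L / 13) 0) ∧ L ≤ 13 * v.length

theorem invB_zero (v : List (Fin 3)) : InvB v 0 (some (.c 0 0, v)) :=
  ⟨0, 0, rfl, rfl, fun h => absurd rfl h, Nat.zero_le _⟩

theorem invB_step {v : List (Fin 3)} {L : ℕ} {c : Option (QB × List (Fin 3))} (h : InvB v L c)
    (g : Option (Fin 3)) : ((gnx stpB c g).isSome → L < 13 * v.length ∧ g = some (E v L)) ∧
      (L < 13 * v.length → g = some (E v L) → InvB v (L + 1) (gnx stpB c g)) := by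
  obtain ⟨a, j, rfl, hj, ha, hL⟩ := h
  cases g with
  | none =>
    refine ⟨fun h => ?_, fun _ h => ?_⟩
    · simp [gnx, stpB] at h
    · simp at h
  | some y =>
    by_cases h0 : L % 13 = 0
    · have hj0 : j = 0 := Fin.ext (by rw [hj, h0]; rfl)
      have hd : (L + 12) / 13 = L / 13 := by omega
      rw [hd]
      rcases Nat.lt_or_ge (L / 13) v.length with hl | hl
      · have hh : (v.drop (L / 13)).head? = some (v.getD (L / 13) 0) := by
          rw [List.head?_drop, List.getElem?_eq_getElem hl, List.getD_eq_getElem _ _ hl]
        have hE : E v L = (lee (v.getD (L / 13) 0)).getD 0 0 := by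
          unfold E
          rw [h0]
        by_cases hy : y = (lee (v.getD (L / 13) 0)).getD 0 0
        · refine ⟨fun _ => ⟨by omega, by rw [hE, hy]⟩, fun _ _ => ?_⟩
          refine ⟨v.getD (L / 13) 0, 1, ?_, ?_, ?_, by omega⟩
          · simp only [gnx, Option.bind_some, hh, stpB, hj0, if_true, if_pos hy, Option.map_some,
              List.nil_append, List.tail_drop]
            congr 3
            omega
          · show 1 = (L + 1) % 13
            omega
          · intro _
            congr 1
            omega
        · refine ⟨fun h => ?_, fun _ h => ?_⟩
          · simp only [gnx, Option.bind_some, hh, stpB, hj0, if_true, if_neg hy, Option.map_none,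
              Option.isSome_none] at h
            cases h
          · rw [hE, Option.some.injEq] at h
            exact absurd h hy
      · refine ⟨fun h => ?_, fun h => ?_⟩
        · exfalso
          have hn : v.drop (L / 13) = [] := List.drop_eq_nil_of_le hl
          rw [hn, hj0] at h
          simp [gnx, stpB] at h
        · omega
    · have hjn : j ≠ 0 := by
        intro hj2
        rw [hj2] at hj
        exact h0 (by rw [← hj]; rfl)
      have ha' := ha h0
      have hE : E v L = (lee a).getD j.1 0 := by
        unfold E
        rw [ha', hj]
      have hLl : L < 13 * v.length := by omega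
      by_cases hy : y = (lee a).getD j.1 0
      · refine ⟨fun _ => ⟨hLl, by rw [hE, hy]⟩, fun _ _ => ?_⟩
        refine ⟨a, j + 1, ?_, ?_, ?_, by omega⟩
        · simp only [gnx, Option.bind_some, stpB, if_neg hjn, if_pos hy, Option.map_some,
            head_tail']
          congr 3
          omega
        · have hj13 := j.2
          rw [Fin.val_add]
          show (j.1 + 1) % 13 = (L + 1) % 13
          omega
        · intro h1
          rw [ha']
          congr 1
          omega
      · refine ⟨fun h => ?_, fun _ h => ?_⟩
        · simp only [gnx, Option.bind_some, stpB, if_neg hjn, if_neg hy, Option.map_none,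
            Option.isSome_none] at h
          cases h
        · rw [hE, Option.some.injEq] at h
          exact absurd h hy

theorem B_form (v : List (Fin 3)) (l : List (Option (Fin 3)))
    (h : (grn stpB (some (.c 0 0, v)) l).isSome) :
    l.length ≤ 13 * v.length ∧ l = (List.range l.length).map (fun j => some (E v j)) ∧
      InvB v l.length (grn stpB (some (.c 0 0, v)) l) := by
  induction l using List.reverseRecOn with
  | nil => exact ⟨Nat.zero_le _, rfl, invB_zero v⟩
  | append_singleton l g ih =>
    rw [grn_snoc] at h ⊢
    have h1 : (grn stpB (some (.c 0 0, v)) l).isSome := by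
      by_contra hn
      rw [Option.not_isSome_iff_eq_none] at hn
      rw [hn] at h
      simp [gnx] at h
    obtain ⟨h2, h3, h4⟩ := ih h1
    obtain ⟨h5, h6⟩ := invB_step h4 g
    obtain ⟨h7, h8⟩ := h5 h
    rw [List.length_append, List.length_singleton]
    refine ⟨by omega, ?_, h6 h7 h8⟩
    rw [List.range_succ, List.map_append, ← h3, h8]
    rfl

theorem B_acc (v : List (Fin 3)) (L : ℕ) (hL : L ≤ 13 * v.length) :
    InvB v L (grn stpB (some (.c 0 0, v)) ((List.range L).map (fun j => some (E v j)))) := by
  induction L with
  | zero => exact invB_zero v
  | succ L ih =>
    rw [List.range_succ, List.map_append, List.map_singleton, grn_snoc]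
    exact (invB_step (ih (by omega)) _).2 (by omega) rfl

end Pool.CoCF
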