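import Pool.Agent.CoCF.Auto

/-!
Automata whose stack makes at most one turn.
-/

set_option autoImplicit false

namespace Pool.CoCF

/-- on every input word the stack first never gets shorter and then never gets longer -/
def Automaton.OneTurn {X : Type} (M : Automaton X) : Prop :=
  ∀ w : List X, ∃ m : ℕ, ∀ t : ℕ,
    (t < m → (M.run (w.take t)).2.length ≤ (M.run (w.take (t + 1))).2.length) ∧
    (m ≤ t → (M.run (w.take (t + 1))).2.length ≤ (M.run (w.take t)).2.length)

end Pool.CoCF
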