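import Pool.Agent.CoCF.Leech

/-!
The blocks `B k` and the words `P k`, and their square-freeness.
-/

set_option autoImplicit false

namespace Pool.CoCF

theorem flatMap_len {A C : Type} (f : A → List C) (r : ℕ) (hf : ∀ a, (f a).length = r)
    (l : List A) : (l.flatMap f).length = r * l.length := by
  induction l with
  | nil => simp
  | cons a l ih =>
    rw [List.flatMap_cons, List.length_append, ih, hf, List.length_cons]
    ring

theorem flatMap_getD {A C : Type} (f : A → List C) (r : ℕ) (hr : 0 < r)
    (hf : ∀ a, (f a).length = r) (a0 : A) (c0 : C) (l : List A) (y : ℕ)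
    (hy : y < r * l.length) :
    (l.flatMap f).getD y c0 = (f (l.getD (y / r) a0)).getD (y % r) c0 := by
  induction l generalizing y with
  | nil => simp at hy
  | cons a l ih =>
    rw [List.flatMap_cons]
    rcases Nat.lt_or_ge y r with h | h
    · rw [List.getD_append _ _ _ _ (by rw [hf]; exact h), Nat.div_eq_of_lt h,
        Nat.mod_eq_of_lt h, List.getD_cons_zero]
    · obtain ⟨z, rfl⟩ : ∃ z, y = r + z := ⟨y - r, by omega⟩
      rw [List.getD_append_right _ _ _ _ (by rw [hf]; exact h), hf, Nat.add_sub_cancel_left, ih z,
        Nat.add_mod_left]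
      · have e : (r + z) / r = z / r + 1 := by
          rw [Nat.add_comm, Nat.add_div_right _ hr]
        rw [e, List.getD_cons_succ]
      · rw [List.length_cons, Nat.mul_add, Nat.mul_one] at hy
        omega

/-- the blocks -/
def B : ℕ → List (Fin 3)
  | 0 => [0, 1].flatMap lee
  | k + 1 => (B k).reverse.flatMap lee

/-- the length of `B k` -/
def ll (k : ℕ) : ℕ := 26 * 13 ^ k

theorem B_len (k : ℕ) : (B k).length = ll k := by
  induction k with
  | zero => rw [B, flatMap_len _ 13 lee_len, ll]; simp
  | succ k ih =>
    rw [B, flatMap_len _ 13 lee_len, List.length_reverse, ih, ll, ll, pow_succ]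
    ring

theorem ll_pos (k : ℕ) : 26 ≤ ll k := by
  unfold ll
  have : 1 ≤ 13 ^ k := Nat.one_le_pow _ _ (by norm_num)
  omega

theorem ll_lt {j k : ℕ} (h : j < k) : ll j < ll k := by
  unfold ll
  have : 13 ^ j < 13 ^ k := Nat.pow_lt_pow_right (by norm_num) h
  omega

theorem reverse_getD {α : Type} (l : List α) (d : α) (i : ℕ) (hi : i < l.length) :
    l.reverse.getD i d = l.getD (l.length - 1 - i) d := by
  rw [List.getD_eq_getElem _ _ (by simpa using hi), List.getD_eq_getElem _ _ (by omega),
    List.getElem_reverse]

theorem B_sf0 : ∀ p : Fin 27, ∀ m : Fin 14, 0 < m.1 → p.1 + 2 * m.1 ≤ 26 →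
    ∃ x : Fin 14, x.1 < m.1 ∧ (B 0).getD (p.1 + x.1) 0 ≠ (B 0).getD (p.1 + m.1 + x.1) 0 := by
  decide +kernel

theorem B_succ_getD (k y : ℕ) (hy : y < 13 * ll k) :
    (B (k + 1)).getD y 0 = (lee ((B k).reverse.getD (y / 13) 0)).getD (y % 13) 0 := by
  rw [B, flatMap_getD lee 13 (by norm_num) lee_len 0]
  rw [List.length_reverse, B_len]
  exact hy

theorem B_sf (k : ℕ) : SF (fun i => (B k).getD i 0) (ll k) := by
  induction k with
  | zero =>
    intro p m hm hp
    rw [ll, pow_zero, mul_one] at hp
    obtain ⟨x, hx, hne⟩ := B_sf0 ⟨p, by omega⟩ ⟨m, by omega⟩ hm hp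
    exact ⟨x.1, hx, hne⟩
  | succ k ih =>
    have h1 : SF (fun i => (B k).reverse.getD i 0) (ll k) := by
      refine ih.reverse.congr ?_
      intro i hi
      rw [← B_len] at hi ⊢
      exact (reverse_getD _ _ _ hi).symm
    have h2 := lee_sf _ (ll k) (by have := ll_pos k; omega) h1
    have h3 : ll (k + 1) = 13 * ll k := by
      unfold ll
      rw [pow_succ]
      ring
    rw [h3]
    apply SF.map (Fin.val : Fin 3 → ℕ)
    refine h2.congr ?_
    intro y hy
    rw [B_succ_getD k y hy, lee_dg _ _ (Nat.mod_lt _ (by norm_num))]
    rfl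

theorem lee_fst : ∀ a : Fin 3, (lee a).getD 0 0 = a := by decide

theorem lee_lst : ∀ a : Fin 3, (lee a).getD 12 0 = a := by decide

theorem fst_succ (k : ℕ) : (B (k + 1)).getD 0 0 = (B k).getD (ll k - 1) 0 := by
  have h := ll_pos k
  rw [B_succ_getD k 0 (by omega), Nat.zero_div, Nat.zero_mod, lee_fst,
    reverse_getD _ _ _ (by rw [B_len]; omega), B_len, Nat.sub_zero]

theorem lst_succ (k : ℕ) : (B (k + 1)).getD (ll (k + 1) - 1) 0 = (B k).getD 0 0 := by
  have h := ll_pos k
  have h3 : ll (k + 1) = 13 * ll k := by
    unfold ll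
    rw [pow_succ]
    ring
  rw [h3, B_succ_getD k _ (by omega)]
  have e1 : (13 * ll k - 1) / 13 = ll k - 1 := by omega
  have e2 : (13 * ll k - 1) % 13 = 12 := by omega
  rw [e1, e2, lee_lst, reverse_getD _ _ _ (by rw [B_len]; omega), B_len, Nat.sub_self]

theorem fst_ne_lst (k : ℕ) : (B k).getD 0 0 ≠ (B k).getD (ll k - 1) 0 := by
  induction k with
  | zero => decide +kernel
  | succ k ih =>
    rw [fst_succ, lst_succ]
    exact ih.symm

theorem fst_ne (k : ℕ) : (B k).getD 0 0 ≠ (B (k + 1)).getD 0 0 := by
  rw [fst_succ]
  exact fst_ne_lst k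

/-- the words with markers -/
def P : ℕ → List (Option (Fin 3))
  | 0 => []
  | k + 1 => P k ++ (B k).map some ++ [none]

/-- the length of `P k` -/
def EE (k : ℕ) : ℕ := (P k).length

theorem EE_zero : EE 0 = 0 := rfl

theorem EE_succ (k : ℕ) : EE (k + 1) = EE k + ll k + 1 := by
  unfold EE
  rw [P, List.length_append, List.length_append, List.length_map, B_len]
  rfl

theorem EE_mono {j k : ℕ} (h : j < k) : EE (j + 1) ≤ EE k := by
  induction k with
  | zero => omega
  | succ k ih =>
    rcases Nat.lt_or_ge j k with h1 | h1
    · have := ih h1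
      rw [EE_succ k]
      omega
    · have : j = k := by omega
      rw [this]

theorem P_some (k j y : ℕ) (hj : j < k) (hy : y < ll j) :
    (P k).getD (EE j + y) none = some ((B j).getD y 0) := by
  induction k with
  | zero => omega
  | succ k ih =>
    rcases Nat.lt_or_ge j k with h1 | h1
    · have h2 := EE_mono h1
      rw [EE_succ] at h2
      have h3 : EE j + y < (P k).length := by
        have : EE k = (P k).length := rfl
        omega
      rw [P, List.getD_append _ _ _ _ (by rw [List.length_append]; omega),
        List.getD_append _ _ _ _ h3]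
      exact ih h1
    · have hjk : j = k := by omega
      subst hjk
      have e : EE j = (P j).length := rfl
      rw [P, List.getD_append _ _ _ _ (by
          rw [List.length_append, List.length_map, B_len]; omega),
        List.getD_append_right _ _ _ _ (by omega), e, Nat.add_sub_cancel_left,
        List.getD_eq_getElem _ _ (by rw [List.length_map, B_len]; exact hy), List.getElem_map,
        List.getD_eq_getElem _ _ (by rw [B_len]; exact hy)]

theorem P_none (k j : ℕ) (hj : j < k) : (P k).getD (EE j + ll j) none = none := by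
  induction k with
  | zero => omega
  | succ k ih =>
    rcases Nat.lt_or_ge j k with h1 | h1
    · have h2 := EE_mono h1
      rw [EE_succ] at h2
      have h3 : EE j + ll j < (P k).length := by
        have : EE k = (P k).length := rfl
        omega
      rw [P, List.getD_append _ _ _ _ (by rw [List.length_append]; omega),
        List.getD_append _ _ _ _ h3]
      exact ih h1
    · have hjk : j = k := by omega
      subst hjk
      have e : EE j = (P j).length := rfl
      rw [P, List.getD_append_right _ _ _ _ (by
          rw [List.length_append, List.length_map, B_len]; omega),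
        List.length_append, List.length_map, B_len, e, Nat.sub_self]
      rfl

theorem P_pos (k i : ℕ) (hi : i < EE k) : ∃ j y, j < k ∧ y ≤ ll j ∧ i = EE j + y := by
  induction k with
  | zero => rw [EE_zero] at hi; omega
  | succ k ih =>
    rcases Nat.lt_or_ge i (EE k) with h1 | h1
    · obtain ⟨j, y, h2, h3, h4⟩ := ih h1
      exact ⟨j, y, by omega, h3, h4⟩
    · rw [EE_succ] at hi
      exact ⟨k, i - EE k, by omega, by omega, by omega⟩

theorem P_marker (k i : ℕ) (hi : i < EE k) (h : (P k).getD i none = none) :
    ∃ j, j < k ∧ i = EE j + ll j := by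
  obtain ⟨j, y, h1, h2, h3⟩ := P_pos k i hi
  rcases Nat.lt_or_ge y (ll j) with h4 | h4
  · rw [h3, P_some k j y h1 h4] at h
    cases h
  · exact ⟨j, h1, by omega⟩

theorem mu_lt {j k : ℕ} (h : j < k) : EE j + ll j < EE k + ll k := by
  have h1 := EE_mono h
  rw [EE_succ] at h1
  omega

theorem P_sf (k : ℕ) : SF (fun i => (P k).getD i none) (EE k) := by
  intro p m hm hp
  by_contra hcon
  push Not at hcon
  have hW : ∀ z, p ≤ z → z < p + m → (P k).getD z none = (P k).getD (z + m) none := by
    intro z h1 h2
    have h3 := hcon (z - p) (by omega)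
    have e1 : p + (z - p) = z := by omega
    have e2 : p + m + (z - p) = z + m := by omega
    rw [e1, e2] at h3
    exact h3
  obtain ⟨j, y, hj, hy, rfl⟩ := P_pos k p (by omega)
  rcases Nat.lt_or_ge (ll j) (y + m) with hA | hA
  · have h1 : (P k).getD (EE j + ll j + m) none = none := by
      rw [← hW (EE j + ll j) (by omega) (by omega)]
      exact P_none k j hj
    obtain ⟨j', hj', he'⟩ := P_marker k _ (by omega) h1
    have hjj' : j < j' := by
      by_contra hc
      rcases Nat.eq_or_lt_of_le (Nat.le_of_not_lt hc) with h2 | h2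
      · subst h2; omega
      · have := mu_lt h2; omega
    have hj1 : j + 1 < k := by omega
    have s1 := EE_succ j
    rcases Nat.lt_or_ge (EE (j + 1) + ll (j + 1)) (EE j + y + m) with hB | hB
    · have h2 : (P k).getD (EE (j + 1) + ll (j + 1) + m) none = none := by
        rw [← hW (EE (j + 1) + ll (j + 1)) (by omega) (by omega)]
        exact P_none k (j + 1) hj1
      obtain ⟨j'', hj'', he''⟩ := P_marker k _ (by omega) h2
      have h3 : j' < j'' := by
        by_contra hc
        rcases Nat.eq_or_lt_of_le (Nat.le_of_not_lt hc) with h4 | h4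
        · subst h4; omega
        · have := mu_lt h4; omega
      have s2 := EE_succ j'
      rcases Nat.eq_or_lt_of_le h3 with h4 | h4
      · rw [← h4, Nat.succ_eq_add_one] at he''
        have h5 := ll_lt (j := j + 1) (k := j' + 1) (by omega)
        omega
      · have h5 := mu_lt h4
        rw [Nat.succ_eq_add_one] at h5
        have h6 := hW (EE (j' + 1) + ll (j' + 1) - m) (by omega) (by omega)
        have e1 : EE (j' + 1) + ll (j' + 1) - m =
          EE (j + 1) + (EE (j' + 1) + ll (j' + 1) - m - EE (j + 1)) := by omega
        have e2 : EE (j' + 1) + ll (j' + 1) - m + m = EE (j' + 1) + ll (j' + 1) := by omega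
        rw [e2, P_none k (j' + 1) (by omega), e1, P_some k (j + 1) _ hj1 (by omega)] at h6
        cases h6
    · have h3 : j' = j + 1 := by
        by_contra hc
        have h4 : j + 1 < j' := by omega
        have h5 := mu_lt h4
        have h6 := hW (EE (j + 1) + ll (j + 1) - m) (by omega) (by omega)
        have e1 : EE (j + 1) + ll (j + 1) - m =
          EE j + (EE (j + 1) + ll (j + 1) - m - EE j) := by omega
        have e2 : EE (j + 1) + ll (j + 1) - m + m = EE (j + 1) + ll (j + 1) := by omega
        rw [e2, P_none k (j + 1) hj1, e1, P_some k j _ hj (by omega)] at h6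
        cases h6
      subst h3
      have s2 := EE_succ (j + 1)
      rcases Nat.lt_or_ge (EE j + ll j + 1) (EE j + y + m) with hC | hC
      · have h7 : j + 2 < k := by
          by_contra hc
          have h8 : k = j + 1 + 1 := by omega
          subst h8
          omega
        have h6 := hW (EE (j + 1) + 0) (by omega) (by omega)
        have e1 : EE (j + 1) + 0 + m = EE (j + 1 + 1) + 0 := by omega
        rw [e1, P_some k (j + 1) 0 hj1 (by have := ll_pos (j + 1); omega),
          P_some k (j + 1 + 1) 0 h7 (by have := ll_pos (j + 1 + 1); omega)] at h6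
        exact fst_ne (j + 1) (Option.some.inj h6)
      · have h5 := ll_lt (j := j) (k := j + 1) (by omega)
        omega
  · rcases Nat.lt_or_ge (ll j) (y + 2 * m) with hA2 | hA2
    · have h6 := hW (EE j + (ll j - m)) (by omega) (by omega)
      have e2 : EE j + (ll j - m) + m = EE j + ll j := by omega
      rw [e2, P_none k j hj, P_some k j _ hj (by omega)] at h6
      cases h6
    · obtain ⟨x, hx, hne⟩ := B_sf j y m hm hA2
      apply hne
      have h6 := hcon x hx
      have e1 : EE j + y + x = EE j + (y + x) := by ring
      have e2 : EE j + y + m + x = EE j + (y + m + x) := by ring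
      rw [e1, e2, P_some k j _ hj (by omega), P_some k j _ hj (by omega)] at h6
      exact Option.some.inj h6

end Pool.CoCF
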