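import Pool.Agent.CoCF.Leech
import Pool.Agent.CoCF.Words
import Pool.Agent.CoCF.Turn

/-!
Automata over three letters made from automata over `Option (Fin 3)` by the code `gcode`, and the
number of turns of their stacks.
-/

set_option autoImplicit false

namespace Pool.CoCF

theorem oneTurn_of {X : Type} (M : Automaton X) (ph : M.State → Prop)
    (h0 : ∀ c x, ¬ ph c.1 → c.2.length ≤ (M.next c x).2.length)
    (h1 : ∀ c x, ph c.1 → (M.next c x).2.length ≤ c.2.length ∧ ph (M.next c x).1) :
    M.OneTurn := by
  classical
  intro w
  have hstep : ∀ t, (∃ x, M.run (w.take (t + 1)) = M.next (M.run (w.take t)) x) ∨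
      M.run (w.take (t + 1)) = M.run (w.take t) := by
    intro t
    rcases Nat.lt_or_ge t w.length with h | h
    · left
      refine ⟨w[t], ?_⟩
      rw [List.take_succ_eq_append_getElem h]
      unfold Automaton.run
      rw [List.foldl_append]
      rfl
    · right
      rw [List.take_of_length_le h, List.take_of_length_le (by omega)]
  by_cases hex : ∃ t, ph (M.run (w.take t)).1
  · refine ⟨Nat.find hex, fun t => ⟨fun ht => ?_, fun ht => ?_⟩⟩
    · have h2 := Nat.find_min hex ht
      rcases hstep t with ⟨x, hx⟩ | hx
      · rw [hx]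
        exact h0 _ _ h2
      · rw [hx]
    · have h3 : ∀ t, Nat.find hex ≤ t → ph (M.run (w.take t)).1 := by
        intro t ht
        induction t, ht using Nat.le_induction with
        | base => exact Nat.find_spec hex
        | succ t _ ih =>
          rcases hstep t with ⟨x, hx⟩ | hx
          · rw [hx]
            exact (h1 _ _ ih).2
          · rw [hx]
            exact ih
      rcases hstep t with ⟨x, hx⟩ | hx
      · rw [hx]
        exact (h1 _ _ (h3 t ht)).1
      · rw [hx]
  · refine ⟨w.length, fun t => ⟨fun _ => ?_, fun ht => ?_⟩⟩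
    · rcases hstep t with ⟨x, hx⟩ | hx
      · rw [hx]
        exact h0 _ _ (fun h => hex ⟨t, h⟩)
      · rw [hx]
    · rw [List.take_of_length_le ht, List.take_of_length_le (by omega)]

section

variable {Q S : Type} (stp : Q → Option (Fin 3) → Option S → Option (Q × List S))

/-- the step on configurations -/
def gnx (c : Option (Q × List S)) (g : Option (Fin 3)) : Option (Q × List S) :=
  c.bind (fun c => (stp c.1 g c.2.head?).map (fun p => (p.1, p.2 ++ c.2.tail)))

/-- the run -/
def grn (c : Option (Q × List S)) (b : List (Option (Fin 3))) : Option (Q × List S) :=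
  b.foldl (gnx stp) c

theorem grn_nil (c : Option (Q × List S)) : grn stp c [] = c := rfl

theorem grn_cons (c : Option (Q × List S)) (g : Option (Fin 3)) (b : List (Option (Fin 3))) :
    grn stp c (g :: b) = grn stp (gnx stp c g) b := rfl

theorem grn_append (c : Option (Q × List S)) (b b' : List (Option (Fin 3))) :
    grn stp c (b ++ b') = grn stp (grn stp c b) b' := by
  unfold grn
  rw [List.foldl_append]

theorem grn_snoc (c : Option (Q × List S)) (b : List (Option (Fin 3))) (g : Option (Fin 3)) :
    grn stp c (b ++ [g]) = gnx stp (grn stp c b) g := by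
  rw [grn_append]
  rfl

theorem grn_none (b : List (Option (Fin 3))) : grn stp none b = none := by
  induction b with
  | nil => rfl
  | cons g b ih => rw [grn_cons]; exact ih

open Classical in
/-- the step of the automaton over three letters -/
noncomputable def gcstep : Option (Q × Fin 5 × Fin 18) → Fin 3 → Option S →
    Option (Q × Fin 5 × Fin 18) × List S
  | none, _, t => (none, t.toList)
  | some (q, a, i), x, t =>
    if h : ∃ a' : Fin 5, (gcode a).take i.1 ++ [x] = (gcode a').take (i.1 + 1) ∧
        (stp q (pr a') t).isSome then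
      if h2 : i.1 + 1 < 18 then (some (q, h.choose, ⟨i.1 + 1, h2⟩), t.toList)
      else match stp q (pr h.choose) t with
        | none => (none, t.toList)
        | some p => (some (p.1, 0, 0), p.2)
    else (none, t.toList)

/-- the automaton over three letters; it does not accept if it is in a state of `F` -/
noncomputable def gcod [Finite Q] [Finite S] (q0 : Q) (F : Set Q) : Automaton (Fin 3) where
  State := Option (Q × Fin 5 × Fin 18)
  Symbol := S
  finiteState := inferInstance
  finiteSymbol := inferInstance
  start := some (q0, 0, 0)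
  stack := []
  step := gcstep stp
  accept := {c | ∀ q a i, c = some (q, a, i) → q ∉ F}

/-- the step on configurations -/
noncomputable def gcnx (c : Option (Q × Fin 5 × Fin 18) × List S) (x : Fin 3) :
    Option (Q × Fin 5 × Fin 18) × List S :=
  ((gcstep stp c.1 x c.2.head?).1, (gcstep stp c.1 x c.2.head?).2 ++ c.2.tail)

/-- the run -/
noncomputable def gcrn (q0 : Q) (w : List (Fin 3)) : Option (Q × Fin 5 × Fin 18) × List S :=
  w.foldl (gcnx stp) (some (q0, 0, 0), [])

theorem not_mem_gcod [Finite Q] [Finite S] (q0 : Q) (F : Set Q) (w : List (Fin 3)) :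
    w ∉ (gcod stp q0 F).language ↔ ∃ q a i, (gcrn stp q0 w).1 = some (q, a, i) ∧ q ∈ F := by
  have : w ∈ (gcod stp q0 F).language ↔
    ∀ q a i, (gcrn stp q0 w).1 = some (q, a, i) → q ∉ F := Iff.rfl
  rw [this]
  push Not
  rfl

theorem gcrn_snoc (q0 : Q) (w : List (Fin 3)) (x : Fin 3) :
    gcrn stp q0 (w ++ [x]) = gcnx stp (gcrn stp q0 w) x := by
  unfold gcrn
  rw [List.foldl_append]
  rfl

theorem gcode_inj' {a a' : Fin 5} (h : (gcode a).take 18 = (gcode a').take 18) : a = a' := by
  rw [List.take_of_length_le (by rw [gcode_len]), List.take_of_length_le (by rw [gcode_len])] at h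
  apply gN_inj'
  intro x
  rw [← gcode_dg' a x, ← gcode_dg' a' x, h]

theorem head_tail' {α : Type} (st : List α) : st.head?.toList ++ st.tail = st := by
  cases st <;> rfl

theorem gcrn_some (q0 : Q) (w : List (Fin 3)) :
    ∀ q a i st, gcrn stp q0 w = (some (q, a, i), st) →
      ∃ bs : List (Fin 5), w = bs.flatMap gcode ++ (gcode a).take i.1 ∧
        grn stp (some (q0, [])) (bs.map pr) = some (q, st) ∧
        (i.1 = 0 ∨ (gnx stp (some (q, st)) (pr a)).isSome) := by
  induction w using List.reverseRecOn with
  | nil =>
    intro q a i st h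
    have h' : ((some (q0, 0, 0), []) : Option (Q × Fin 5 × Fin 18) × List S) =
      (some (q, a, i), st) := h
    simp only [Prod.mk.injEq, Option.some.injEq] at h'
    obtain ⟨⟨rfl, rfl, rfl⟩, rfl⟩ := h'
    exact ⟨[], by simp, rfl, Or.inl rfl⟩
  | append_singleton w x ih =>
    intro q' a' i' st' h
    rw [gcrn_snoc] at h
    rcases hr : gcrn stp q0 w with ⟨c, st⟩
    rw [hr] at h
    cases c with
    | none => simp [gcnx, gcstep] at h
    | some c =>
      obtain ⟨q, a, i⟩ := c
      obtain ⟨bs, e1, e2, e4⟩ := ih q a i st hr
      by_cases hh : ∃ a' : Fin 5, (gcode a).take i.1 ++ [x] = (gcode a').take (i.1 + 1) ∧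
        (stp q (pr a') st.head?).isSome
      · have hsp := hh.choose_spec
        by_cases h2 : i.1 + 1 < 18
        · have hc : gcnx stp (some (q, a, i), st) x =
              (some (q, hh.choose, ⟨i.1 + 1, h2⟩), st) := by
            simp only [gcnx, gcstep, dif_pos hh, dif_pos h2, head_tail']
          rw [hc] at h
          simp only [Prod.mk.injEq, Option.some.injEq] at h
          obtain ⟨⟨rfl, rfl, rfl⟩, rfl⟩ := h
          refine ⟨bs, ?_, e2, Or.inr ?_⟩
          · rw [e1, List.append_assoc]
            exact congrArg (fun z => bs.flatMap gcode ++ z) hsp.1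
          · simp only [gnx, Option.bind_some, Option.isSome_map]
            exact hsp.2
        · obtain ⟨p, hp⟩ := Option.isSome_iff_exists.1 hsp.2
          have hc : gcnx stp (some (q, a, i), st) x = (some (p.1, 0, 0), p.2 ++ st.tail) := by
            simp only [gcnx, gcstep, dif_pos hh, dif_neg h2, hp]
          rw [hc] at h
          simp only [Prod.mk.injEq, Option.some.injEq] at h
          obtain ⟨⟨rfl, rfl, rfl⟩, rfl⟩ := h
          have hi : i.1 + 1 = 18 := by have := i.2; omega
          refine ⟨bs ++ [hh.choose], ?_, ?_, Or.inl rfl⟩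
          · have h3 : (gcode a).take i.1 ++ [x] = gcode hh.choose := by
              refine hsp.1.trans ?_
              apply List.take_of_length_le
              rw [gcode_len]
              omega
            rw [e1, List.append_assoc, List.flatMap_append]
            refine (congrArg (fun z => bs.flatMap gcode ++ z) h3).trans ?_
            simp
          · rw [List.map_append, List.map_singleton, grn_snoc, e2]
            simp only [gnx, Option.bind_some, hp, Option.map_some]
      · exfalso
        have hc : (gcnx stp (some (q, a, i), st) x).1 = none := by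
          simp only [gcnx, gcstep, dif_neg hh]
        rw [h] at hc
        cases hc

theorem take_getD' {α : Type} (l : List α) (d : α) (i : ℕ) (hi : i < l.length) :
    l.take i ++ [l.getD i d] = l.take (i + 1) := by
  rw [List.getD_eq_getElem _ _ hi, List.take_succ_eq_append_getElem hi]

/-- the coded word -/
def cwd (b : ℕ → Fin 5) (n : ℕ) : List (Fin 3) :=
  (List.range n).map (fun y => (gcode (b (y / 18))).getD (y % 18) 0)

theorem gcrn_cwd (q0 : Q) (b : ℕ → Fin 5) (T : ℕ)
    (hb : ∀ j, j ≤ T → (grn stp (some (q0, [])) ((List.range j).map (fun i => pr (b i)))).isSome)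
    (n : ℕ) (hn : n ≤ 18 * T) :
    ∃ q a i st, gcrn stp q0 (cwd b n) = (some (q, a, i), st) ∧ i.1 = n % 18 ∧
      (gcode a).take i.1 = (gcode (b (n / 18))).take i.1 ∧
      grn stp (some (q0, [])) ((List.range (n / 18)).map (fun i => pr (b i))) = some (q, st) := by
  induction n with
  | zero => exact ⟨q0, 0, 0, [], rfl, rfl, rfl, rfl⟩
  | succ n ih =>
    obtain ⟨q, a, i, st, e1, e2, e3, e4⟩ := ih (by omega)
    have hcw : cwd b (n + 1) = cwd b n ++ [(gcode (b (n / 18))).getD (n % 18) 0] := by
      unfold cwd
      rw [List.range_succ, List.map_append]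
      rfl
    have hi18 : i.1 < 18 := i.2
    have hx : (gcode a).take i.1 ++ [(gcode (b (n / 18))).getD (n % 18) 0] =
        (gcode (b (n / 18))).take (i.1 + 1) := by
      rw [e3, ← e2]
      exact take_getD' _ _ _ (by rw [gcode_len]; exact hi18)
    have hal : (stp q (pr (b (n / 18))) st.head?).isSome := by
      have h := hb (n / 18 + 1) (by omega)
      rw [List.range_succ, List.map_append, List.map_singleton, grn_snoc, e4] at h
      simpa only [gnx, Option.bind_some, Option.isSome_map] using h
    have hh : ∃ a' : Fin 5, (gcode a).take i.1 ++ [(gcode (b (n / 18))).getD (n % 18) 0] =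
        (gcode a').take (i.1 + 1) ∧ (stp q (pr a') st.head?).isSome :=
      ⟨b (n / 18), hx, hal⟩
    have hsp := hh.choose_spec
    rw [hcw, gcrn_snoc, e1]
    by_cases h2 : i.1 + 1 < 18
    · have hc : gcnx stp (some (q, a, i), st) ((gcode (b (n / 18))).getD (n % 18) 0) =
          (some (q, hh.choose, ⟨i.1 + 1, h2⟩), st) := by
        simp only [gcnx, gcstep, dif_pos hh, dif_pos h2, head_tail']
      have d1 : (n + 1) / 18 = n / 18 := by omega
      refine ⟨q, hh.choose, ⟨i.1 + 1, h2⟩, st, hc, by simp only; omega, ?_, ?_⟩
      · rw [d1]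
        exact hsp.1.symm.trans hx
      · rw [d1]
        exact e4
    · have hi : i.1 + 1 = 18 := by omega
      have hch : hh.choose = b (n / 18) := by
        apply gcode_inj'
        have h5 : (gcode hh.choose).take (i.1 + 1) = (gcode (b (n / 18))).take (i.1 + 1) :=
          hsp.1.symm.trans hx
        have h6 : ∀ l l' : List (Fin 3), l.take (i.1 + 1) = l'.take (i.1 + 1) →
            l.take 18 = l'.take 18 := by
          rw [hi]
          exact fun _ _ h => h
        exact h6 _ _ h5
      obtain ⟨p, hp⟩ := Option.isSome_iff_exists.1 hsp.2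
      have hc : gcnx stp (some (q, a, i), st) ((gcode (b (n / 18))).getD (n % 18) 0) =
          (some (p.1, 0, 0), p.2 ++ st.tail) := by
        simp only [gcnx, gcstep, dif_pos hh, dif_neg h2, hp]
      have d1 : (n + 1) / 18 = n / 18 + 1 := by omega
      have d2 : (n + 1) % 18 = 0 := by omega
      refine ⟨p.1, 0, 0, p.2 ++ st.tail, hc, by rw [d2]; rfl, by simp, ?_⟩
      rw [hch] at hp
      rw [d1, List.range_succ, List.map_append, List.map_singleton, grn_snoc, e4]
      simp only [gnx, Option.bind_some, hp, Option.map_some]

theorem gcod_oneTurn [Finite Q] [Finite S] (q0 : Q) (F : Set Q) (ph : Q → Prop)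
    (h0 : ∀ q g t p, stp q g t = some p → ¬ ph q → t.toList.length ≤ p.2.length)
    (h1 : ∀ q g t p, stp q g t = some p → ph q → p.2.length ≤ t.toList.length ∧ ph p.1) :
    (gcod stp q0 F).OneTurn := by
  have hlen : ∀ st : List S, st.length = st.head?.toList.length + st.tail.length := by
    intro st
    cases st <;> simp [Nat.add_comm]
  refine oneTurn_of (gcod stp q0 F)
    (fun c => ∀ q a i, c = some (q, a, i) → ph q) ?_ ?_
  · rintro ⟨c, st⟩ x hc
    change List S at st
    change Option (Q × Fin 5 × Fin 18) at c
    show st.length ≤ ((gcstep stp c x st.head?).2 ++ st.tail).length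
    rw [List.length_append, hlen st]
    simp only at hc
    push Not at hc
    obtain ⟨q, a, i, rfl, hq⟩ := hc
    simp only [gcstep]
    split_ifs with h h2
    · exact le_refl _
    · obtain ⟨p, hp⟩ := Option.isSome_iff_exists.1 h.choose_spec.2
      simp only [hp]
      have := h0 _ _ _ _ hp hq
      omega
    · exact le_refl _
  · rintro ⟨c, st⟩ x hc
    change List S at st
    change Option (Q × Fin 5 × Fin 18) at c
    show ((gcstep stp c x st.head?).2 ++ st.tail).length ≤ st.length ∧
      ∀ q a i, (gcstep stp c x st.head?).1 = some (q, a, i) → ph q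
    rw [List.length_append, hlen st]
    simp only at hc
    cases c with
    | none =>
      refine ⟨le_refl _, ?_⟩
      intro q a i h
      simp [gcstep] at h
    | some c =>
      obtain ⟨q, a, i⟩ := c
      have hq := hc q a i rfl
      simp only [gcstep]
      split_ifs with h h2
      · refine ⟨le_refl _, ?_⟩
        intro q' a' i' he
        simp only [Option.some.injEq, Prod.mk.injEq] at he
        rw [← he.1]
        exact hq
      · obtain ⟨p, hp⟩ := Option.isSome_iff_exists.1 h.choose_spec.2
        simp only [hp]
        have h3 := h1 _ _ _ _ hp hq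
        refine ⟨by omega, ?_⟩
        intro q' a' i' he
        simp only [Option.some.injEq, Prod.mk.injEq] at he
        rw [← he.1]
        exact h3.2
      · refine ⟨le_refl _, ?_⟩
        intro q' a' i' he
        simp at he

end

end Pool.CoCF
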