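import Pool.Agent.CoCF.TAuto

/-!
The words outside both languages of the automata with one turn.
-/

set_option autoImplicit false

namespace Pool.CoCF

/-- the first automaton over three letters -/
noncomputable def autA : Automaton (Fin 3) := gcod stpA .p0 {.d}

/-- the second automaton over three letters -/
noncomputable def autB : Automaton (Fin 3) := gcod stpB .push {q | q ≠ .push}

theorem flatMap_gcode_inj' (l l' : List (Fin 5)) (hl : l.length = l'.length)
    (h : l.flatMap gcode = l'.flatMap gcode) : l = l' := by
  induction l generalizing l' with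
  | nil =>
    cases l' with
    | nil => rfl
    | cons a l' => simp at hl
  | cons a l ih =>
    cases l' with
    | nil => simp at hl
    | cons a' l' =>
      rw [List.flatMap_cons, List.flatMap_cons] at h
      obtain ⟨h1, h2⟩ := List.append_inj h (by rw [gcode_len, gcode_len])
      have h3 : a = a' := gcode_inj' (by rw [h1])
      rw [h3, ih l' (by simpa using hl) h2]

/-- a letter for a letter or marker -/
def lft' : Option (Fin 3) → Fin 5
  | some x => ![0, 2, 3] x
  | none => 4

theorem pr_lft' : ∀ g : Option (Fin 3), pr (lft' g) = g := by decide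

theorem squareFree_of_sf' (w : List (Fin 3)) (f : ℕ → ℕ) (N : ℕ) (hN : w.length ≤ N)
    (hf : ∀ y, y < w.length → (w.getD y 0).1 = f y) (h : SF f N) : SquareFree w := by
  intro u hu
  obtain ⟨s, t, hst⟩ := hu
  by_contra hne
  have hm : 0 < u.length := List.length_pos_iff.2 hne
  have hlen : w.length = s.length + (u.length + u.length) + t.length := by
    rw [← hst]
    simp only [List.length_append]
  obtain ⟨x, hx, hd⟩ := h s.length u.length hm (by omega)
  apply hd
  have e0 : w = s ++ (u ++ (u ++ t)) := by
    rw [← hst]
    simp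
  rw [← hf _ (by omega), ← hf _ (by omega)]
  have e1 : w.getD (s.length + x) 0 = u.getD x 0 := by
    rw [e0, List.getD_append_right _ _ _ _ (by omega), Nat.add_sub_cancel_left,
      List.getD_append _ _ _ _ hx]
  have e2 : w.getD (s.length + u.length + x) 0 = u.getD x 0 := by
    rw [e0, List.getD_append_right _ _ _ _ (by omega)]
    have e3 : s.length + u.length + x - s.length = u.length + x := by omega
    rw [e3, List.getD_append_right _ _ _ _ (by omega), Nat.add_sub_cancel_left,
      List.getD_append _ _ _ _ hx]
  rw [e1, e2]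

theorem range_V (n L : ℕ) : (List.range (n + 1 + L)).map (V n) =
    ((List.range n).map lam).reverse.map some ++
      none :: ((List.range L).map lam).map some := by
  rw [List.range_add, List.map_append, List.range_succ, List.map_append, List.append_assoc]
  congr 1
  · apply List.ext_getElem
    · simp
    · intro i h1 h2
      simp only [List.length_map, List.length_range] at h1
      simp [V_lt h1]
  · simp only [List.map_cons, List.map_nil, V_mid, List.singleton_append, List.map_map]
    congr 1
    apply List.map_congr_left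
    intro i _
    show V n (n + 1 + i) = some (lam i)
    rw [V_gt (by omega), Nat.add_sub_cancel_left]

/-- if both automata over `Option (Fin 3)` accept `b`, then it is a prefix of `V n` -/
theorem both_form (b : List (Option (Fin 3))) (st : List (Fin 3 × Bool))
    (h : grn stpA (some (.p0, [])) b = some (.d, st))
    (h' : (grn stpB (some (.push, [])) b).isSome) :
    ∃ n L, 0 < n ∧ b = (List.range (n + 1 + L)).map (V n) ∧
      ∀ g, (grn stpB (some (.push, [])) (b ++ [g])).isSome → g = V n (n + 1 + L) := by
  obtain ⟨v, y, hv, h0, hp, rfl⟩ := A_form b st h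
  have hB : ∀ l : List (Option (Fin 3)),
      grn stpB (some (.push, [])) (v.reverse.map some ++ none :: l) =
        grn stpB (some (.c 0 0, v)) l := by
    intro l
    rw [grn_append, B_push, grn_cons, List.reverse_reverse, B_marker]
  rw [hB] at h'
  obtain ⟨h1, h2, h3⟩ := B_form v (y.map some) h'
  rw [List.length_map] at h1 h2 h3
  have hlv : 0 < v.length := List.length_pos_iff.2 hv
  have hle : v.length ≤ y.length := hp.length_le
  have hyE : ∀ j, j < y.length → y.getD j 0 = E v j := by
    intro j hj
    have h4 : (y.map some).getD j none =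
      ((List.range y.length).map (fun j => some (E v j))).getD j none := by rw [← h2]
    rw [List.getD_eq_getElem _ _ (by simpa using hj),
      List.getD_eq_getElem _ _ (by simpa using hj)] at h4
    rw [List.getD_eq_getElem _ _ hj]
    simpa using h4
  have hvy : ∀ j, j < v.length → v.getD j 0 = y.getD j 0 := by
    intro j hj
    obtain ⟨t, rfl⟩ := hp
    rw [List.getD_append _ _ _ _ hj]
  have hy : ∀ j, j < y.length → y.getD j 0 = lam j := by
    intro j
    induction j using Nat.strong_induction_on with
    | _ j ih =>
      intro hj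
      by_cases hj0 : j = 0
      · rw [hj0, ← hvy 0 hlv, h0, lam_zero]
      · rw [hyE j hj, lam_eq, E, hvy (j / 13) (by omega), ih (j / 13) (by omega) (by omega)]
  have hvl : ∀ j, j < v.length → v.getD j 0 = lam j := fun j hj =>
    (hvy j hj).trans (hy j (by omega))
  have ev : v = (List.range v.length).map lam := by
    apply List.ext_getElem
    · simp
    · intro i h4 h5
      have := hvl i h4
      rw [List.getD_eq_getElem _ _ h4] at this
      simpa using this
  have ey : y = (List.range y.length).map lam := by
    apply List.ext_getElem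
    · simp
    · intro i h4 h5
      have := hy i h4
      rw [List.getD_eq_getElem _ _ h4] at this
      simpa using this
  refine ⟨v.length, y.length, hlv, ?_, ?_⟩
  · rw [range_V, ← ev, ← ey]
  · intro g hg
    have e : v.reverse.map some ++ none :: y.map some ++ [g] =
        v.reverse.map some ++ none :: (y.map some ++ [g]) := by simp
    rw [e, hB, grn_snoc] at hg
    obtain ⟨h4, h5⟩ := (invB_step h3 g).1 hg
    rw [h5, V_gt (by omega)]
    have e2 : v.length + 1 + y.length - (v.length + 1) = y.length := by omega
    rw [e2, E, hvl _ (by omega), ← lam_eq]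

/-- a word outside both languages is a prefix of a coded word -/
theorem outsideT (w : List (Fin 3)) (h1 : w ∉ autA.language) (h2 : w ∉ autB.language) :
    ∃ (n : ℕ) (b : ℕ → Fin 5), (∀ i, pr (b i) = V n i) ∧
      ∀ y, y < w.length → w.getD y 0 = (gcode (b (y / 18))).getD (y % 18) 0 := by
  unfold autA at h1
  unfold autB at h2
  rw [not_mem_gcod] at h1 h2
  obtain ⟨q1, a1, i1, hc1, hd⟩ := h1
  obtain ⟨q2, a2, i2, hc2, _⟩ := h2
  obtain rfl : q1 = QA.d := hd
  obtain ⟨bs, e1, f1, _⟩ := gcrn_some stpA .p0 w .d a1 i1 (gcrn stpA .p0 w).2 (Prod.ext hc1 rfl)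
  obtain ⟨bs', e2, f2, k2⟩ := gcrn_some stpB .push w q2 a2 i2 (gcrn stpB .push w).2
    (Prod.ext hc2 rfl)
  have l1 : w.length = 18 * bs.length + i1.1 := by
    rw [e1, List.length_append, flatMap_len _ 18 gcode_len, List.length_take, gcode_len]
    have := i1.2
    omega
  have l2 : w.length = 18 * bs'.length + i2.1 := by
    rw [e2, List.length_append, flatMap_len _ 18 gcode_len, List.length_take, gcode_len]
    have := i2.2
    omega
  have hl : bs.length = bs'.length := by
    have := i1.2
    have := i2.2
    omega
  obtain ⟨h3, _⟩ := List.append_inj (e1.symm.trans e2) (by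
    rw [flatMap_len _ 18 gcode_len, flatMap_len _ 18 gcode_len, hl])
  have h5 := flatMap_gcode_inj' bs bs' hl h3
  subst h5
  obtain ⟨n, L, hn, hb, hg⟩ := both_form (bs.map pr) _ f1 (by rw [f2]; rfl)
  have hbl : bs.length = n + 1 + L := by
    have := congrArg List.length hb
    simpa using this
  have ha2 : i2.1 = 0 ∨ pr a2 = V n bs.length := by
    rcases k2 with k | k
    · exact Or.inl k
    · right
      rw [hbl]
      apply hg
      rw [grn_snoc, f2]
      exact k
  have hi18 := i2.2
  refine ⟨n, fun j => if j < bs.length then bs.getD j 0 else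
    if j = bs.length ∧ i2.1 ≠ 0 then a2 else lft' (V n j), ?_, ?_⟩
  · intro j
    by_cases hj : j < bs.length
    · simp only [if_pos hj]
      have h6 : (bs.map pr).getD j none = ((List.range (n + 1 + L)).map (V n)).getD j none := by
        rw [← hb]
      rw [List.getD_eq_getElem _ _ (by simpa using hj),
        List.getD_eq_getElem _ _ (by simp; omega)] at h6
      rw [List.getD_eq_getElem _ _ hj]
      simpa using h6
    · simp only [if_neg hj]
      by_cases hj2 : j = bs.length ∧ i2.1 ≠ 0
      · rw [if_pos hj2]
        rcases ha2 with h | h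
        · exact absurd h hj2.2
        · rw [h, hj2.1]
      · rw [if_neg hj2]
        exact pr_lft' _
  · intro y hy
    rcases Nat.lt_or_ge y (18 * bs.length) with h | h
    · have h7 : y / 18 < bs.length := Nat.div_lt_of_lt_mul h
      simp only [if_pos h7]
      rw [e2, List.getD_append _ _ _ _ (by rw [flatMap_len _ 18 gcode_len]; exact h),
        flatMap_getD gcode 18 (by norm_num) gcode_len 0 0 bs y h]
    · have h8 : y / 18 = bs.length := by omega
      have h9 : y % 18 = y - 18 * bs.length := by omega
      have h10 : ¬ (y / 18 < bs.length) := by omega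
      have h11 : y / 18 = bs.length ∧ i2.1 ≠ 0 := ⟨h8, by omega⟩
      simp only [if_neg h10, if_pos h11]
      rw [e2, List.getD_append_right _ _ _ _ (by rw [flatMap_len _ 18 gcode_len]; exact h),
        flatMap_len _ 18 gcode_len, h9, List.getD_eq_getElem _ _ (by
          rw [List.length_take, gcode_len]; omega), List.getElem_take,
        List.getD_eq_getElem _ _ (by rw [gcode_len]; omega)]

theorem outsideT_squareFree (w : List (Fin 3)) (h1 : w ∉ autA.language)
    (h2 : w ∉ autB.language) : SquareFree w := by
  obtain ⟨n, b, hb, hw⟩ := outsideT w h1 h2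
  refine squareFree_of_sf' w (Ph 18 (fun a x => dg (gN a) x) b) (18 * (w.length + 4)) (by omega)
    ?_ (gN_sf b (w.length + 4) (by omega) ((V_sf n _).congr (fun i _ => (hb i).symm)))
  intro y hy
  rw [hw y hy, gcode_dg _ _ (Nat.mod_lt _ (by norm_num))]
  rfl

theorem grn_mono {Q S : Type} (stp : Q → Option (Fin 3) → Option S → Option (Q × List S))
    (c : Option (Q × List S)) (b b' : List (Option (Fin 3)))
    (h : (grn stp c (b ++ b')).isSome) : (grn stp c b).isSome := by
  by_contra hn
  rw [Option.not_isSome_iff_eq_none] at hn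
  rw [grn_append, hn, grn_none] at h
  simp at h

theorem range_prefix (f : ℕ → Option (Fin 3)) {j T : ℕ} (h : j ≤ T) :
    ∃ l, (List.range T).map f = (List.range j).map f ++ l := by
  obtain ⟨k, rfl⟩ := Nat.exists_eq_add_of_le h
  rw [List.range_add, List.map_append]
  exact ⟨_, rfl⟩

theorem A_range (n L : ℕ) (hn : 0 < n) (hL : n ≤ L) :
    grn stpA (some (.p0, [])) ((List.range (n + 1 + L)).map (V n)) = some (.d, []) := by
  rw [range_V]
  apply A_acc
  · intro h
    have := congrArg List.length h
    simp at this
    omega
  · rw [List.getD_eq_getElem _ _ (by simpa using hn)]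
    simp [lam_zero]
  · obtain ⟨k, rfl⟩ := Nat.exists_eq_add_of_le hL
    rw [List.range_add, List.map_append]
    exact ⟨_, rfl⟩

theorem B_range (n L : ℕ) (hL : L ≤ 13 * n) :
    ∃ a j st, grn stpB (some (.push, [])) ((List.range (n + 1 + L)).map (V n)) =
      some (.c a j, st) := by
  rw [range_V, grn_append, B_push, grn_cons, List.reverse_reverse, B_marker]
  have e : ((List.range L).map lam).map some =
      (List.range L).map (fun j => some (E ((List.range n).map lam) j)) := by
    rw [List.map_map]
    apply List.map_congr_left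
    intro j hj
    rw [List.mem_range] at hj
    have hv : ((List.range n).map lam).getD (j / 13) 0 = lam (j / 13) := by
      rw [List.getD_eq_getElem _ _ (by rw [List.length_map, List.length_range]; omega)]
      simp
    show some (lam j) = some (E ((List.range n).map lam) j)
    rw [E, hv, ← lam_eq]
  rw [e]
  obtain ⟨a, j, h, _⟩ := B_acc ((List.range n).map lam) L (by simpa using hL)
  exact ⟨a, j, _, h⟩

theorem cwd_outside (n N : ℕ) (b : ℕ → Fin 5) (hb : ∀ i, pr (b i) = V n i) (hn : 0 < n)
    (h1 : 2 * n + 1 ≤ N / 18) (h2 : N / 18 ≤ 2 * n + 2) :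
    cwd b N ∉ autA.language ∧ cwd b N ∉ autB.language := by
  have hV : ∀ j, (List.range j).map (fun i => pr (b i)) = (List.range j).map (V n) := by
    intro j
    apply List.map_congr_left
    intro i _
    exact hb i
  have aliveA : ∀ j, j ≤ N / 18 + 1 →
      (grn stpA (some (.p0, [])) ((List.range j).map (fun i => pr (b i)))).isSome := by
    intro j hj
    obtain ⟨l, hl⟩ := range_prefix (V n) hj
    rw [hV]
    apply grn_mono stpA _ _ l
    rw [← hl]
    have := A_range n (N / 18 + 1 - (n + 1)) hn (by omega)
    have e : n + 1 + (N / 18 + 1 - (n + 1)) = N / 18 + 1 := by omega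
    rw [e] at this
    rw [this]
    rfl
  have aliveB : ∀ j, j ≤ N / 18 + 1 →
      (grn stpB (some (.push, [])) ((List.range j).map (fun i => pr (b i)))).isSome := by
    intro j hj
    obtain ⟨l, hl⟩ := range_prefix (V n) hj
    rw [hV]
    apply grn_mono stpB _ _ l
    rw [← hl]
    obtain ⟨a, i, st, this⟩ := B_range n (N / 18 + 1 - (n + 1)) (by omega)
    have e : n + 1 + (N / 18 + 1 - (n + 1)) = N / 18 + 1 := by omega
    rw [e] at this
    rw [this]
    rfl
  constructor
  · unfold autA
    rw [not_mem_gcod]
    obtain ⟨q, a, i, st, e1, _, _, e4⟩ := gcrn_cwd stpA .p0 b (N / 18 + 1) aliveA N (by omega)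
    refine ⟨q, a, i, by rw [e1], ?_⟩
    have := A_range n (N / 18 - (n + 1)) hn (by omega)
    have e : n + 1 + (N / 18 - (n + 1)) = N / 18 := by omega
    rw [e] at this
    rw [hV, this] at e4
    simp only [Option.some.injEq, Prod.mk.injEq] at e4
    exact e4.1.symm
  · unfold autB
    rw [not_mem_gcod]
    obtain ⟨q, a, i, st, e1, _, _, e4⟩ := gcrn_cwd stpB .push b (N / 18 + 1) aliveB N (by omega)
    refine ⟨q, a, i, by rw [e1], ?_⟩
    obtain ⟨a', j', st', this⟩ := B_range n (N / 18 - (n + 1)) (by omega)
    have e : n + 1 + (N / 18 - (n + 1)) = N / 18 := by omega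
    rw [e] at this
    rw [hV, this] at e4
    simp only [Option.some.injEq, Prod.mk.injEq] at e4
    rw [← e4.1]
    show QB.c a' j' ≠ QB.push
    simp

/-- the places of the letter `0` -/
def zsT (n q : ℕ) : Finset ℕ := (Finset.range q).filter (fun i => V n i = some 0)

theorem zsT_card (n q : ℕ) (hn : 0 < n) : q / 16 ≤ (zsT n q).card := by
  have h : ∀ t, ∃ z, 16 * t ≤ z ∧ z < 16 * t + 16 ∧ V n z = some 0 :=
    fun t => V_zero n (16 * t) hn
  choose f h1 h2 h3 using h
  calc q / 16 = (Finset.range (q / 16)).card := (Finset.card_range _).symm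
    _ ≤ (zsT n q).card := by
        apply Finset.card_le_card_of_injOn f
        · intro t ht
          have ht' : t < q / 16 := by simpa using ht
          have := h2 t
          simp only [zsT, Finset.coe_filter, Finset.mem_range, Set.mem_ofPred_eq]
          exact ⟨by omega, h3 t⟩
        · intro t _ t' _ he
          have a1 := h1 t
          have a2 := h2 t
          have a3 := h1 t'
          have a4 := h2 t'
          have he' : f t = f t' := he
          omega

/-- the choice of the second code word for the letter `0` at the places in `S` -/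
def bST (n : ℕ) (S : Finset ℕ) (i : ℕ) : Fin 5 :=
  if V n i = some 0 ∧ i ∈ S then 1 else lft' (V n i)

theorem pr_bST (n : ℕ) (S : Finset ℕ) (i : ℕ) : pr (bST n S i) = V n i := by
  unfold bST
  split_ifs with h
  · rw [h.1]
    rfl
  · exact pr_lft' _

theorem cwd_getD (b : ℕ → Fin 5) (N y : ℕ) (hy : y < N) :
    (cwd b N).getD y 0 = (gcode (b (y / 18))).getD (y % 18) 0 := by
  unfold cwd
  rw [List.getD_eq_getElem _ _ (by simpa using hy)]
  simp

theorem cwd_bST_inj (n N : ℕ) :
    Set.InjOn (fun S => cwd (bST n S) N) ((zsT n (N / 18)).powerset : Set (Finset ℕ)) := by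
  intro S hS S' hS' he
  simp only [Finset.coe_powerset, Set.mem_preimage, Set.mem_powerset_iff,
    Finset.coe_subset] at hS hS'
  have key : ∀ i, i ∈ zsT n (N / 18) → (i ∈ S ↔ i ∈ S') := by
    intro i hi
    have hi' := hi
    simp only [zsT, Finset.mem_filter, Finset.mem_range] at hi'
    have hy : 18 * i + 11 < N := by omega
    have h1 : (cwd (bST n S) N).getD (18 * i + 11) 0 = (cwd (bST n S') N).getD (18 * i + 11) 0 :=
      congrArg (fun w => List.getD w (18 * i + 11) 0) he
    rw [cwd_getD _ _ _ hy, cwd_getD _ _ _ hy] at h1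
    have e1 : (18 * i + 11) / 18 = i := by omega
    have e2 : (18 * i + 11) % 18 = 11 := by omega
    rw [e1, e2] at h1
    unfold bST at h1
    have h0 : lft' (some 0) = 0 := rfl
    rw [hi'.2, h0] at h1
    have hd : (gcode 1).getD 11 0 ≠ (gcode 0).getD 11 0 := by decide
    by_cases hs : i ∈ S <;> by_cases hs' : i ∈ S'
    · exact ⟨fun _ => hs', fun _ => hs⟩
    · exfalso
      rw [if_pos ⟨rfl, hs⟩, if_neg (fun h => hs' h.2)] at h1
      exact hd h1
    · exfalso
      rw [if_neg (fun h => hs h.2), if_pos ⟨rfl, hs'⟩] at h1
      exact hd h1.symm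
    · exact ⟨fun h => absurd h hs, fun h => absurd h hs'⟩
  ext i
  constructor
  · intro h
    exact (key i (hS h)).1 h
  · intro h
    exact (key i (hS' h)).2 h

theorem manyT (N : ℕ) (hN : 54 ≤ N) : 2 ^ (N / 288) ≤
    {w : List (Fin 3) | w.length = N ∧ w ∉ autA.language ∧ w ∉ autB.language}.ncard := by
  have hfin : {w : List (Fin 3) | w.length = N ∧ w ∉ autA.language ∧
      w ∉ autB.language}.Finite :=
    (List.finite_length_eq (Fin 3) N).subset (fun w h => h.1)
  obtain ⟨n, hn⟩ : ∃ n, n = (N / 18 - 1) / 2 := ⟨_, rfl⟩
  have hT : 3 ≤ N / 18 := by omega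
  have hn0 : 0 < n := by omega
  have h1 : N / 288 ≤ (zsT n (N / 18)).card := by
    have h2 := zsT_card n (N / 18) hn0
    rw [Nat.div_div_eq_div_mul] at h2
    exact h2
  calc 2 ^ (N / 288) ≤ 2 ^ (zsT n (N / 18)).card := Nat.pow_le_pow_right (by norm_num) h1
    _ = ((zsT n (N / 18)).powerset : Set (Finset ℕ)).ncard := by
        rw [Set.ncard_coe_finset, Finset.card_powerset]
    _ = ((fun S => cwd (bST n S) N) '' ((zsT n (N / 18)).powerset : Set (Finset ℕ))).ncard :=
        (Set.InjOn.ncard_image (cwd_bST_inj n N)).symm
    _ ≤ _ := by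
        apply Set.ncard_le_ncard _ hfin
        rintro w ⟨S, _, rfl⟩
        refine ⟨by simp [cwd], ?_⟩
        exact cwd_outside n N (bST n S) (pr_bST n S) hn0 (by omega) (by omega)

end Pool.CoCF
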